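import Pool.Agent.Lib.SmBU.KDefs

/-!
SMITH-U, block B for general `K`: there are at most `[K : k(t)]` primes of `AA k K` above a monic
irreducible polynomial.
-/

set_option autoImplicit false
set_option linter.deprecated false

namespace Pool.Agent.SmBU

open Module Polynomial Pool.Agent.SmB

section fin

variable {k : Type*} [Field k]
  {K : Type*} [Field K] [Algebra (RatFunc k) K] [Algebra k[X] K] [IsScalarTower k[X] (RatFunc k) K]
  [FiniteDimensional (RatFunc k) K] [Algebra.IsSeparable (RatFunc k) K]

theorem finite_above {P : k[X]} (hP : Irreducible P) :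
    {v : Ideal (AA k K) | v.IsPrime ∧
      v.comap (algebraMap k[X] (AA k K)) = Ideal.span {P}}.Finite ∧
    {v : Ideal (AA k K) | v.IsPrime ∧
      v.comap (algebraMap k[X] (AA k K)) = Ideal.span {P}}.ncard ≤ finrank (RatFunc k) K := by
  have hmax : (Ideal.span {P} : Ideal k[X]).IsMaximal :=
    PrincipalIdealRing.isMaximal_of_irreducible hP
  have hp0 : (Ideal.span {P} : Ideal k[X]) ≠ ⊥ := by
    rw [Ne, Ideal.span_singleton_eq_bot]
    exact hP.ne_zero
  have htf : IsTorsionFree k[X] K := .trans_faithfulSMul k[X] (RatFunc k) K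
  have hded : IsDedekindDomain (AA k K) := integralClosure.isDedekindDomain k[X] (RatFunc k) K
  have hfrac : IsFractionRing (AA k K) K :=
    integralClosure.isFractionRing_of_finite_extension (RatFunc k) K
  have hfin : Module.Finite k[X] (AA k K) := IsIntegralClosure.finite k[X] (RatFunc k) K (AA k K)
  have hnz : NoZeroSMulDivisors k[X] (AA k K) := by
    refine ⟨fun {c x} h => ?_⟩
    rw [Algebra.smul_def, mul_eq_zero] at h
    refine h.imp (fun h1 => ?_) id
    have h2 : algebraMap k[X] K c = 0 := congrArg Subtype.val h1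
    rw [IsScalarTower.algebraMap_apply k[X] (RatFunc k) K, map_eq_zero] at h2
    exact (IsFractionRing.injective k[X] (RatFunc k)) (h2.trans (map_zero _).symm)
  have hset : {v : Ideal (AA k K) | v.IsPrime ∧
      v.comap (algebraMap k[X] (AA k K)) = Ideal.span {P}} =
      ((IsDedekindDomain.primesOverFinset (Ideal.span {P}) (AA k K) : Finset (Ideal (AA k K))) :
        Set (Ideal (AA k K))) := by
    ext v
    rw [Finset.mem_coe, IsDedekindDomain.mem_primesOverFinset_iff hp0]
    constructor
    · rintro ⟨h1, h2⟩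
      exact ⟨h1, ⟨h2.symm⟩⟩
    · rintro ⟨h1, ⟨h2⟩⟩
      exact ⟨h1, h2.symm⟩
  rw [hset, Set.ncard_coe_finset]
  exact ⟨Finset.finite_toSet _,
    Ideal.card_primesOverFinset_le_finrank (AA k K) (RatFunc k) K hp0⟩

end fin

end Pool.Agent.SmBU
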