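import Pool.Agent.Lib.SmBU.KDefs

/-!
SMITH-U, block B for general `K`: the normal closure `Mt` of `M` over `k(t)`, and constants attached
to `K` only.
-/

set_option autoImplicit false

namespace Pool.Agent.SmBU

open Module Polynomial Pool.Agent.SmB
open IntermediateField (normalClosure)

section aux

variable {R : Type*} [Field R] {Ω : Type*} [Field Ω] [Algebra R Ω]

/-- Elements of a field generated by one element are determined by it. -/
theorem algHom_ext_gen {E E' : Type*} [Field E] [Field E'] [Algebra R E] [Algebra R E']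
    [FiniteDimensional R E] {α : E} (hα : IntermediateField.adjoin R {α} = ⊤) {φ ψ : E →ₐ[R] E'}
    (h : φ α = ψ α) : φ = ψ := by
  have hint : IsIntegral R α := Algebra.IsIntegral.isIntegral α
  have h1 : Algebra.adjoin R {α} = ⊤ := by
    have h2 := IntermediateField.adjoin_simple_toSubalgebra_of_isAlgebraic hint.isAlgebraic
    rw [← h2, hα, IntermediateField.top_toSubalgebra]
  refine AlgHom.ext_of_adjoin_eq_top h1 ?_
  intro x hx
  rw [Set.mem_singleton_iff] at hx
  rw [hx]
  exact h

/-- The conjugates of the image of `M` generate the normal closure. -/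
theorem gen_closure [Normal R Ω] {M : Type*} [Field M] [Algebra R M] [FiniteDimensional R M]
    (ι : M →ₐ[R] normalClosure R M Ω)
    (g : normalClosure R M Ω ≃ₐ[R] normalClosure R M Ω)
    (hg : ∀ (h : normalClosure R M Ω ≃ₐ[R] normalClosure R M Ω) (x : M), g (h (ι x)) = h (ι x)) :
    g = 1 := by
  let E : IntermediateField R (normalClosure R M Ω) :=
    IntermediateField.fixedField (Subgroup.zpowers g)
  have hE : ∀ z : normalClosure R M Ω, g z = z → z ∈ E := by
    intro z hz
    rw [IntermediateField.mem_fixedField_iff]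
    intro s hs
    have h2 : Subgroup.zpowers g ≤ MulAction.stabilizer
        (normalClosure R M Ω ≃ₐ[R] normalClosure R M Ω) z := by
      rw [Subgroup.zpowers_le]
      exact hz
    exact h2 hs
  have hle : normalClosure R M Ω ≤ IntermediateField.lift E := by
    refine normalClosure_le_iff.2 fun f => ?_
    rintro _ ⟨x, rfl⟩
    have hfr : ∀ x : M, f x ∈ normalClosure R M Ω := fun x =>
      AlgHom.fieldRange_le_normalClosure f ⟨x, rfl⟩
    let f' : M →ₐ[R] normalClosure R M Ω := f.codRestrict (normalClosure R M Ω).toSubalgebra hfr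
    let a1 : Algebra M (normalClosure R M Ω) := (ι : M →+* normalClosure R M Ω).toAlgebra
    have t1 : IsScalarTower R M (normalClosure R M Ω) :=
      IsScalarTower.of_algebraMap_eq fun a => (ι.commutes a).symm
    have hfin : FiniteDimensional M (normalClosure R M Ω) :=
      FiniteDimensional.right R M (normalClosure R M Ω)
    -- extend `f'` to the normal closure
    obtain ⟨h, hh⟩ : ∃ h : normalClosure R M Ω →ₐ[R] normalClosure R M Ω,
        ∀ x : M, h (ι x) = f' x := by
      let φ := AlgHom.liftNormal (F := R) (K₁ := M) (K₂ := normalClosure R M Ω) f'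
        (normalClosure R M Ω)
      exact ⟨φ, fun x => AlgHom.liftNormal_commutes f' (normalClosure R M Ω) x⟩
    have hbij : Function.Bijective h := by
      have h1 : Function.Injective h := h.toRingHom.injective
      exact ⟨h1, LinearMap.surjective_of_injective (f := h.toLinearMap) h1⟩
    have h2 := hg (AlgEquiv.ofBijective h hbij) x
    rw [AlgEquiv.coe_ofBijective, hh] at h2
    have h3 := hE _ h2
    exact (IntermediateField.mem_lift (f' x)).2 h3
  refine AlgEquiv.ext fun z => ?_
  have h1 : (z : Ω) ∈ IntermediateField.lift E := hle z.2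
  rw [IntermediateField.mem_lift] at h1
  exact (IntermediateField.mem_fixedField_iff _ _).1 h1 g (Subgroup.mem_zpowers g)

end aux

theorem exists_closure (k : Type) [Field k] (K : Type) [Field K] [Algebra (RatFunc k) K]
    [FiniteDimensional (RatFunc k) K] [Algebra.IsSeparable (RatFunc k) K] :
    ∃ (c₁ c e : ℕ) (δ : k[X]), ∀ (M : Type) [Field M] [Algebra K M] [Algebra (RatFunc k) M]
      [IsScalarTower (RatFunc k) K M] [FiniteDimensional K M] [IsGalois K M],
      ∃ (Mt : Type) (_ : Field Mt) (_ : Algebra (RatFunc k) Mt) (_ : Algebra k[X] Mt)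
        (_ : IsScalarTower k[X] (RatFunc k) Mt) (_ : FiniteDimensional (RatFunc k) Mt)
        (_ : IsGalois (RatFunc k) Mt) (_ : Algebra k Mt) (_ : IsScalarTower k k[X] Mt)
        (ι : M →ₐ[RatFunc k] Mt) (α : Mt),
        GenDat k α δ c e ∧ (minpoly (RatFunc k) α).natDegree ≤ c₁ ∧ CtrK K ι α ∧ GenM ι := by
  classical
  let Ω := SeparableClosure (RatFunc k)
  have hgal : IsGalois (RatFunc k) Ω := inferInstance
  have hsep : Algebra.IsSeparable (RatFunc k) Ω := inferInstance
  have hnor : Normal (RatFunc k) Ω := inferInstance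
  let K₁ := normalClosure (RatFunc k) K Ω
  let iX : Algebra k[X] K₁ :=
    ((algebraMap (RatFunc k) K₁).comp (algebraMap k[X] (RatFunc k))).toAlgebra
  have tX : IsScalarTower k[X] (RatFunc k) K₁ := IsScalarTower.of_algebraMap_eq fun _ => rfl
  have hK₁f : FiniteDimensional (RatFunc k) K₁ := inferInstance
  have hK₁s : Algebra.IsSeparable (RatFunc k) K₁ := inferInstance
  -- an integral primitive element
  obtain ⟨x, hx⟩ := Field.exists_primitive_element (RatFunc k) K₁
  have halg : IsAlgebraic k[X] x := by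
    have h1 : IsAlgebraic (RatFunc k) x := Algebra.IsAlgebraic.isAlgebraic x
    exact (IsFractionRing.isAlgebraic_iff k[X] (RatFunc k) K₁).2 h1
  obtain ⟨d, hd, hi⟩ := halg.exists_integral_multiple
  have hd0 : algebraMap k[X] (RatFunc k) d ≠ 0 := by
    rw [Ne, map_eq_zero_iff _ (IsFractionRing.injective k[X] (RatFunc k))]
    exact hd
  obtain ⟨α₀, hα₀⟩ : ∃ α₀ : K₁, α₀ = d • x := ⟨_, rfl⟩
  rw [← hα₀] at hi
  have hgen₀ : IntermediateField.adjoin (RatFunc k) {α₀} = ⊤ := by
    rw [← hx]
    apply le_antisymm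
    · rw [IntermediateField.adjoin_simple_le_iff, hα₀, Algebra.smul_def,
        IsScalarTower.algebraMap_apply k[X] (RatFunc k) K₁]
      exact mul_mem (IntermediateField.algebraMap_mem _ _)
        (IntermediateField.mem_adjoin_simple_self _ _)
    · rw [IntermediateField.adjoin_simple_le_iff]
      have h1 : x = algebraMap (RatFunc k) K₁ (algebraMap k[X] (RatFunc k) d)⁻¹ * α₀ := by
        rw [hα₀, Algebra.smul_def, IsScalarTower.algebraMap_apply k[X] (RatFunc k) K₁, ← mul_assoc,
          ← map_mul, inv_mul_cancel₀ hd0, map_one, one_mul]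
      rw [h1]
      exact mul_mem (IntermediateField.algebraMap_mem _ _)
        (IntermediateField.mem_adjoin_simple_self _ _)
  obtain ⟨δ, c, e, hgd⟩ := exists_genDat (k := k) hi
  refine ⟨(minpoly (RatFunc k) α₀).natDegree, c, e, δ, ?_⟩
  intro M _ _ _ _ _ _
  have hMf : FiniteDimensional (RatFunc k) M := FiniteDimensional.trans (RatFunc k) K M
  have hMs : Algebra.IsSeparable (RatFunc k) M := Algebra.IsSeparable.trans (RatFunc k) K M
  let Mt := normalClosure (RatFunc k) M Ω
  let jX : Algebra k[X] Mt :=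
    ((algebraMap (RatFunc k) Mt).comp (algebraMap k[X] (RatFunc k))).toAlgebra
  have uX : IsScalarTower k[X] (RatFunc k) Mt := IsScalarTower.of_algebraMap_eq fun _ => rfl
  let jk : Algebra k Mt := ((algebraMap k[X] Mt).comp C).toAlgebra
  have uk : IsScalarTower k k[X] Mt := IsScalarTower.of_algebraMap_eq fun _ => rfl
  have hMtf : FiniteDimensional (RatFunc k) Mt := inferInstance
  have hMts : Algebra.IsSeparable (RatFunc k) Mt := inferInstance
  have hMtn : Normal (RatFunc k) Mt := inferInstance
  have hMtg : IsGalois (RatFunc k) Mt := ⟨⟩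
  -- the embeddings
  let f₀ : M →ₐ[RatFunc k] Ω := IsSepClosed.lift
  have hf₀ : ∀ y, f₀ y ∈ Mt := fun y => AlgHom.fieldRange_le_normalClosure f₀ ⟨y, rfl⟩
  let ι : M →ₐ[RatFunc k] Mt := f₀.codRestrict Mt.toSubalgebra hf₀
  have hle : K₁ ≤ Mt := by
    refine normalClosure_le_iff.2 fun f => ?_
    rintro _ ⟨y, rfl⟩
    -- extend `f` to `M`
    obtain ⟨F, hF⟩ : ∃ F : M →ₐ[RatFunc k] Ω, ∀ y : K, F (algebraMap K M y) = f y := by
      let a1 : Algebra K Ω := (f : K →+* Ω).toAlgebra
      have t1 : IsScalarTower (RatFunc k) K Ω :=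
        IsScalarTower.of_algebraMap_eq fun a => (f.commutes a).symm
      let F₀ : M →ₐ[K] Ω := IsSepClosed.lift
      exact ⟨F₀.restrictScalars (RatFunc k), fun y => F₀.commutes y⟩
    change f y ∈ Mt
    rw [← hF]
    exact AlgHom.fieldRange_le_normalClosure F ⟨_, rfl⟩
  let κ : K₁ →ₐ[RatFunc k] Mt := IntermediateField.inclusion hle
  refine ⟨Mt, inferInstance, inferInstance, jX, uX, hMtf, hMtg, jk, uk, ι, κ α₀, hgd.map κ, ?_, ?_,
    ?_⟩
  · rw [minpoly.algHom_eq κ κ.toRingHom.injective]
  · intro g hg h y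
    -- the conjugate is in `K₁`
    let F : K →ₐ[RatFunc k] Ω :=
      (Mt.val.comp ((h : Mt →ₐ[RatFunc k] Mt).comp ι)).comp (IsScalarTower.toAlgHom (RatFunc k) K M)
    have hF : F y ∈ K₁ := AlgHom.fieldRange_le_normalClosure F ⟨y, rfl⟩
    have h1 : κ ⟨F y, hF⟩ = h (ι (algebraMap K M y)) := Subtype.ext rfl
    have h2 : ((g : Mt →ₐ[RatFunc k] Mt).comp κ) = κ := algHom_ext_gen hgen₀ hg
    rw [← h1]
    exact DFunLike.congr_fun h2 _
  · intro g hg
    exact gen_closure ι g hg

end Pool.Agent.SmBU
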