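import Pool.Agent.Lib.SmBU.Cst

/-!
SMITH-U, block B for general `K`: the mean value of the permutation character on the cosets of the
geometric Galois group, when `k` is algebraically closed in `K`.
-/

set_option autoImplicit false

namespace Pool.Agent.SmBU

open Module Polynomial Pool.Agent.SmB

section comp

variable {k : Type*} [Field k] [Finite k] {Mt : Type*} [Field Mt] [Algebra (RatFunc k) Mt]
  [Algebra k[X] Mt] [IsScalarTower k[X] (RatFunc k) Mt] [FiniteDimensional (RatFunc k) Mt]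
  [IsGalois (RatFunc k) Mt] [Algebra k Mt] [IsScalarTower k k[X] Mt]

/-- Every automorphism acts on the constants as a power of the Frobenius. -/
theorem exists_compN (g : Mt ≃ₐ[RatFunc k] Mt) : ∃ j : ℕ, CompN k j g := by
  classical
  have htw := tow_k (k := k) (Mt := Mt)
  let E := algebraicClosure k Mt
  have hEfin : Finite E := cst_finite
  have hEfd : FiniteDimensional k E := Module.Finite.of_finite
  have hgalE : IsGalois k E := inferInstance
  have := Fintype.ofFinite k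
  set r : E ≃ₐ[k] E := AlgEquiv.restrictNormalHom E (g.restrictScalars k) with hr
  have hrE : ∀ x : E, ((r x : E) : Mt) = g (x : Mt) := fun x =>
    AlgEquiv.restrictNormal_commutes (g.restrictScalars k) E x
  obtain ⟨n, hn⟩ := (FiniteField.bijective_frobeniusAlgEquivOfAlgebraic_pow k E).2 r
  refine ⟨n.1, fun x hx => ?_⟩
  have hxE : x ∈ E := mem_algebraicClosure_iff.2 hx.isAlgebraic
  have h1 := hrE ⟨x, hxE⟩
  rw [← h1, ← hn]
  have h2 : (FiniteField.frobeniusAlgEquivOfAlgebraic k E ^ n.1) (⟨x, hxE⟩ : E) =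
      (⟨x, hxE⟩ : E) ^ (Fintype.card k ^ n.1) := by
    rw [AlgEquiv.coe_pow, FiniteField.coe_frobeniusAlgEquivOfAlgebraic_iterate]
  rw [h2, Nat.card_eq_fintype_card]
  rfl

omit [Finite k] [FiniteDimensional (RatFunc k) Mt] [IsGalois (RatFunc k) Mt] in
theorem compN_conj {N : ℕ} {g τ : Mt ≃ₐ[RatFunc k] Mt} :
    CompN k N (g * τ * g⁻¹) ↔ CompN k N τ := by
  have h1 : ∀ (g τ : Mt ≃ₐ[RatFunc k] Mt), CompN k N τ → CompN k N (g * τ * g⁻¹) := by
    intro g τ hτ x hx
    have h2 : IsIntegral k (g⁻¹ x) := int_gal g⁻¹ hx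
    rw [AlgEquiv.mul_apply, AlgEquiv.mul_apply, hτ _ h2, map_pow, ← AlgEquiv.mul_apply,
      mul_inv_cancel, AlgEquiv.one_apply]
  refine ⟨fun h => ?_, h1 g τ⟩
  have h2 := h1 g⁻¹ _ h
  have h3 : g⁻¹ * (g * τ * g⁻¹) * g⁻¹⁻¹ = τ := by group
  rwa [h3] at h2

variable (k Mt) in
/-- The automorphisms trivial on the constants. -/
def G0 : Subgroup (Mt ≃ₐ[RatFunc k] Mt) where
  carrier := {g | CompN k 0 g}
  one_mem' := by
    rw [Set.mem_ofPred_eq, compN_zero]
    exact fun _ _ => rfl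
  mul_mem' := fun {a b} ha hb => by
    have h1 := compN_mul ha hb
    rwa [add_zero] at h1
  inv_mem' := fun {a} ha => by
    rw [Set.mem_ofPred_eq, compN_zero] at ha ⊢
    intro x hx
    conv_lhs => rw [← ha x hx]
    rw [← AlgEquiv.mul_apply, inv_mul_cancel, AlgEquiv.one_apply]

omit [Finite k] [FiniteDimensional (RatFunc k) Mt] [IsGalois (RatFunc k) Mt]
  [Algebra k[X] Mt] [IsScalarTower k[X] (RatFunc k) Mt] [IsScalarTower k k[X] Mt] in
theorem mem_G0 {g : Mt ≃ₐ[RatFunc k] Mt} : g ∈ G0 k Mt ↔ CompN k 0 g := Iff.rfl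

omit [Finite k] [FiniteDimensional (RatFunc k) Mt] [IsGalois (RatFunc k) Mt] in
theorem G0_normal : (G0 k Mt).Normal :=
  ⟨fun _ hn _ => mem_G0.2 (compN_conj.2 (mem_G0.1 hn))⟩

omit [Finite k] [FiniteDimensional (RatFunc k) Mt] [IsGalois (RatFunc k) Mt]
  [Algebra k[X] Mt] [IsScalarTower k[X] (RatFunc k) Mt] [IsScalarTower k k[X] Mt] in
/-- `CompN N` is a coset of `G0`. -/
theorem compN_iff {N : ℕ} {a g : Mt ≃ₐ[RatFunc k] Mt} (ha : CompN k N a) :
    CompN k N g ↔ a⁻¹ * g ∈ G0 k Mt := by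
  constructor
  · intro hg
    rw [mem_G0, compN_zero]
    intro x hx
    rw [AlgEquiv.mul_apply, hg x hx, ← ha x hx, ← AlgEquiv.mul_apply, inv_mul_cancel,
      AlgEquiv.one_apply]
  · intro hg
    have h1 := compN_mul ha (mem_G0.1 hg)
    rwa [add_zero, mul_inv_cancel_left] at h1

/-- Index computation. -/
theorem card_index {U : Subgroup (Mt ≃ₐ[RatFunc k] Mt)} {u₁ : Mt ≃ₐ[RatFunc k] Mt} (hu₁ : u₁ ∈ U)
    (h1 : CompN k 1 u₁) :
    Nat.card (Mt ≃ₐ[RatFunc k] Mt) * Nat.card ((G0 k Mt).subgroupOf U) =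
      Nat.card U * Nat.card (G0 k Mt) := by
  have hn : (G0 k Mt).Normal := G0_normal
  have htop : U ⊔ G0 k Mt = ⊤ := by
    rw [eq_top_iff]
    intro g _
    obtain ⟨j, hj⟩ := exists_compN g
    have h2 : CompN k j (u₁ ^ j) := compN_pow h1 j
    have h3 := (compN_iff h2).1 hj
    have h4 : g = u₁ ^ j * ((u₁ ^ j)⁻¹ * g) := by group
    rw [h4]
    exact Subgroup.mul_mem_sup (U.pow_mem hu₁ j) h3
  have h2 : (G0 k Mt).relIndex (U ⊔ G0 k Mt) = (G0 k Mt).relIndex U :=
    Subgroup.relIndex_sup_right U (G0 k Mt)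
  rw [htop, Subgroup.relIndex_top_right] at h2
  have h3 : Nat.card ((G0 k Mt).subgroupOf U) * ((G0 k Mt).subgroupOf U).index = Nat.card U :=
    Subgroup.card_mul_index _
  have h4 : Nat.card (G0 k Mt) * (G0 k Mt).index = Nat.card (Mt ≃ₐ[RatFunc k] Mt) :=
    Subgroup.card_mul_index _
  rw [← h4, h2, ← h3]
  unfold Subgroup.relIndex
  ring

open Classical in
theorem card_comp {U : Subgroup (Mt ≃ₐ[RatFunc k] Mt)} {u₁ : Mt ≃ₐ[RatFunc k] Mt} (hu₁ : u₁ ∈ U)
    (h1 : CompN k 1 u₁) (N : ℕ) :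
    Nat.card (Mt ≃ₐ[RatFunc k] Mt) * (Finset.univ.filter
      (fun τ : Mt ≃ₐ[RatFunc k] Mt => τ ∈ U ∧ CompN k N τ)).card =
      Nat.card U * (Finset.univ.filter (fun τ : Mt ≃ₐ[RatFunc k] Mt => CompN k N τ)).card := by
  have ha : CompN k N (u₁ ^ N) := compN_pow h1 N
  have haU : u₁ ^ N ∈ U := U.pow_mem hu₁ N
  have h2 : (Finset.univ.filter (fun τ : Mt ≃ₐ[RatFunc k] Mt => CompN k N τ)).card =
      Nat.card (G0 k Mt) := by
    rw [Nat.card_eq_fintype_card, Fintype.card_subtype]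
    refine Finset.card_bij (fun g _ => (u₁ ^ N)⁻¹ * g) ?_ ?_ ?_
    · intro g hg
      rw [Finset.mem_filter] at hg ⊢
      exact ⟨Finset.mem_univ _, (compN_iff ha).1 hg.2⟩
    · intro a _ b _ h
      exact mul_left_cancel h
    · intro g hg
      rw [Finset.mem_filter] at hg
      refine ⟨u₁ ^ N * g, ?_, by group⟩
      rw [Finset.mem_filter]
      refine ⟨Finset.mem_univ _, (compN_iff ha).2 ?_⟩
      rw [inv_mul_cancel_left]
      exact hg.2
  have h3 : (Finset.univ.filter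
      (fun τ : Mt ≃ₐ[RatFunc k] Mt => τ ∈ U ∧ CompN k N τ)).card =
      Nat.card ((G0 k Mt).subgroupOf U) := by
    rw [Nat.card_eq_fintype_card, Fintype.card_subtype]
    symm
    refine Finset.card_bij (fun g _ => u₁ ^ N * (g : Mt ≃ₐ[RatFunc k] Mt)) ?_ ?_ ?_
    · intro g hg
      rw [Finset.mem_filter, Subgroup.mem_subgroupOf] at hg
      rw [Finset.mem_filter]
      refine ⟨Finset.mem_univ _, U.mul_mem haU g.2, (compN_iff ha).2 ?_⟩
      rw [inv_mul_cancel_left]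
      exact hg.2
    · intro a _ b _ h
      exact Subtype.ext (mul_left_cancel h)
    · intro g hg
      rw [Finset.mem_filter] at hg
      refine ⟨⟨(u₁ ^ N)⁻¹ * g, U.mul_mem (U.inv_mem haU) hg.2.1⟩, ?_, by
        change u₁ ^ N * ((u₁ ^ N)⁻¹ * g) = g
        group⟩
      rw [Finset.mem_filter, Subgroup.mem_subgroupOf]
      exact ⟨Finset.mem_univ _, (compN_iff ha).1 hg.2.2⟩
  rw [h2, h3]
  exact card_index hu₁ h1

end comp

section mean

variable {k : Type*} [Field k] [Finite k]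
  {K : Type*} [Field K] [Algebra (RatFunc k) K]
  [Algebra k[X] K] [IsScalarTower k[X] (RatFunc k) K] [Algebra k K] [IsScalarTower k k[X] K]
  {Mt : Type*} [Field Mt] [Algebra (RatFunc k) Mt]
  [Algebra k[X] Mt] [IsScalarTower k[X] (RatFunc k) Mt] [FiniteDimensional (RatFunc k) Mt]
  [IsGalois (RatFunc k) Mt] [Algebra k Mt] [IsScalarTower k k[X] Mt]
  {ι : K →ₐ[RatFunc k] Mt}

omit [Finite k] [Algebra k[X] K] [IsScalarTower k[X] (RatFunc k) K] [Algebra k K]
  [IsScalarTower k k[X] K] [Algebra k[X] Mt] [IsScalarTower k[X] (RatFunc k) Mt]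
  [IsGalois (RatFunc k) Mt] [Algebra k Mt] [IsScalarTower k k[X] Mt] in
open Classical in
theorem indF_one_eq (res : UK K ι →* (K ≃ₐ[K] K)) (τ : Mt ≃ₐ[RatFunc k] Mt) :
    indF res (fun _ => 1) τ =
      ((Finset.univ.filter fun g : Mt ≃ₐ[RatFunc k] Mt => g * τ * g⁻¹ ∈ UK K ι).card : ℝ) := by
  unfold indF
  rw [Finset.card_eq_sum_ones, Finset.sum_filter]
  push_cast
  refine Finset.sum_congr rfl fun g _ => ?_
  by_cases h : g * τ * g⁻¹ ∈ UK K ι
  · rw [dif_pos h, if_pos h]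
  · rw [dif_neg h, if_neg h]

open Classical in
/-- The mean value of `indF res 1 - #U` on `CompN N` vanishes when `k` is algebraically closed in
`K`. -/
theorem sum_indF_one (hk : ∀ x : K, IsIntegral k x → ∃ c : k, algebraMap k K c = x)
    {res : UK K ι →* (K ≃ₐ[K] K)}
    (hres : ∀ (u : UK K ι) (x : K), ι (res u x) = (u : Mt ≃ₐ[RatFunc k] Mt) (ι x))
    (hsurj : Function.Surjective res) (N : ℕ) :
    ∑ τ ∈ Finset.univ.filter (fun τ : Mt ≃ₐ[RatFunc k] Mt => CompN k N τ),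
      (indF res (fun _ => 1) τ - Nat.card (UK K ι)) = 0 := by
  obtain ⟨u₁, -, hu₁⟩ := const_lift (N := 1) hres hsurj (τ := 1) (by
    intro x hx
    obtain ⟨c, rfl⟩ := hk x hx
    rw [AlgEquiv.one_apply, pow_one, ← map_pow]
    congr 1
    have := Fintype.ofFinite k
    rw [Nat.card_eq_fintype_card, FiniteField.pow_card])
  have h1 := card_comp (U := UK K ι) u₁.2 hu₁ N
  have h2 : ∑ τ ∈ Finset.univ.filter (fun τ : Mt ≃ₐ[RatFunc k] Mt => CompN k N τ),
      indF res (fun _ => 1) τ = (Nat.card (Mt ≃ₐ[RatFunc k] Mt) * (Finset.univ.filter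
      (fun τ : Mt ≃ₐ[RatFunc k] Mt => τ ∈ UK K ι ∧ CompN k N τ)).card : ℕ) := by
    have h3 : ∀ τ : Mt ≃ₐ[RatFunc k] Mt, indF res (fun _ => 1) τ =
        ∑ g : Mt ≃ₐ[RatFunc k] Mt, if g * τ * g⁻¹ ∈ UK K ι then (1 : ℝ) else 0 := by
      intro τ
      rw [indF_one_eq, Finset.card_eq_sum_ones, Finset.sum_filter]
      push_cast
      rfl
    rw [Finset.sum_congr rfl fun τ _ => h3 τ, Finset.sum_comm]
    have h4 : ∀ g : Mt ≃ₐ[RatFunc k] Mt,
        ∑ τ ∈ Finset.univ.filter (fun τ : Mt ≃ₐ[RatFunc k] Mt => CompN k N τ),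
          (if g * τ * g⁻¹ ∈ UK K ι then (1 : ℝ) else 0) = ((Finset.univ.filter
      (fun τ : Mt ≃ₐ[RatFunc k] Mt => τ ∈ UK K ι ∧ CompN k N τ)).card : ℝ) := by
      intro g
      rw [← Finset.sum_filter, Finset.filter_filter, Finset.sum_const, nsmul_eq_mul, mul_one]
      congr 1
      refine Finset.card_bij (fun τ _ => g * τ * g⁻¹) ?_ ?_ ?_
      · intro τ hτ
        rw [Finset.mem_filter] at hτ ⊢
        exact ⟨Finset.mem_univ _, hτ.2.2, compN_conj.2 hτ.2.1⟩
      · intro a _ b _ h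
        exact mul_left_cancel (mul_right_cancel h)
      · intro τ hτ
        rw [Finset.mem_filter] at hτ
        refine ⟨g⁻¹ * τ * g, ?_, by group⟩
        have h5 : g * (g⁻¹ * τ * g) * g⁻¹ = τ := by group
        rw [Finset.mem_filter, h5]
        refine ⟨Finset.mem_univ _, ?_, hτ.2.1⟩
        rw [← compN_conj (g := g), h5]
        exact hτ.2.2
    rw [Finset.sum_congr rfl fun g _ => h4 g, Finset.sum_const, nsmul_eq_mul, Finset.card_univ,
      ← Nat.card_eq_fintype_card]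
    push_cast
    rfl
  rw [Finset.sum_sub_distrib, h2, h1, Finset.sum_const, nsmul_eq_mul]
  push_cast
  ring

end mean

end Pool.Agent.SmBU
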