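import Pool.Agent.Lib.SmBU.KDefs
import Pool.Agent.Lib.SmB.P4Roots

/-!
SMITH-U, block B for general `K`: the primes of `AA k K` and their residue fields, the number of
monic irreducible polynomials of degree `d`.
-/

set_option autoImplicit false

namespace Pool.Agent.SmBU

open Module Polynomial Pool.Agent.SmB

theorem eq_of_span {k : Type*} [Field k] {P P' : k[X]} (h : P.Monic) (h' : P'.Monic)
    (he : Ideal.span {P} = Ideal.span {P'}) : P = P' :=
  eq_of_monic_of_associated h h' (Ideal.span_singleton_eq_span_singleton.mp he)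

theorem mul_card_irrF_le (k : Type*) [Field k] [Finite k] {d : ℕ} (hd : d ≠ 0) :
    d * (IrrF k d).card ≤ Nat.card k ^ d := by
  classical
  have h := sum_minpoly (k := k) (F := AlgebraicClosure k) hd fun _ => (1 : ℝ)
  rw [Finset.sum_const, Finset.sum_const, nsmul_eq_mul, nsmul_eq_mul, mul_one, mul_one] at h
  have h1 : d * (IrrF k d).card = ((FixF k (AlgebraicClosure k) d hd).filter
      fun c => (minpoly k c).natDegree = d).card := by
    exact_mod_cast h.symm
  rw [h1, ← card_fixF (k := k) (F := AlgebraicClosure k) hd]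
  exact Finset.card_le_card (Finset.filter_subset _ _)

theorem card_irrF_le (k : Type*) [Field k] [Finite k] (n : ℕ) :
    ∑ d ∈ Finset.range (n + 1), (IrrF k d).card ≤ 2 * Nat.card k ^ n := by
  have hq : 2 ≤ Nat.card k := Finite.one_lt_card
  have h0 : (IrrF k 0).card = 0 := by
    rw [Finset.card_eq_zero, Finset.eq_empty_iff_forall_notMem]
    intro P hP
    obtain ⟨-, h2, h3⟩ := mem_irrF.1 hP
    exact (h2.natDegree_pos).ne' h3
  have h1 : ∀ d, (IrrF k (d + 1)).card ≤ Nat.card k ^ (d + 1) := by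
    intro d
    exact (Nat.le_mul_of_pos_left _ (Nat.succ_pos d)).trans
      (mul_card_irrF_le k (Nat.succ_ne_zero d))
  induction n with
  | zero =>
    rw [Finset.sum_range_one, h0]
    exact Nat.zero_le _
  | succ n ih =>
    rw [Finset.sum_range_succ]
    have h2 := h1 n
    rw [pow_succ] at h2 ⊢
    nlinarith [Nat.mul_le_mul_left (Nat.card k ^ n) hq]

variable {k : Type*} [Field k] [Finite k] {K : Type*} [Field K] [Algebra (RatFunc k) K]
  [Algebra k[X] K] [IsScalarTower k[X] (RatFunc k) K] [FiniteDimensional (RatFunc k) K]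
  [Algebra.IsSeparable (RatFunc k) K]

omit [Finite k] [FiniteDimensional (RatFunc k) K] [Algebra.IsSeparable (RatFunc k) K] in
private theorem Quo_inj : Function.Injective (algebraMap k[X] (AA k K)) := by
  intro x y h
  have h1 : algebraMap k[X] K x = algebraMap k[X] K y := congrArg Subtype.val h
  rw [IsScalarTower.algebraMap_apply k[X] (RatFunc k) K,
    IsScalarTower.algebraMap_apply k[X] (RatFunc k) K] at h1
  exact IsFractionRing.injective k[X] (RatFunc k) ((algebraMap (RatFunc k) K).injective h1)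

omit [Finite k] [FiniteDimensional (RatFunc k) K] [Algebra.IsSeparable (RatFunc k) K] in
theorem ne_bot_of {v : Ideal (AA k K)} {P : k[X]} (hP : Irreducible P)
    (hvP : v.comap (algebraMap k[X] (AA k K)) = Ideal.span {P}) : v ≠ ⊥ := by
  rintro rfl
  have h1 : P ∈ Ideal.comap (algebraMap k[X] (AA k K)) ⊥ := by
    rw [hvP]
    exact Ideal.mem_span_singleton_self P
  rw [Ideal.mem_comap, Ideal.mem_bot] at h1
  exact hP.ne_zero (Quo_inj (h1.trans (map_zero _).symm))

omit [Finite k] [FiniteDimensional (RatFunc k) K] [Algebra.IsSeparable (RatFunc k) K]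
  [Algebra (RatFunc k) K] [IsScalarTower k[X] (RatFunc k) K] in
theorem exists_below {v : Ideal (AA k K)} (hv : v.IsPrime) (h0 : v ≠ ⊥) :
    ∃ P : k[X], P.Monic ∧ Irreducible P ∧
      v.comap (algebraMap k[X] (AA k K)) = Ideal.span {P} := by
  have h1 : v.comap (algebraMap k[X] (AA k K)) ≠ ⊥ := by
    obtain ⟨x, hx, hx0⟩ := Submodule.exists_mem_ne_zero_of_ne_bot h0
    exact Ideal.comap_ne_bot_of_integral_mem hx0 hx (Algebra.IsIntegral.isIntegral x)
  have h2 : (v.comap (algebraMap k[X] (AA k K))).IsPrime := Ideal.comap_isPrime _ _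
  obtain ⟨p, hp⟩ := (IsPrincipalIdealRing.principal (v.comap (algebraMap k[X] (AA k K)))).principal
  have hp' : v.comap (algebraMap k[X] (AA k K)) = Ideal.span {p} := hp
  have hp0 : p ≠ 0 := by
    rintro rfl
    apply h1
    rw [hp', Ideal.span_singleton_eq_bot]
  rw [hp'] at h2
  have hpp : Prime p := (Ideal.span_singleton_prime hp0).mp h2
  refine ⟨p * C p.leadingCoeff⁻¹, monic_mul_leadingCoeff_inv hp0, ?_, ?_⟩
  · exact (irreducible_mul_leadingCoeff_inv).mpr hpp.irreducible
  · rw [hp']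
    apply Ideal.span_singleton_eq_span_singleton.mpr
    refine (associated_mul_isUnit_right_iff ?_).mpr (Associated.refl _)
    exact isUnit_C.mpr (isUnit_iff_ne_zero.mpr (inv_ne_zero (leadingCoeff_ne_zero.mpr hp0)))

theorem card_quot' {v : Ideal (AA k K)} (hv : v.IsPrime) {P : k[X]} (hP : Irreducible P)
    (hvP : v.comap (algebraMap k[X] (AA k K)) = Ideal.span {P}) :
    ∃ r, 1 ≤ r ∧ r ≤ finrank (RatFunc k) K ∧
      Nat.card (AA k K ⧸ v) = Nat.card k ^ (P.natDegree * r) ∧ dgK k v = P.natDegree * r := by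
  have hmax : (Ideal.span {P} : Ideal k[X]).IsMaximal :=
    PrincipalIdealRing.isMaximal_of_irreducible hP
  let _ : Field (k[X] ⧸ (Ideal.span {P} : Ideal k[X])) := Ideal.Quotient.field _
  have hov : v.LiesOver (Ideal.span {P} : Ideal k[X]) := ⟨hvP.symm⟩
  have htf : IsTorsionFree k[X] K := .trans_faithfulSMul k[X] (RatFunc k) K
  have hfin : Module.Finite k[X] (AA k K) := IsIntegralClosure.finite k[X] (RatFunc k) K (AA k K)
  have hfree : Module.Free k[X] (AA k K) :=
    IsIntegralClosure.module_free k[X] (RatFunc k) K (AA k K)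
  have hrk : finrank k[X] (AA k K) = finrank (RatFunc k) K :=
    IsIntegralClosure.rank k[X] (RatFunc k) K (AA k K)
  let b := Module.finBasis k[X] (AA k K)
  have hspan : Submodule.span (k[X] ⧸ (Ideal.span {P} : Ideal k[X]))
      (Set.range fun i => (Ideal.Quotient.mk v (b i) : AA k K ⧸ v)) = ⊤ := by
    rw [eq_top_iff]
    rintro x -
    obtain ⟨x, rfl⟩ := Ideal.Quotient.mk_surjective x
    rw [← b.sum_repr x, map_sum]
    refine Submodule.sum_mem _ fun i _ => ?_
    have h1 : (Ideal.Quotient.mk v (b.repr x i • b i) : AA k K ⧸ v) =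
        (Ideal.Quotient.mk (Ideal.span {P} : Ideal k[X]) (b.repr x i)) •
          (Ideal.Quotient.mk v (b i) : AA k K ⧸ v) := by
      rw [Algebra.smul_def, Algebra.smul_def, map_mul]
      rfl
    rw [h1]
    exact Submodule.smul_mem _ _ (Submodule.subset_span ⟨i, rfl⟩)
  have hfinq : Module.Finite (k[X] ⧸ (Ideal.span {P} : Ideal k[X])) (AA k K ⧸ v) :=
    ⟨Submodule.fg_def.mpr ⟨_, Set.finite_range _, hspan⟩⟩
  have hnt : Nontrivial (AA k K ⧸ v) := Ideal.Quotient.nontrivial_iff.mpr hv.ne_top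
  have hfk : Module.Finite k (k[X] ⧸ (Ideal.span {P} : Ideal k[X])) :=
    (AdjoinRoot.powerBasis hP.ne_zero).finite
  have hcardP : Nat.card (k[X] ⧸ (Ideal.span {P} : Ideal k[X])) = Nat.card k ^ P.natDegree := by
    rw [Module.natCard_eq_pow_finrank (K := k)
      (V := k[X] ⧸ (Ideal.span {P} : Ideal k[X])), finrank_quotient_span_eq_natDegree]
  have hcard : Nat.card (AA k K ⧸ v) = Nat.card k ^ (P.natDegree *
      finrank (k[X] ⧸ (Ideal.span {P} : Ideal k[X])) (AA k K ⧸ v)) := by
    rw [Module.natCard_eq_pow_finrank (K := k[X] ⧸ (Ideal.span {P} : Ideal k[X]))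
      (V := AA k K ⧸ v), hcardP, ← pow_mul]
  refine ⟨finrank (k[X] ⧸ (Ideal.span {P} : Ideal k[X])) (AA k K ⧸ v), ?_, ?_, hcard, ?_⟩
  · exact Module.finrank_pos
  · rw [← hrk]
    have h1 := finrank_range_le_card (R := k[X] ⧸ (Ideal.span {P} : Ideal k[X]))
      (fun i => (Ideal.Quotient.mk v (b i) : AA k K ⧸ v))
    rw [Set.finrank, hspan, finrank_top, Fintype.card_fin] at h1
    exact h1
  · rw [dgK, hcard, Nat.log_pow (Finite.one_lt_card)]

theorem card_quot {v : Ideal (AA k K)} (hv : v.IsPrime) {P : k[X]} (hP : Irreducible P)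
    (hvP : v.comap (algebraMap k[X] (AA k K)) = Ideal.span {P}) :
    ∃ r, 1 ≤ r ∧ Nat.card (AA k K ⧸ v) = Nat.card k ^ (P.natDegree * r) ∧
      dgK k v = P.natDegree * r := by
  obtain ⟨r, h1, -, h3, h4⟩ := card_quot' hv hP hvP
  exact ⟨r, h1, h3, h4⟩

end Pool.Agent.SmBU
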