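import Pool.Agent.Lib.SmBU.Above
import Pool.Agent.Lib.SmBU.AboveF
import Pool.Agent.Lib.SmBU.Quo
import Pool.Agent.Lib.SmBU.PntA
import Pool.Agent.Lib.SmBU.Clo
import Pool.Agent.Lib.SmB.P4Roots

/-!
SMITH-U, block B for general `K`: the prime number theorem with square root error term for the
primes of a finite separable extension `K / k(t)` in which `k` is algebraically closed.
-/

set_option autoImplicit false

namespace Pool.Agent.SmBU

open Module Polynomial Pool.Agent.SmB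

section irr

variable (k : Type*) [Field k] [Finite k]

/-- The number of monic irreducible polynomials of degree `N`. -/
theorem abs_mul_card_irrF_sub {N : ℕ} (hN : N ≠ 0) :
    |(N : ℝ) * (IrrF k N).card - (Nat.card k : ℝ) ^ N| ≤ 2 * (Nat.card k : ℝ) ^ (N / 2) := by
  have h1 := sum_minpoly (k := k) (F := AlgebraicClosure k) hN (fun _ => 1)
  rw [Finset.sum_const, Finset.sum_const, nsmul_eq_mul, nsmul_eq_mul, mul_one, mul_one] at h1
  have h2 := card_fixF (k := k) (F := AlgebraicClosure k) hN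
  have h3 := card_small (k := k) (F := AlgebraicClosure k) hN
  have h4 := Finset.card_filter_add_card_filter_not (s := FixF k (AlgebraicClosure k) N hN)
    (fun c => (minpoly k c).natDegree = N)
  have h5 : (((FixF k (AlgebraicClosure k) N hN).filter fun c =>
      (minpoly k c).natDegree = N).card : ℝ) + (((FixF k (AlgebraicClosure k) N hN).filter
      fun c => ¬ (minpoly k c).natDegree = N).card : ℝ) = (Nat.card k : ℝ) ^ N := by
    rw [h2] at h4
    exact_mod_cast h4
  have h6 : (((FixF k (AlgebraicClosure k) N hN).filter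
      fun c => ¬ (minpoly k c).natDegree = N).card : ℝ) ≤ 2 * (Nat.card k : ℝ) ^ (N / 2) := by
    exact_mod_cast h3
  rw [← h1, ← h5, abs_le]
  have h7 : (0 : ℝ) ≤ (((FixF k (AlgebraicClosure k) N hN).filter
      fun c => ¬ (minpoly k c).natDegree = N).card : ℝ) := Nat.cast_nonneg _
  constructor <;> linarith

theorem sum_pow_le (n : ℕ) : ∑ d ∈ Finset.range (n + 1), (Nat.card k) ^ d ≤ 2 * (Nat.card k) ^ n := by
  have hq : 2 ≤ Nat.card k := Finite.one_lt_card
  induction n with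
  | zero => simp
  | succ n ih =>
    rw [Finset.sum_range_succ, pow_succ]
    have h1 : 2 * (Nat.card k) ^ n ≤ (Nat.card k) ^ n * Nat.card k := by
      rw [mul_comm]
      exact Nat.mul_le_mul_left _ hq
    omega

theorem sum_deg_irrF_le [DecidableEq k[X]] (n : ℕ) :
    ∑ P ∈ (Finset.range (n + 1)).biUnion (fun d => IrrF k d), P.natDegree ≤
      2 * (Nat.card k) ^ n := by
  refine le_trans ?_ (sum_pow_le k n)
  rw [Finset.sum_biUnion (fun a _ b _ hab => by
    rw [Function.onFun, Finset.disjoint_left]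
    intro P h1 h2
    exact hab ((mem_irrF.1 h1).2.2.symm.trans (mem_irrF.1 h2).2.2))]
  refine Finset.sum_le_sum fun d _ => ?_
  rw [Finset.sum_congr rfl fun P hP => (mem_irrF.1 hP).2.2, Finset.sum_const, smul_eq_mul,
    mul_comm]
  rcases Nat.eq_zero_or_pos d with rfl | hd
  · rw [zero_mul]
    exact Nat.zero_le _
  · exact mul_card_irrF_le k hd.ne'

end irr

section count

variable {k : Type} [Field k] [Finite k]
  {K : Type} [Field K] [Algebra (RatFunc k) K] [Algebra k[X] K] [IsScalarTower k[X] (RatFunc k) K]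
  [FiniteDimensional (RatFunc k) K] [Algebra.IsSeparable (RatFunc k) K]

/-- The number (weighted by `N`) of primes of degree `N` above a polynomial in `B` or of degree
different from `N`. -/
theorem mul_card_rest_le {N : ℕ} (S : Finset (Ideal (AA k K))) (hS : ∀ v ∈ S, v ∈ PrK k K N)
    (B : Finset k[X])
    (hSB : ∀ v ∈ S, ∀ P : k[X], P.Monic → Irreducible P →
      v.comap (algebraMap k[X] (AA k K)) = Ideal.span {P} → P.natDegree = N → P ∈ B) :
    N * S.card ≤ (finrank (RatFunc k) K) ^ 2 *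
      (∑ P ∈ B, P.natDegree + 2 * (Nat.card k) ^ (N / 2)) := by
  classical
  have hq : 1 < Nat.card k := Finite.one_lt_card
  have hdec : ∀ v : Ideal (AA k K), v ∈ S → ∃ P : k[X], P.Monic ∧ Irreducible P ∧
      v.comap (algebraMap k[X] (AA k K)) = Ideal.span {P} := fun v hv =>
    exists_below (hS v hv).1 (hS v hv).2.1
  choose! P hPm hPi hPv using hdec
  set m := finrank (RatFunc k) K with hm
  have hdeg : ∀ v ∈ S, ∃ r, 1 ≤ r ∧ r ≤ m ∧ N = (P v).natDegree * r := by
    intro v hv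
    obtain ⟨r, hr1, hrm, hr2, -⟩ := card_quot' (hS v hv).1 (hPi v hv) (hPv v hv)
    rw [(hS v hv).2.2] at hr2
    exact ⟨r, hr1, hrm, Nat.pow_right_injective hq hr2⟩
  set B₀ : Finset k[X] := (Finset.range (N / 2 + 1)).biUnion fun d => IrrF k d with hB₀
  set B' : Finset k[X] := B ∪ B₀ with hB'
  have hmap : ∀ v ∈ S, P v ∈ B' := by
    intro v hv
    by_cases hd : (P v).natDegree = N
    · exact Finset.mem_union_left _ (hSB v hv _ (hPm v hv) (hPi v hv) (hPv v hv) hd)
    · apply Finset.mem_union_right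
      rw [hB₀, Finset.mem_biUnion]
      refine ⟨(P v).natDegree, ?_, mem_irrF.2 ⟨hPm v hv, hPi v hv, rfl⟩⟩
      obtain ⟨r, hr1, -, hr3⟩ := hdeg v hv
      rw [Finset.mem_range]
      have hr4 : 2 ≤ r := by
        by_contra h
        have : r = 1 := by omega
        rw [this, mul_one] at hr3
        exact hd hr3.symm
      have hr5 : (P v).natDegree * 2 ≤ N := by
        rw [hr3]
        exact Nat.mul_le_mul_left _ hr4
      omega
  have hsum : ∑ Q ∈ B', Q.natDegree ≤ ∑ Q ∈ B, Q.natDegree + 2 * (Nat.card k) ^ (N / 2) := by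
    have h1 := Finset.sum_union_inter (s₁ := B) (s₂ := B₀) (f := fun P : k[X] => P.natDegree)
    have h2 := sum_deg_irrF_le k (N / 2)
    rw [← hB₀] at h2
    rw [hB']
    omega
  have hfib : ∀ Q ∈ B', N * (S.filter fun v => P v = Q).card ≤ m ^ 2 * Q.natDegree := by
    intro Q _
    by_cases hne : (S.filter fun v => P v = Q).Nonempty
    · obtain ⟨v₀, hv₀⟩ := hne
      rw [Finset.mem_filter] at hv₀
      have hQ : Irreducible Q := hv₀.2 ▸ hPi v₀ hv₀.1
      obtain ⟨h1, h2⟩ := finite_above (K := K) hQ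
      have h3 : (S.filter fun v => P v = Q).card ≤ m := by
        refine le_trans ?_ h2
        rw [← Set.ncard_coe_finset]
        refine Set.ncard_le_ncard ?_ h1
        intro v hv
        have hv' : v ∈ S.filter fun v => P v = Q := hv
        rw [Finset.mem_filter] at hv'
        exact ⟨(hS v hv'.1).1, hv'.2 ▸ hPv v hv'.1⟩
      obtain ⟨r, hr1, hrm, hr3⟩ := hdeg v₀ hv₀.1
      rw [hv₀.2] at hr3
      calc N * (S.filter fun v => P v = Q).card ≤ (Q.natDegree * m) * m := by
            refine Nat.mul_le_mul ?_ h3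
            rw [hr3]
            exact Nat.mul_le_mul_left _ hrm
        _ = m ^ 2 * Q.natDegree := by ring
    · rw [Finset.not_nonempty_iff_eq_empty] at hne
      rw [hne, Finset.card_empty, mul_zero]
      exact Nat.zero_le _
  rw [Finset.card_eq_sum_card_fiberwise hmap, Finset.mul_sum]
  refine (Finset.sum_le_sum hfib).trans ?_
  rw [← Finset.mul_sum]
  exact Nat.mul_le_mul_left _ hsum

/-- There are finitely many primes of degree `N`. -/
theorem prK_finite (N : ℕ) : (PrK k K N).Finite := by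
  classical
  have hq : 1 < Nat.card k := Finite.one_lt_card
  have h1 : PrK k K N ⊆ ⋃ P ∈ ((Finset.range (N + 1)).biUnion fun d => IrrF k d),
      {v : Ideal (AA k K) | Irreducible P ∧ v.IsPrime ∧
        v.comap (algebraMap k[X] (AA k K)) = Ideal.span {P}} := by
    intro v hv
    obtain ⟨P, hPm, hPi, hPv⟩ := exists_below hv.1 hv.2.1
    obtain ⟨r, hr1, hr2, -⟩ := card_quot hv.1 hPi hPv
    rw [hv.2.2] at hr2
    have hr3 : N = P.natDegree * r := Nat.pow_right_injective hq hr2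
    rw [Set.mem_iUnion₂]
    refine ⟨P, ?_, hPi, hv.1, hPv⟩
    rw [Finset.mem_biUnion]
    refine ⟨P.natDegree, ?_, mem_irrF.2 ⟨hPm, hPi, rfl⟩⟩
    rw [Finset.mem_range, hr3, Nat.lt_succ_iff]
    exact Nat.le_mul_of_pos_right _ hr1
  refine Set.Finite.subset (Set.Finite.biUnion (Finset.finite_toSet _) fun P hP => ?_) h1
  by_cases hPi : Irreducible P
  · exact (finite_above (K := K) hPi).1.subset fun v hv => hv.2
  · have h2 : {v : Ideal (AA k K) | Irreducible P ∧ v.IsPrime ∧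
        v.comap (algebraMap k[X] (AA k K)) = Ideal.span {P}} = ∅ := by
      rw [Set.eq_empty_iff_forall_notMem]
      intro v hv
      exact hPi hv.1
    rw [h2]
    exact Set.finite_empty

end count

private theorem pnt_num {n u d e m : ℕ} {W Y R t g i x A Q : ℝ} (hn1 : 1 ≤ n) (hu1 : 1 ≤ u)
    (hW1 : 1 ≤ W) (hR : R ≤ W) (hY0 : 0 ≤ Y)
    (hB1 : (u : ℝ) / n * Y ≤ 11 * (n : ℝ) ^ 3 * ((d : ℝ) + ((d + e : ℕ) : ℝ) + 1) * W)
    (hY : |t - g| ≤ Y) (hgi : |g - i| ≤ d) (hi : |i - Q| ≤ 2 * R)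
    (hx0 : 0 ≤ x) (hx : x ≤ m ^ 2 * (d + 2 * R)) (hA : A = t + x) :
    |A - Q| ≤ ((11 * n ^ 4 * (2 * d + e + 1) + d + 2 + m ^ 2 * (d + 2) : ℕ) : ℝ) * W := by
  have hW0 : 0 ≤ W := zero_le_one.trans hW1
  have hnR : (0 : ℝ) < n := by exact_mod_cast hn1
  have hu1 : (1 : ℝ) ≤ (u : ℝ) := by exact_mod_cast hu1
  have hd0 : (0 : ℝ) ≤ (d : ℝ) := Nat.cast_nonneg _
  have hm0 : (0 : ℝ) ≤ (m : ℝ) ^ 2 := by positivity
  have hY1 : Y ≤ 11 * (n : ℝ) ^ 4 * (2 * d + e + 1) * W := by
    have h1 : Y ≤ (u : ℝ) * Y := by nlinarith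
    have h2 : (u : ℝ) / n * Y = (u : ℝ) * Y / n := by ring
    rw [h2, div_le_iff₀ hnR] at hB1
    refine h1.trans (hB1.trans (le_of_eq ?_))
    push_cast
    ring
  have h2 : x ≤ (m : ℝ) ^ 2 * (d + 2) * W := by
    refine hx.trans ?_
    rw [mul_assoc]
    refine mul_le_mul_of_nonneg_left ?_ hm0
    nlinarith
  have h3 : (d : ℝ) ≤ d * W := le_mul_of_one_le_right hd0 hW1
  have h4 : |A - Q| ≤ |t - g| + |g - i| + |i - Q| + |x| := by
    have h5 : A - Q = (t - g) + (g - i) + (i - Q) + x := by rw [hA]; ring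
    rw [h5]
    have h6 := abs_add_le ((t - g) + (g - i) + (i - Q)) x
    have h7 := abs_add_le ((t - g) + (g - i)) (i - Q)
    have h8 := abs_add_le (t - g) (g - i)
    linarith
  rw [abs_of_nonneg hx0] at h4
  have h5 : |A - Q| ≤ 11 * (n : ℝ) ^ 4 * (2 * d + e + 1) * W + d * W + 2 * W +
      (m : ℝ) ^ 2 * (d + 2) * W := by linarith
  refine h5.trans (le_of_eq ?_)
  push_cast
  ring

open Classical in
/-- **The prime number theorem with square root error term** for a function field `K` with field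
of constants `k`. -/
theorem pnt_fin (k : Type) [Field k] [Finite k] (K : Type) [Field K] [Algebra (RatFunc k) K]
    [Algebra k[X] K] [IsScalarTower k[X] (RatFunc k) K]
    [FiniteDimensional (RatFunc k) K] [Algebra.IsSeparable (RatFunc k) K]
    [Algebra k K] [IsScalarTower k k[X] K]
    (hk : ∀ x : K, IsIntegral k x → ∃ c : k, algebraMap k K c = x) :
    ∃ C : ℕ, ∀ N : ℕ, N ≠ 0 → ∀ S : Finset (Ideal (AA k K)), (∀ v, v ∈ S ↔ v ∈ PrK k K N) →
      |(N : ℝ) * S.card - (Nat.card k : ℝ) ^ N| ≤ C * √((Nat.card k : ℝ) ^ (N + 1)) := by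
  obtain ⟨c₁, c, e, δ, hclo⟩ := exists_closure k K
  obtain ⟨Mt, _, _, _, _, _, _, _, _, ι, α, hg, hα, hc, hgen⟩ := hclo K
  obtain ⟨res, hres, hsurj⟩ := exists_res (k := k) (K := K) (M := K) (Mt := Mt) (ι := ι)
  have hstab : ((Nat.card (stabE (RatFunc k) α) : ℕ) : k) ≠ 0 := by
    refine card_stab hc hgen ?_
    rw [Module.finrank_self, Nat.cast_one]
    exact one_ne_zero
  set m := finrank (RatFunc k) K with hm
  set n := finrank (RatFunc k) Mt with hndef
  have hn1 : 1 ≤ n := finrank_pos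
  have hnR : (0 : ℝ) < n := by exact_mod_cast hn1
  set u : ℕ := Nat.card (UK K ι) with hu
  have hu1 : 1 ≤ u := Nat.card_pos
  refine ⟨11 * n ^ 4 * (2 * δ.natDegree + e + 1) + δ.natDegree + 2 + m ^ 2 * (δ.natDegree + 2), ?_⟩
  intro N hN S hS
  -- the bad polynomials
  set Bad' : Finset k[X] :=
    (UniqueFactorizationMonoid.normalizedFactors δ).toFinset with hBad'
  have hBadi : ∀ P ∈ Bad', Irreducible P := by
    intro P hP
    rw [hBad', Multiset.mem_toFinset,
      UniqueFactorizationMonoid.mem_normalizedFactors_iff' hg.ne] at hP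
    exact hP.1
  have hdegBad' : ∑ P ∈ Bad', P.natDegree ≤ δ.natDegree := by
    rw [← natDegree_prod _ _ fun P hP => (hBadi P hP).ne_zero]
    refine natDegree_le_of_dvd ?_ hg.ne
    have h1 : ∏ P ∈ Bad', P = (UniqueFactorizationMonoid.normalizedFactors δ).dedup.prod := by
      rw [hBad', Finset.prod, Multiset.map_id']
      rfl
    rw [h1]
    refine (Multiset.prod_dvd_prod_of_le (Multiset.dedup_le _)).trans ?_
    exact (UniqueFactorizationMonoid.prod_normalizedFactors hg.ne).dvd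
  have hBad'U : ∀ P : k[X], P.Monic → Irreducible P → P ∉ Bad' → UnramM Mt P := by
    intro P hPm hPi hPB
    have hPδ : ¬ P ∣ δ := by
      intro hd
      apply hPB
      rw [hBad', Multiset.mem_toFinset]
      rw [UniqueFactorizationMonoid.mem_normalizedFactors_iff' hg.ne]
      exact ⟨hPi, hPm.normalize_eq_self, hd⟩
    refine unramM_of hg hc hgen hPδ fun v _ _ I _ _ σ _ => ?_
    refine AlgEquiv.ext fun x => ?_
    exact σ.commutes x
  -- Frobenius elements of the polynomials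
  have hfrex : ∀ P : k[X], ∃ φ : Mt ≃ₐ[RatFunc k] Mt, P ∈ GoodF k Mt N → FrobM P φ := by
    intro P
    by_cases hP : P ∈ GoodF k Mt N
    · obtain ⟨φ, hφ⟩ := frob_exists (k := k) (M := Mt) (mem_irrF.1 (mem_goodF.1 hP).1).2.1
      exact ⟨φ, fun _ => hφ⟩
    · exact ⟨1, fun h => absurd h hP⟩
  choose fr' hfr' using hfrex
  -- the bound over `k(t)`
  have hun : (u : ℝ) ≤ n := by
    have h1 : u ≤ Nat.card (Mt ≃ₐ[RatFunc k] Mt) := Subgroup.card_le_card_group _
    rw [IsGalois.card_aut_eq_finrank] at h1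
    exact_mod_cast h1
  have hind0 : ∀ τ : Mt ≃ₐ[RatFunc k] Mt, 0 ≤ indF res (fun _ => 1) τ := by
    intro τ
    rw [indF_one_eq]
    exact Nat.cast_nonneg _
  have hind1 : ∀ τ : Mt ≃ₐ[RatFunc k] Mt, indF res (fun _ => 1) τ ≤ n := by
    intro τ
    refine (le_abs_self _).trans (abs_indF_le (fun _ => ?_) τ)
    rw [abs_one]
  have hB1 := B1_gen' (k := k) (M := Mt) hg hstab Bad' hBad'U hN
    (f := fun τ => (indF res (fun _ => 1) τ - u) / n)
    (fun g τ => by simp only [indF_conj])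
    (fun τ => by
      rw [abs_div, Nat.abs_cast, div_le_one hnR, abs_le]
      have h1 := hind0 τ
      have h2 := hind1 τ
      have h3 : (0 : ℝ) ≤ u := Nat.cast_nonneg _
      constructor <;> linarith)
    (by
      rw [← Finset.sum_div, sum_indF_one hk hres hsurj N, zero_div])
    hfr'
  -- the primes of degree `N` above the good polynomials
  have hfinP : ∀ P : k[X], Irreducible P → ∃ T : Finset (Ideal (AA k K)),
      ∀ v, v ∈ T ↔ v ∈ PrK k K N ∧ v.comap (algebraMap k[X] (AA k K)) = Ideal.span {P} := by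
    intro P hP
    obtain ⟨h1, -⟩ := finite_above (K := K) hP
    have h2 : {v : Ideal (AA k K) | v ∈ PrK k K N ∧
        v.comap (algebraMap k[X] (AA k K)) = Ideal.span {P}}.Finite :=
      h1.subset fun v hv => ⟨hv.1.1, hv.2⟩
    exact ⟨h2.toFinset, fun v => by rw [Set.Finite.mem_toFinset]; rfl⟩
  have hTex : ∀ P : k[X], ∃ T : Finset (Ideal (AA k K)), P ∈ GoodF k Mt N →
      ∀ v, v ∈ T ↔ v ∈ PrK k K N ∧ v.comap (algebraMap k[X] (AA k K)) = Ideal.span {P} := by
    intro P
    by_cases hP : P ∈ GoodF k Mt N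
    · obtain ⟨T, hT⟩ := hfinP P (mem_irrF.1 (mem_goodF.1 hP).1).2.1
      exact ⟨T, fun _ => hT⟩
    · exact ⟨∅, fun h => absurd h hP⟩
  choose TP hTP using hTex
  have hcardT : ∀ P ∈ GoodF k Mt N, indF res (fun _ => 1) (fr' P) = u * (TP P).card := by
    intro P hP
    have hP' := mem_goodF.1 hP
    have hP'' := mem_irrF.1 hP'.1
    obtain ⟨ρ, -, h2⟩ := sum_above hres hP''.1 hP''.2.1 hP''.2.2 hP'.2 (hfr' P hP)
      (f := fun _ => 1) (fun _ _ => rfl) (hTP P hP)
    rw [h2, Finset.sum_const, nsmul_eq_mul, mul_one]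
  -- the union
  set T : Finset (Ideal (AA k K)) := (GoodF k Mt N).biUnion TP with hT
  have hdisj : ∀ P ∈ GoodF k Mt N, ∀ P' ∈ GoodF k Mt N, P ≠ P' → Disjoint (TP P) (TP P') := by
    intro P hP P' hP' hne
    rw [Finset.disjoint_left]
    intro v hv hv'
    apply hne
    have h1 := ((hTP P hP v).1 hv).2
    have h2 := ((hTP P' hP' v).1 hv').2
    exact eq_of_span (mem_irrF.1 (mem_goodF.1 hP).1).1 (mem_irrF.1 (mem_goodF.1 hP').1).1
      (h1.symm.trans h2)
  have hTcard : T.card = ∑ P ∈ GoodF k Mt N, (TP P).card := by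
    rw [hT, Finset.card_biUnion hdisj]
  have hTS : T ⊆ S := by
    intro v hv
    rw [hT, Finset.mem_biUnion] at hv
    obtain ⟨P, hP, hvP⟩ := hv
    exact (hS v).2 ((hTP P hP v).1 hvP).1
  have hsumG : ∑ P ∈ GoodF k Mt N, (indF res (fun _ => 1) (fr' P) - u) / (n : ℝ) =
      (u : ℝ) / n * ((T.card : ℝ) - (GoodF k Mt N).card) := by
    have h1 : (T.card : ℝ) - (GoodF k Mt N).card =
        ∑ P ∈ GoodF k Mt N, (((TP P).card : ℝ) - 1) := by
      rw [Finset.sum_sub_distrib, Finset.sum_const, nsmul_eq_mul, mul_one, hTcard]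
      push_cast
      rfl
    rw [h1, Finset.mul_sum]
    refine Finset.sum_congr rfl fun P hP => ?_
    rw [hcardT P hP]
    ring
  rw [hsumG, abs_mul, abs_of_nonneg (by positivity : (0 : ℝ) ≤ (u : ℝ) / n)] at hB1
  have hN0 : (0 : ℝ) ≤ N := Nat.cast_nonneg _
  -- the rest
  have hST : N * (S \ T).card ≤ m ^ 2 * (∑ P ∈ Bad', P.natDegree + 2 * (Nat.card k) ^ (N / 2)) := by
    refine mul_card_rest_le (S \ T) (fun v hv => (hS v).1 (Finset.mem_sdiff.1 hv).1) Bad' ?_
    intro v hv P hPm hPi hvP hPN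
    by_contra hPB
    have hP : P ∈ GoodF k Mt N := mem_goodF.2 ⟨mem_irrF.2 ⟨hPm, hPi, hPN⟩, hBad'U P hPm hPi hPB⟩
    apply (Finset.mem_sdiff.1 hv).2
    rw [hT, Finset.mem_biUnion]
    exact ⟨P, hP, (hTP P hP v).2 ⟨(hS v).1 (Finset.mem_sdiff.1 hv).1, hvP⟩⟩
  have hGI : GoodF k Mt N ⊆ IrrF k N := fun P hP => (mem_goodF.1 hP).1
  have hIG : N * (IrrF k N \ GoodF k Mt N).card ≤ δ.natDegree := by
    refine le_trans ?_ hdegBad'
    have h1 : IrrF k N \ GoodF k Mt N ⊆ Bad' := by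
      intro P hP
      rw [Finset.mem_sdiff] at hP
      have h2 := mem_irrF.1 hP.1
      by_contra hPB
      exact hP.2 (mem_goodF.2 ⟨hP.1, hBad'U P h2.1 h2.2.1 hPB⟩)
    calc N * (IrrF k N \ GoodF k Mt N).card = ∑ P ∈ IrrF k N \ GoodF k Mt N, P.natDegree := by
          rw [Finset.sum_congr rfl fun P hP => (mem_irrF.1 (Finset.mem_sdiff.1 hP).1).2.2,
            Finset.sum_const, smul_eq_mul, mul_comm]
      _ ≤ _ := Finset.sum_le_sum_of_subset h1
  -- numerics
  set q : ℝ := (Nat.card k : ℝ) with hq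
  have hq1 : 1 ≤ q := by
    have : 0 < Nat.card k := Nat.card_pos
    rw [hq]
    exact_mod_cast this
  set W : ℝ := √(q ^ (N + 1)) with hW
  have hW1 : 1 ≤ W := by
    rw [hW, Real.one_le_sqrt]
    exact one_le_pow₀ hq1
  have hqW : q ^ (N / 2) ≤ W := by
    rw [hW]
    apply Real.le_sqrt_of_sq_le
    rw [← pow_mul]
    exact pow_le_pow_right₀ hq1 (by omega)
  have hirr := abs_mul_card_irrF_sub k hN
  rw [← hq] at hirr
  have hcard1 : (S.card : ℝ) = T.card + (S \ T).card := by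
    rw [add_comm]
    exact_mod_cast (Finset.card_sdiff_add_card_eq_card hTS).symm
  have hcard2 : ((IrrF k N).card : ℝ) = (GoodF k Mt N).card + (IrrF k N \ GoodF k Mt N).card := by
    rw [add_comm]
    exact_mod_cast (Finset.card_sdiff_add_card_eq_card hGI).symm
  have hIGR : (N : ℝ) * (IrrF k N \ GoodF k Mt N).card ≤ δ.natDegree := by exact_mod_cast hIG
  have hSTR : (N : ℝ) * (S \ T).card ≤ (m : ℝ) ^ 2 * (δ.natDegree + 2 * q ^ (N / 2)) := by
    have h1 : ((N * (S \ T).card : ℕ) : ℝ) ≤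
        ((m ^ 2 * (∑ P ∈ Bad', P.natDegree + 2 * (Nat.card k) ^ (N / 2)) : ℕ) : ℝ) := by
      exact_mod_cast hST
    have h2 : ((∑ P ∈ Bad', P.natDegree : ℕ) : ℝ) ≤ δ.natDegree := by exact_mod_cast hdegBad'
    have h3 : ((m ^ 2 * (∑ P ∈ Bad', P.natDegree + 2 * (Nat.card k) ^ (N / 2)) : ℕ) : ℝ) =
        (m : ℝ) ^ 2 * (((∑ P ∈ Bad', P.natDegree : ℕ) : ℝ) + 2 * q ^ (N / 2)) := by
      rw [hq]
      push_cast
      rfl
    rw [h3] at h1
    have h4 : (m : ℝ) ^ 2 * (((∑ P ∈ Bad', P.natDegree : ℕ) : ℝ) + 2 * q ^ (N / 2)) ≤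
        (m : ℝ) ^ 2 * (δ.natDegree + 2 * q ^ (N / 2)) :=
      mul_le_mul_of_nonneg_left (by linarith) (by positivity)
    have h5 : ((N * (S \ T).card : ℕ) : ℝ) = (N : ℝ) * (S \ T).card := by push_cast; rfl
    rw [← h5]
    exact h1.trans h4
  refine pnt_num (n := n) (u := u) (d := δ.natDegree) (e := e) (m := m) (W := W)
    (Y := N * |(T.card : ℝ) - (GoodF k Mt N).card|) (R := q ^ (N / 2)) (t := N * T.card)
    (g := N * (GoodF k Mt N).card) (i := N * (IrrF k N).card)
    (x := N * (S \ T).card) hn1 hu1 hW1 hqW (by positivity) ?_ ?_ ?_ hirr (by positivity) hSTR ?_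
  · calc (u : ℝ) / n * (N * |(T.card : ℝ) - (GoodF k Mt N).card|) =
          N * ((u : ℝ) / n * |(T.card : ℝ) - (GoodF k Mt N).card|) := by ring
      _ ≤ _ := hB1
      _ ≤ _ := by
        have h2 : ((∑ P ∈ Bad', P.natDegree : ℕ) : ℝ) ≤ δ.natDegree := by exact_mod_cast hdegBad'
        refine mul_le_mul_of_nonneg_right ?_ (zero_le_one.trans hW1)
        exact mul_le_mul_of_nonneg_left (by linarith) (by positivity)
  · rw [← mul_sub, abs_mul, abs_of_nonneg hN0]
  · rw [hcard2, mul_add, abs_sub_comm, add_sub_cancel_left, abs_of_nonneg (by positivity)]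
    exact hIGR
  · rw [hcard1]
    ring

/-- The prime number theorem, in the form `|N #S - q ^ N| ≤ C √(q ^ N)`. -/
theorem pnt_fin' (k : Type) [Field k] [Finite k] (K : Type) [Field K] [Algebra (RatFunc k) K]
    [Algebra k[X] K] [IsScalarTower k[X] (RatFunc k) K]
    [FiniteDimensional (RatFunc k) K] [Algebra.IsSeparable (RatFunc k) K]
    [Algebra k K] [IsScalarTower k k[X] K]
    (hk : ∀ x : K, IsIntegral k x → ∃ c : k, algebraMap k K c = x) :
    ∃ C : ℕ, ∀ N : ℕ, N ≠ 0 → ∀ S : Finset (Ideal (AA k K)), (∀ v, v ∈ S ↔ v ∈ PrK k K N) →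
      |(N : ℝ) * S.card - (Nat.card k : ℝ) ^ N| ≤ C * √((Nat.card k : ℝ) ^ N) := by
  obtain ⟨C, hC⟩ := pnt_fin k K hk
  refine ⟨C * Nat.card k, fun N hN S hS => (hC N hN S hS).trans ?_⟩
  have hq1 : (1 : ℝ) ≤ Nat.card k := by
    have : 0 < Nat.card k := Nat.card_pos
    exact_mod_cast this
  have h1 : √((Nat.card k : ℝ) ^ (N + 1)) ≤ Nat.card k * √((Nat.card k : ℝ) ^ N) := by
    rw [pow_succ, mul_comm, Real.sqrt_mul (by positivity)]
    refine mul_le_mul_of_nonneg_right ?_ (Real.sqrt_nonneg _)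
    rw [Real.sqrt_le_left (by positivity)]
    nlinarith
  push_cast
  rw [mul_assoc]
  exact mul_le_mul_of_nonneg_left h1 (Nat.cast_nonneg _)

end Pool.Agent.SmBU
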