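import Pool.Agent.Lib.SmBU.KDefs
import Pool.Agent.Lib.GBC.P.FP
import Pool.Agent.Lib.GBC.E.Main

/-!
SMITH-U, block B for general `K`: places of `K` (not above `t = ∞`) and prime ideals of `AA k K`.
-/

set_option autoImplicit false

namespace Pool.Agent.SmBU

open Module Polynomial Pool.Agent.SmB Pool.Agent.BSDFF Pool.Agent.GBC

section plc

variable {k K : Type} [Field k] [Field K] [Algebra k K] [Algebra (RatFunc k) K]
  [IsScalarTower k (RatFunc k) K]

/-- The place is not above `t = ∞`. -/
abbrev FinPl (v : Place k K) : Prop := Over (RA k K) v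

variable [Algebra k[X] K] [IsScalarTower k[X] (RatFunc k) K]

omit [Algebra k K] [IsScalarTower k (RatFunc k) K] in
theorem cX_eq : cX k K = algebraMap k[X] K :=
  (IsScalarTower.algebraMap_eq k[X] (RatFunc k) K).symm

theorem mem_RA_iff {x : K} : x ∈ RA k K ↔ IsIntegral k[X] x := by
  change (cX k K).IsIntegralElem x ↔ (algebraMap k[X] K).IsIntegralElem x
  rw [cX_eq]

theorem mem_of_finPl {v : Place k K} (hv : FinPl v) {x : K} (hx : IsIntegral k[X] x) :
    x ∈ v.ring := hv x (mem_RA_iff.2 hx)

/-- The prime ideal of `AA k K` given by a place which is not above `t = ∞`. -/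
noncomputable def prI (v : Place k K) (hv : FinPl v) : Ideal (AA k K) where
  carrier := {x | v.ring.valuation (x : K) < 1}
  zero_mem' := by
    rw [Set.mem_ofPred_eq]
    change v.ring.valuation (0 : K) < 1
    rw [map_zero]
    exact zero_lt_one
  add_mem' := fun {a b} ha hb => v.ring.valuation.map_add_lt ha hb
  smul_mem' := fun a b hb => by
    rw [Set.mem_ofPred_eq]
    change v.ring.valuation ((a : K) * b) < 1
    rw [map_mul]
    exact lt_of_le_of_lt (mul_le_of_le_one_left'
      ((v.ring.valuation_le_one_iff _).2 (mem_of_finPl hv a.2))) hb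

theorem mem_prI {v : Place k K} {hv : FinPl v} {x : AA k K} :
    x ∈ prI v hv ↔ v.ring.valuation (x : K) < 1 := Iff.rfl

variable (k K) in
/-- The two descriptions of the ring of integers. -/
noncomputable def eRA : AA k K ≃+* RA k K where
  toFun x := ⟨x, mem_RA_iff.2 x.2⟩
  invFun x := ⟨x, mem_RA_iff.1 x.2⟩
  left_inv _ := rfl
  right_inv _ := rfl
  map_mul' _ _ := rfl
  map_add' _ _ := rfl

theorem coe_eRA (x : AA k K) : ((eRA k K x : RA k K) : K) = x := rfl

theorem coe_eRA_symm (x : RA k K) : (((eRA k K).symm x : AA k K) : K) = x := rfl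

theorem prI_eq_comap (v : Place k K) (hv : FinPl v) [IsDedekindDomain (RA k K)]
    [IsFractionRing (RA k K) K] :
    prI v hv = (cen (RA k K) v hv).comap (eRA k K : AA k K →+* RA k K) := by
  ext x
  rw [mem_prI, Ideal.mem_comap, RingHom.coe_coe, mem_cen]
  rfl

open Classical in
/-- The prime ideal of `AA k K` given by a place (`0` for the places above `t = ∞`). -/
noncomputable def pI (v : Place k K) : Ideal (AA k K) := if h : FinPl v then prI v h else ⊥

theorem pI_eq {v : Place k K} (hv : FinPl v) : pI v = prI v hv := dif_pos hv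

theorem mem_pI {v : Place k K} (hv : FinPl v) {x : AA k K} :
    x ∈ pI v ↔ v.ring.valuation (x : K) < 1 := by
  rw [pI_eq hv]
  exact Iff.rfl

end plc

section main

variable {k K : Type} [Field k] [Finite k] [Field K] [Algebra k K] [Algebra (RatFunc k) K]
  [IsScalarTower k (RatFunc k) K] [FiniteDimensional (RatFunc k) K]
  [Algebra.IsSeparable (RatFunc k) K] [Algebra k[X] K] [IsScalarTower k[X] (RatFunc k) K]

omit [Finite k] in
theorem pI_isPrime {v : Place k K} (hv : FinPl v) : (pI v).IsPrime := by
  have := dedRA k K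
  have := fracRA k K
  rw [pI_eq hv, prI_eq_comap]
  have h1 := (cen_isMaximal (RA k K) hv).isPrime
  exact Ideal.comap_isPrime _ _

omit [Finite k] in
theorem pI_ne_bot {v : Place k K} (hv : FinPl v) : pI v ≠ ⊥ := by
  have := dedRA k K
  have := fracRA k K
  intro h
  apply cen_ne_bot (RA k K) hv
  rw [eq_bot_iff]
  intro x hx
  have h1 : (eRA k K).symm x ∈ pI v := by
    rw [mem_pI hv, coe_eRA_symm]
    exact (mem_cen (RA k K) hv x).1 hx
  rw [h, Ideal.mem_bot] at h1
  rw [Ideal.mem_bot]
  have h2 := congrArg (eRA k K) h1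
  rwa [RingEquiv.apply_symm_apply, map_zero] at h2

omit [Finite k] in
theorem pI_injective {v w : Place k K} (hv : FinPl v) (hw : FinPl w) (h : pI v = pI w) :
    v = w := by
  have := dedRA k K
  have := fracRA k K
  apply cen_injective (RA k K) hv hw
  ext x
  rw [mem_cen, mem_cen]
  have h1 : (eRA k K).symm x ∈ pI v ↔ (eRA k K).symm x ∈ pI w := by rw [h]
  rw [mem_pI hv, mem_pI hw] at h1
  exact h1

omit [Finite k] in
theorem exists_pI {I : Ideal (AA k K)} (hI : I.IsPrime) (h0 : I ≠ ⊥) :
    ∃ v : Place k K, FinPl v ∧ pI v = I := by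
  have := dedRA k K
  have := fracRA k K
  set P : Ideal (RA k K) := I.comap ((eRA k K).symm : RA k K →+* AA k K) with hP
  have hPp : P.IsPrime := Ideal.comap_isPrime _ _
  have hP0 : P ≠ ⊥ := by
    intro h
    apply h0
    rw [eq_bot_iff]
    intro x hx
    have h1 : eRA k K x ∈ P := by
      rw [hP, Ideal.mem_comap, RingHom.coe_coe, RingEquiv.symm_apply_apply]
      exact hx
    rw [h, Ideal.mem_bot] at h1
    rw [Ideal.mem_bot]
    exact (eRA k K).injective (h1.trans (map_zero _).symm)
  obtain ⟨w, hw, hwP⟩ := exists_place (RA k K) P (hPp.isMaximal hP0) hP0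
  refine ⟨w, hw, ?_⟩
  ext x
  have h2 : eRA k K x ∈ cen (RA k K) w hw ↔ eRA k K x ∈ P := by rw [hwP]
  rw [mem_cen, hP, Ideal.mem_comap, RingHom.coe_coe, RingEquiv.symm_apply_apply] at h2
  rw [mem_pI hw]
  exact h2

theorem card_quot_pI {v : Place k K} (hv : FinPl v) :
    Nat.card (AA k K ⧸ pI v) = Nat.card k ^ v.degree := by
  have := dedRA k K
  have := fracRA k K
  obtain ⟨G, -⟩ := exists_geo k K
  rw [← G.card_residue v, pI_eq hv]
  have h1 : cen (RA k K) v hv = (prI v hv).map (eRA k K : AA k K →+* RA k K) := by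
    rw [prI_eq_comap]
    exact (Ideal.map_comap_of_surjective (eRA k K : AA k K →+* RA k K) (eRA k K).surjective _).symm
  exact Nat.card_congr ((Ideal.quotientEquiv _ _ (eRA k K) h1).toEquiv.trans
    (RingHom.quotientKerEquivOfSurjective (toRes_surjective (RA k K) hv)).toEquiv)

theorem dgK_pI {v : Place k K} (hv : FinPl v) : dgK k (pI v) = v.degree := by
  unfold dgK
  rw [card_quot_pI hv]
  exact Nat.log_pow Finite.one_lt_card _

theorem pI_mem_PrK {v : Place k K} (hv : FinPl v) {N : ℕ} : pI v ∈ PrK k K N ↔ v.degree = N := by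
  have hq : 1 < Nat.card k := Finite.one_lt_card
  constructor
  · intro h
    have h1 := h.2.2
    rw [card_quot_pI hv] at h1
    exact Nat.pow_right_injective hq h1
  · rintro rfl
    exact ⟨pI_isPrime hv, pI_ne_bot hv, card_quot_pI hv⟩

omit [Algebra k[X] K] [IsScalarTower k[X] (RatFunc k) K] in
theorem degree_pos (v : Place k K) : 0 < v.degree := by
  obtain ⟨G, -⟩ := exists_geo k K
  exact G.degree_pos v

omit [Algebra k[X] K] [IsScalarTower k[X] (RatFunc k) K] in
variable (k K) in
theorem finite_notFinPl : {v : Place k K | ¬ FinPl v}.Finite := by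
  obtain ⟨G, hA, hB, -⟩ := exists_geo k K
  refine G.finite_inf.subset fun v hv => ?_
  rcases placesRAB k K v with h | h
  · exact absurd h hv
  · rw [Set.mem_ofPred_eq, hB]
    exact h

end main

end Pool.Agent.SmBU
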