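import Pool.Agent.Lib.SmBU.ChebK
import Pool.Agent.Lib.SmN.Asm.Abs

/-!
SMITH-U, block B for general `K`: `ChebT`.
-/

set_option autoImplicit false

namespace Pool.Agent.SmBU

open Module Polynomial Pool.Agent.SmB Pool.Agent.BSDFF Pool.Agent.GBC Pool.Agent.GBU

variable {k K : Type} [Field k] [Finite k] [Field K] [Algebra k K] [Algebra (RatFunc k) K]
  [IsScalarTower k (RatFunc k) K] [FiniteDimensional (RatFunc k) K]
  [Algebra.IsSeparable (RatFunc k) K]
  {Om : Type} [Field Om] [Algebra K Om] [IsGalois K Om]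

/-- **Chebotarev** in the form used by the assembly of SMITH-U. -/
theorem chebT {V V1 : Type} [AddCommGroup V] [DistribMulAction (Om ≃ₐ[K] Om) V] [AddCommGroup V1]
    [Module (ZMod 2) V1] {S : SmN.Sys (Om ≃ₐ[K] Om) V V1 (Place k K)} (hNN : S.NN = NP K Om)
    (hsg : S.sg = sgK Om) (hph : S.phi = phK Om) (h2 : (2 : k) ≠ 0) {T : Set (Place k K)}
    (hT : T.Finite) {fr : Om ≃ₐ[K] Om} (hfr : IsFrC k fr) :
    ∃ a C : ℕ, SmN.ChebT S T Place.degree (GeoK k K Om) fr (Nat.card k) a C := by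
  obtain ⟨a, C, h⟩ := chebK (Om := Om) h2 hT hfr
  refine ⟨a, C, ?_⟩
  intro N hN hN0 f h1 h3 h4 U h5 h6 d r hd B hB hr E hE
  rw [hNN] at hN0
  rw [hph]
  exact h N hN hN0 f h1 h3 h4 U h5 h6 d r hd B (fun P hP => hB P (by rw [hsg]; exact hP)) hr E hE

end Pool.Agent.SmBU
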