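import Pool.Agent.Lib.SmBU.KDefs
import Pool.Agent.Lib.SmB.P5Cst
import Pool.Agent.Lib.GBU.GeoC

/-!
SMITH-U, block B for general `K`: the constants (bridge from `B2_fin` to `ChebT`).

`Om/K` Galois, `L` an intermediate field, finite and normal over `K`. An automorphism of `L/K` which
is trivial on the constants of `L` is the restriction of an element of the geometric subgroup
`GeoK k K Om` (`geo_lift`, `compK_lift`); hence the sum of `f (fr ^ d * t)` over representatives of
`GeoK` modulo `Gal(Om/L)` is the sum over the automorphisms of `L/K` compatible with the `d`-th power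
of Frobenius (`sum_geo`).
-/

set_option autoImplicit false

namespace Pool.Agent.SmBU

open Polynomial Pool.Agent.SmB Pool.Agent.GBU

theorem isIntegral_iff_isC {k M : Type} [Field k] [Finite k] [Field M] [Algebra k M] {x : M} :
    IsIntegral k x ↔ IsC k x :=
  ⟨fun h => exists_period_of_integral h, fun ⟨_, hm, h⟩ => integral_of_period hm h⟩

theorem compK_iff_isC {k K M : Type} [Field k] [Finite k] [Field K] [Field M] [Algebra K M]
    [Algebra k M] {N : ℕ} {σ : M ≃ₐ[K] M} :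
    CompK k N σ ↔ ∀ x : M, IsC k x → σ x = x ^ Nat.card k ^ N :=
  ⟨fun h x hx => h x (isIntegral_iff_isC.2 hx), fun h x hx => h x (isIntegral_iff_isC.1 hx)⟩

section

variable {k K Om : Type} [Field k] [Field K] [Field Om] [Algebra K Om]

omit [Field k] in
theorem isC_coe {L : IntermediateField K Om} {x : L} : IsC k x ↔ IsC k (x : Om) := by
  constructor
  · rintro ⟨n, hn, h⟩
    exact ⟨n, hn, by exact_mod_cast congrArg (Subtype.val) h⟩
  · rintro ⟨n, hn, h⟩
    exact ⟨n, hn, Subtype.ext (by exact_mod_cast h)⟩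

/-- An automorphism which is trivial on the constants of `L` is geometric modulo `Gal(Om/L)`. -/
theorem geo_lift [Finite k] [Algebra k K] [IsGalois K Om] (L : IntermediateField K Om)
    [FiniteDimensional K L] [Normal K L] {s : Om ≃ₐ[K] Om}
    (hs : ∀ x : Om, x ∈ L → IsC k x → s x = x) :
    ∃ g ∈ GeoK k K Om, g⁻¹ * s ∈ L.fixingSubgroup := by
  classical
  let alg : Algebra k Om := ((algebraMap K Om).comp (algebraMap k K)).toAlgebra
  have tow : IsScalarTower k K Om := IsScalarTower.of_algebraMap_eq fun _ => rfl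
  have hgalL : IsGalois K L := IsGalois.mk
  have hN : L.fixingSubgroup.Normal := (InfiniteGalois.normal_iff_isGalois L).2 hgalL
  have hop : IsOpen (L.fixingSubgroup : Set (Om ≃ₐ[K] Om)) :=
    IntermediateField.fixingSubgroup_isOpen L
  obtain ⟨n, hn0, hle⟩ := exists_HcK_le (k := k) (U := GeoK k K Om ⊔ L.fixingSubgroup)
    (Subgroup.isOpen_mono le_sup_right hop) le_sup_left
  -- the field of the constants of level `n`
  let ft : Fintype k := Fintype.ofFinite k
  have hq : Nat.card k = Fintype.card k := Nat.card_eq_fintype_card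
  let Φ : Om →ₐ[k] Om := (FiniteField.frobeniusAlgHom k Om) ^ n
  have hΦ : ∀ y : Om, Φ y = y ^ Nat.card k ^ n := by
    intro y
    change ((FiniteField.frobeniusAlgHom k Om) ^ n) y = _
    rw [AlgHom.coe_pow, FiniteField.coe_frobeniusAlgHom, pow_iterate, hq]
  let E : IntermediateField k Om :=
    { carrier := {y | Φ y = y}
      mul_mem' := fun {a b} ha hb => by
        change Φ (a * b) = a * b
        rw [map_mul, show Φ a = a from ha, show Φ b = b from hb]
      add_mem' := fun {a b} ha hb => by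
        change Φ (a + b) = a + b
        rw [map_add, show Φ a = a from ha, show Φ b = b from hb]
      algebraMap_mem' := fun a => Φ.commutes a
      inv_mem' := fun a ha => by
        change Φ a⁻¹ = a⁻¹
        rw [map_inv₀, show Φ a = a from ha] }
  have hE : ∀ y, y ∈ E ↔ y ^ Nat.card k ^ n = y := by
    intro y
    rw [← hΦ y]
    exact Iff.rfl
  have hEfin : Finite E := by
    have h1 : {y : Om | y ∈ E} = {x : Om | x ^ Nat.card k ^ n = x} := by
      ext y
      exact hE y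
    have h2 : {y : Om | y ∈ E}.Finite := by
      rw [h1]
      exact finite_level_C hn0
    exact h2.to_subtype
  have hEfd : FiniteDimensional k E := Module.Finite.of_finite
  have hgalE : IsGalois k E := inferInstance
  let rE : (Om ≃ₐ[K] Om) →* (E ≃ₐ[k] E) :=
    { toFun := fun g => AlgEquiv.restrictNormalHom E (g.restrictScalars k)
      map_one' := by
        have h1 : ((1 : Om ≃ₐ[K] Om).restrictScalars k) = 1 := rfl
        rw [h1, map_one]
      map_mul' := fun a b => by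
        have h1 : ((a * b : Om ≃ₐ[K] Om).restrictScalars k) =
          a.restrictScalars k * b.restrictScalars k := rfl
        rw [h1, map_mul] }
  have hrE : ∀ (g : Om ≃ₐ[K] Om) (x : E), ((rE g x : E) : Om) = g (x : Om) := by
    intro g x
    exact AlgEquiv.restrictNormal_commutes (g.restrictScalars k) E x
  have hmem : rE s ∈ L.fixingSubgroup.map rE := by
    rw [← IntermediateField.fixingSubgroup_fixedField (L.fixingSubgroup.map rE),
      IntermediateField.mem_fixingSubgroup_iff]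
    intro c hc
    rw [IntermediateField.mem_fixedField_iff] at hc
    have hcL : (c : Om) ∈ L := by
      rw [← InfiniteGalois.fixedField_fixingSubgroup L, IntermediateField.mem_fixedField_iff]
      intro ρ hρ
      rw [← hrE, hc (rE ρ) ⟨ρ, hρ, rfl⟩]
    apply Subtype.ext
    rw [hrE]
    exact hs c hcL ⟨n, hn0, (hE _).1 c.2⟩
  obtain ⟨ρ, hρ, h⟩ := hmem
  have h1 : ρ⁻¹ * s ∈ HcK k K Om n := by
    intro x hx
    have h2 : ρ x = s x := by
      have h3 := hrE ρ ⟨x, (hE x).2 hx⟩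
      rw [h, hrE] at h3
      exact h3.symm
    rw [AlgEquiv.mul_apply, ← h2]
    exact ρ.symm_apply_apply x
  have h3 : s ∈ GeoK k K Om ⊔ L.fixingSubgroup := by
    have h4 := mul_mem (Subgroup.mem_sup_right (S := GeoK k K Om) hρ) (hle h1)
    rwa [mul_inv_cancel_left] at h4
  rw [Subgroup.mem_sup_of_normal_right] at h3
  obtain ⟨g, hg, m, hm, h4⟩ := h3
  exact ⟨g, hg, by rw [← h4, inv_mul_cancel_left]; exact hm⟩

/-- An automorphism of `L/K` compatible with the `d`-th power of Frobenius is the restriction of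
`fr ^ d * g`, `g` geometric. -/
theorem compK_lift [Finite k] [Algebra k K] [IsGalois K Om] {L : IntermediateField K Om}
    [FiniteDimensional K L] [Normal K L] {fr : Om ≃ₐ[K] Om} (hfr : IsFrC k fr) {d : ℕ}
    [Algebra k L] {σ : L ≃ₐ[K] L} (hσ : CompK k d σ) :
    ∃ g ∈ GeoK k K Om, ∀ x : L, (fr ^ d * g) (x : Om) = (σ x : Om) := by
  have hres : ∀ (τ : Om ≃ₐ[K] Om) (x : L),
      ((AlgEquiv.restrictNormalHom L τ x : L) : Om) = τ (x : Om) :=
    fun τ x => AlgEquiv.restrictNormal_commutes τ L x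
  obtain ⟨s, hs⟩ := AlgEquiv.restrictNormalHom_surjective (F := K) (K₁ := L) Om σ
  have hsσ : ∀ x : L, s (x : Om) = (σ x : Om) := fun x => by rw [← hs, hres]
  obtain ⟨g, hg, h⟩ := geo_lift (k := k) L (s := (fr ^ d)⁻¹ * s) (fun x hxL hx => by
    have h1 : s x = x ^ Nat.card k ^ d := by
      have h2 := compK_iff_isC.1 hσ ⟨x, hxL⟩ (isC_coe.2 hx)
      have h3 := hsσ ⟨x, hxL⟩
      rw [h2] at h3
      exact_mod_cast h3
    rw [AlgEquiv.mul_apply, h1, ← hfr.pow d hx]
    exact (fr ^ d).symm_apply_apply x)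
  refine ⟨g, hg, fun x => ?_⟩
  have h1 := (IntermediateField.mem_fixingSubgroup_iff _ _).1 h x x.2
  have h2 : g⁻¹ * ((fr ^ d)⁻¹ * s) = (fr ^ d * g)⁻¹ * s := by group
  rw [h2, AlgEquiv.mul_apply] at h1
  have h3 := congrArg (fr ^ d * g) h1
  rw [← hsσ x, ← h3]
  exact (fr ^ d * g).apply_symm_apply _

/-- The restriction of `fr ^ d * g`, `g` geometric, is compatible with the `d`-th power of
Frobenius. -/
theorem compK_of_geo [Finite k] {L : IntermediateField K Om} {fr g : Om ≃ₐ[K] Om}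
    (hfr : IsFrC k fr) (hg : g ∈ GeoK k K Om) {d : ℕ} [Algebra k L] {σ : L ≃ₐ[K] L}
    (h : ∀ x : L, (fr ^ d * g) (x : Om) = (σ x : Om)) : CompK k d σ := by
  rw [compK_iff_isC]
  intro x hx
  apply Subtype.ext
  rw [← h, AlgEquiv.mul_apply, hg _ (isC_coe.1 hx), hfr.pow d (isC_coe.1 hx)]
  norm_cast

open Classical in
/-- The sum over representatives of the geometric subgroup is the sum over the compatible
automorphisms of `L/K`. -/
theorem sum_geo [Finite k] [Algebra k K] [IsGalois K Om] {L : IntermediateField K Om}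
    [FiniteDimensional K L] [Normal K L] {fr : Om ≃ₐ[K] Om} (hfr : IsFrC k fr) (d : ℕ)
    [Algebra k L] {U : Finset (Om ≃ₐ[K] Om)} (hU : ∀ t ∈ U, t ∈ GeoK k K Om)
    (hU' : ∀ g ∈ GeoK k K Om, ∃! t, t ∈ U ∧ t⁻¹ * g ∈ L.fixingSubgroup)
    {f : (Om ≃ₐ[K] Om) → ℝ} {F : (L ≃ₐ[K] L) → ℝ}
    (hF : ∀ (g : Om ≃ₐ[K] Om) (σ : L ≃ₐ[K] L), (∀ x : L, g (x : Om) = (σ x : Om)) → f g = F σ) :
    ∑ t ∈ U, f (fr ^ d * t) =
        ∑ σ ∈ Finset.univ.filter (fun σ : L ≃ₐ[K] L => CompK k d σ), F σ ∧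
      U.card = (Finset.univ.filter (fun σ : L ≃ₐ[K] L => CompK k d σ)).card := by
  have hres : ∀ (τ : Om ≃ₐ[K] Om) (x : L),
      τ (x : Om) = ((AlgEquiv.restrictNormalHom L τ x : L) : Om) :=
    fun τ x => (AlgEquiv.restrictNormal_commutes τ L x).symm
  have hker : ∀ g h : Om ≃ₐ[K] Om, AlgEquiv.restrictNormalHom L g = AlgEquiv.restrictNormalHom L h ↔
      g⁻¹ * h ∈ L.fixingSubgroup := by
    intro g h
    rw [← IntermediateField.restrictNormalHom_ker L, MonoidHom.mem_ker, map_mul, map_inv,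
      inv_mul_eq_one]
  have hm : ∀ t ∈ U, AlgEquiv.restrictNormalHom L (fr ^ d * t) ∈
      Finset.univ.filter (fun σ : L ≃ₐ[K] L => CompK k d σ) := fun t ht => by
    rw [Finset.mem_filter]
    exact ⟨Finset.mem_univ _, compK_of_geo hfr (hU t ht) (hres _)⟩
  have hi : ∀ t ∈ U, ∀ t' ∈ U, AlgEquiv.restrictNormalHom L (fr ^ d * t) =
      AlgEquiv.restrictNormalHom L (fr ^ d * t') → t = t' := by
    intro t ht t' ht' h
    rw [hker] at h
    have h1 : t⁻¹ * t' ∈ L.fixingSubgroup := by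
      have h2 : (fr ^ d * t)⁻¹ * (fr ^ d * t') = t⁻¹ * t' := by group
      rwa [h2] at h
    refine (hU' t' (hU t' ht')).unique ⟨ht, h1⟩ ⟨ht', ?_⟩
    rw [inv_mul_cancel]
    exact one_mem _
  have hs : ∀ σ ∈ Finset.univ.filter (fun σ : L ≃ₐ[K] L => CompK k d σ),
      ∃ t, ∃ _ : t ∈ U, AlgEquiv.restrictNormalHom L (fr ^ d * t) = σ := by
    intro σ hσ
    rw [Finset.mem_filter] at hσ
    obtain ⟨g, hg, h⟩ := compK_lift hfr hσ.2
    obtain ⟨t, ⟨ht, htg⟩, -⟩ := hU' g hg
    refine ⟨t, ht, ?_⟩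
    have h1 : AlgEquiv.restrictNormalHom L (fr ^ d * g) = σ := by
      refine AlgEquiv.ext fun x => Subtype.ext ?_
      rw [← hres, h]
    rw [← h1, hker]
    have h2 : (fr ^ d * t)⁻¹ * (fr ^ d * g) = t⁻¹ * g := by group
    rw [h2]
    exact htg
  constructor
  · exact Finset.sum_bij (fun t _ => AlgEquiv.restrictNormalHom L (fr ^ d * t)) hm
      (fun t ht t' ht' h => hi t ht t' ht' h) hs (fun t _ => hF _ _ (hres _))
  · exact Finset.card_bij (fun t _ => AlgEquiv.restrictNormalHom L (fr ^ d * t)) hm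
      (fun t ht t' ht' h => hi t ht t' ht' h) hs

/-- Descent of a class function to `Gal(L/K)`. -/
theorem exists_desc {L : IntermediateField K Om} [IsGalois K Om] [Normal K L]
    {f : (Om ≃ₐ[K] Om) → ℝ} (h1 : ∀ s, ∀ n ∈ L.fixingSubgroup, f (s * n) = f s)
    (h2 : ∀ s t, f (t * s * t⁻¹) = f s) {c : ℝ} (h3 : ∀ s, |f s| ≤ c) :
    ∃ F : (L ≃ₐ[K] L) → ℝ,
      (∀ (g : Om ≃ₐ[K] Om) (σ : L ≃ₐ[K] L), (∀ x : L, g (x : Om) = (σ x : Om)) → f g = F σ) ∧
      (∀ g τ, F (g * τ * g⁻¹) = F τ) ∧ ∀ τ, |F τ| ≤ c := by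
  have hsurj : Function.Surjective (AlgEquiv.restrictNormalHom (F := K) (K₁ := Om) L) :=
    AlgEquiv.restrictNormalHom_surjective Om
  have hres : ∀ (τ : Om ≃ₐ[K] Om) (x : L),
      ((AlgEquiv.restrictNormalHom L τ x : L) : Om) = τ (x : Om) :=
    fun τ x => AlgEquiv.restrictNormal_commutes τ L x
  choose lift hlift using hsurj
  have key : ∀ g, f (lift (AlgEquiv.restrictNormalHom L g)) = f g := by
    intro g
    have h5 : g⁻¹ * lift (AlgEquiv.restrictNormalHom L g) ∈ L.fixingSubgroup := by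
      rw [← IntermediateField.restrictNormalHom_ker L, MonoidHom.mem_ker, map_mul, map_inv, hlift,
        inv_mul_cancel]
    have h6 := h1 g _ h5
    rwa [mul_inv_cancel_left] at h6
  refine ⟨fun σ => f (lift σ), fun g σ h => ?_, fun g τ => ?_, fun τ => h3 _⟩
  · have h4 : AlgEquiv.restrictNormalHom L g = σ :=
      AlgEquiv.ext fun x => Subtype.ext (by rw [hres, h])
    change f g = f (lift σ)
    rw [← h4, key]
  · change f (lift (g * τ * g⁻¹)) = f (lift τ)
    have h4 : g * τ * g⁻¹ = AlgEquiv.restrictNormalHom L (lift g * lift τ * (lift g)⁻¹) := by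
      rw [map_mul, map_mul, map_inv, hlift, hlift]
    rw [h4, key, h2]

open Classical in
/-- The mean. -/
theorem sum_sub_mean [Finite k] [Algebra k K] [IsGalois K Om] {L : IntermediateField K Om}
    [FiniteDimensional K L] [Normal K L] {fr : Om ≃ₐ[K] Om} (hfr : IsFrC k fr) (d : ℕ)
    [Algebra k L] {U : Finset (Om ≃ₐ[K] Om)} (hU : ∀ t ∈ U, t ∈ GeoK k K Om)
    (hU' : ∀ g ∈ GeoK k K Om, ∃! t, t ∈ U ∧ t⁻¹ * g ∈ L.fixingSubgroup)
    {f : (Om ≃ₐ[K] Om) → ℝ} {F : (L ≃ₐ[K] L) → ℝ}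
    (hF : ∀ (g : Om ≃ₐ[K] Om) (σ : L ≃ₐ[K] L), (∀ x : L, g (x : Om) = (σ x : Om)) → f g = F σ) :
    ∑ σ ∈ Finset.univ.filter (fun σ : L ≃ₐ[K] L => CompK k d σ),
      (F σ - (∑ t ∈ U, f (fr ^ d * t)) / U.card) / 2 = 0 := by
  obtain ⟨h1, h2⟩ := sum_geo hfr d hU hU' hF
  have h0 : (U.card : ℝ) ≠ 0 := by
    obtain ⟨t, ⟨ht, -⟩, -⟩ := hU' 1 (one_mem _)
    have := Finset.card_pos.2 ⟨t, ht⟩
    exact_mod_cast this.ne'
  rw [← Finset.sum_div, Finset.sum_sub_distrib, Finset.sum_const, ← h2, nsmul_eq_mul,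
    mul_div_cancel₀ _ h0, h1, sub_self, zero_div]

theorem abs_mean_le {U : Finset (Om ≃ₐ[K] Om)} {f : (Om ≃ₐ[K] Om) → ℝ} (h3 : ∀ s, |f s| ≤ 1)
    (g : Om ≃ₐ[K] Om) : |(∑ t ∈ U, f (g * t)) / U.card| ≤ 1 := by
  rcases U.eq_empty_or_nonempty with rfl | hne
  · simp
  · have h0 : (0 : ℝ) < U.card := by exact_mod_cast Finset.card_pos.2 hne
    rw [abs_div, Nat.abs_cast, div_le_one h0]
    refine (Finset.abs_sum_le_sum_abs _ _).trans ?_
    calc _ ≤ ∑ _t ∈ U, (1 : ℝ) := Finset.sum_le_sum fun t _ => h3 _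
      _ = U.card := by rw [Finset.sum_const, nsmul_eq_mul, mul_one]

end

end Pool.Agent.SmBU
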