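import Pool.Agent.Lib.SmBU.AbvA

/-!
SMITH-U, block B for general `K`: the sum over the primes of degree one of `K` above `P` of a class
function at the Frobenius elements, in terms of the induced function at the Frobenius element of
`P` in the normal closure.
-/

set_option autoImplicit false

namespace Pool.Agent.SmBU

open Module Polynomial Pool.Agent.SmB

private theorem Above_card {B' C' : Type*} [CommRing B'] [IsDomain B'] [Ring C'] {Q : ℕ}
    (hQ : 1 < Q) (h : ∀ x : B', x ^ Q = x) (f : C' →+* B') (hf : Function.Injective f)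
    (hc : Nat.card C' = Q) : Nat.card B' = Q := by
  classical
  have hne : (X ^ Q - X : B'[X]) ≠ 0 := by
    intro h0
    have h1 : (X ^ Q - X : B'[X]).coeff Q = 0 := by rw [h0, coeff_zero]
    rw [coeff_sub, coeff_X_pow_self, coeff_X, if_neg (by omega), sub_zero] at h1
    exact one_ne_zero h1
  have hmem : ∀ x : B', x ∈ (X ^ Q - X : B'[X]).roots.toFinset := by
    intro x
    rw [Multiset.mem_toFinset, mem_roots hne, IsRoot.def, eval_sub, eval_pow, eval_X, h x, sub_self]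
  have hfin : Finite B' := Finite.of_injective
    (fun x : B' => (⟨x, hmem x⟩ : {x // x ∈ (X ^ Q - X : B'[X]).roots.toFinset}))
    fun x y hxy => congrArg Subtype.val hxy
  have hle : Nat.card B' ≤ Q := by
    have h1 : Nat.card B' ≤ Nat.card {x // x ∈ (X ^ Q - X : B'[X]).roots.toFinset} :=
      Nat.card_le_card_of_injective
        (fun x : B' => (⟨x, hmem x⟩ : {x // x ∈ (X ^ Q - X : B'[X]).roots.toFinset}))
        fun x y hxy => congrArg Subtype.val hxy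
    have h2 : Nat.card {x // x ∈ (X ^ Q - X : B'[X]).roots.toFinset} =
        (X ^ Q - X : B'[X]).roots.toFinset.card := by
      rw [Nat.card_eq_fintype_card, Fintype.card_coe]
    rw [h2] at h1
    refine h1.trans ((Multiset.toFinset_card_le _).trans ((card_roots' _).trans ?_))
    refine (natDegree_sub_le _ _).trans ?_
    rw [natDegree_X_pow, natDegree_X]
    omega
  refine le_antisymm hle ?_
  rw [← hc]
  exact Nat.card_le_card_of_injective f hf

section setting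

variable {k : Type*} [Field k] [Finite k]
  {K : Type*} [Field K] [Algebra (RatFunc k) K] [Algebra k[X] K] [IsScalarTower k[X] (RatFunc k) K]
  {M : Type*} [Field M] [Algebra K M] [Algebra (RatFunc k) M] [IsScalarTower (RatFunc k) K M]
  [Algebra k[X] M] [IsScalarTower k[X] (RatFunc k) M]
  {Mt : Type*} [Field Mt] [Algebra (RatFunc k) Mt] [Algebra k[X] Mt]
  [IsScalarTower k[X] (RatFunc k) Mt] [FiniteDimensional (RatFunc k) Mt] [IsGalois (RatFunc k) Mt]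
  {ι : M →ₐ[RatFunc k] Mt}

private theorem Above_cardP {P : k[X]} (hP : Irreducible P) :
    Nat.card (k[X] ⧸ Ideal.span {P}) = Nat.card k ^ P.natDegree := by
  let pb := AdjoinRoot.powerBasis hP.ne_zero
  have h1 : Module.finrank k (AdjoinRoot P) = P.natDegree := by
    rw [pb.finrank, AdjoinRoot.powerBasis_dim]
  have : Module.Finite k (AdjoinRoot P) := Module.Finite.of_basis pb.basis
  rw [← h1]
  exact Module.natCard_eq_pow_finrank (K := k) (V := AdjoinRoot P)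

omit [Finite k] [Algebra (RatFunc k) K] [IsScalarTower k[X] (RatFunc k) K] in
private theorem Above_map {P : k[X]} {v : Ideal (AA k K)}
    (hv : v.comap (algebraMap k[X] (AA k K)) = Ideal.span {P}) :
    ∃ F : (k[X] ⧸ Ideal.span {P}) →+* (AA k K ⧸ v), Function.Injective F ∧
      ∀ p : k[X], F (Ideal.Quotient.mk _ p) = Ideal.Quotient.mk v (algebraMap k[X] (AA k K) p) := by
  refine ⟨Ideal.quotientMap v (algebraMap k[X] (AA k K)) hv.ge, ?_, fun p => rfl⟩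
  exact Ideal.quotientMap_injective' hv.le

/-- `O / v` has `q ^ N` elements, so every element of `O` is a polynomial modulo `v`. -/
private theorem Above_full {P : k[X]} (hP : Irreducible P) {v : Ideal (AA k K)}
    (hv : v.comap (algebraMap k[X] (AA k K)) = Ideal.span {P})
    (hc : Nat.card (AA k K ⧸ v) = Nat.card k ^ P.natDegree) (x : AA k K) :
    ∃ p : k[X], x - algebraMap k[X] (AA k K) p ∈ v := by
  obtain ⟨F, hF, hFp⟩ := Above_map (K := K) hv
  have hpos : Nat.card k ^ P.natDegree ≠ 0 := pow_ne_zero _ Nat.card_pos.ne'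
  have hf1 : Finite (AA k K ⧸ v) := Nat.finite_of_card_ne_zero (by rw [hc]; exact hpos)
  have hsurj : Function.Surjective F :=
    (Nat.bijective_iff_injective_and_card F).2 ⟨hF, by rw [Above_cardP hP, hc]⟩ |>.2
  obtain ⟨p, hp⟩ := hsurj (Ideal.Quotient.mk v x)
  obtain ⟨p, rfl⟩ := Ideal.Quotient.mk_surjective p
  refine ⟨p, ?_⟩
  rw [hFp] at hp
  exact Ideal.Quotient.eq.1 hp.symm

open Classical in
theorem sum_above {res : UK K ι →* (M ≃ₐ[K] M)}
    (hres : ∀ (u : UK K ι) (x : M), ι (res u x) = (u : Mt ≃ₐ[RatFunc k] Mt) (ι x))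
    {P : k[X]} (hPm : P.Monic) (hP : Irreducible P) {N : ℕ} (hN : P.natDegree = N)
    (hU : UnramM Mt P) {φ : Mt ≃ₐ[RatFunc k] Mt} (hφ : FrobM P φ)
    {f : (M ≃ₐ[K] M) → ℝ} (hf : ∀ g τ, f (g * τ * g⁻¹) = f τ)
    {S : Finset (Ideal (AA k K))} (hS : ∀ v, v ∈ S ↔ v ∈ PrK k K N ∧
      v.comap (algebraMap k[X] (AA k K)) = Ideal.span {P}) :
    ∃ ρ : Ideal (AA k K) → (M ≃ₐ[K] M), (∀ v ∈ S, FrobK v ((Nat.card k) ^ N) (ρ v)) ∧
      indF res f φ = Nat.card (UK K ι) * ∑ v ∈ S, f (ρ v) := by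
  obtain ⟨I0, hI0, hI0P, hfr⟩ := hφ
  rw [hN] at hfr
  obtain ⟨J, hJdef⟩ : ∃ J : (Mt ≃ₐ[RatFunc k] Mt) → Ideal (AA k Mt), ∀ g, J g = pullI g⁻¹ I0 :=
    ⟨_, fun g => rfl⟩
  have hJ : ∀ g, (J g).IsPrime := fun g => by
    rw [hJdef]
    exact pullI_isPrime _ hI0
  have hJP : ∀ g, (J g).comap (algebraMap k[X] (AA k Mt)) = Ideal.span {P} := fun g => by
    rw [hJdef, pullI_comap, hI0P]
  obtain ⟨V, hV⟩ : ∃ V : (Mt ≃ₐ[RatFunc k] Mt) → Ideal (AA k K), ∀ g,
      V g = belowK (K := K) ι int_ι (J g) := ⟨_, fun g => rfl⟩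
  have hVp : ∀ g, (V g).IsPrime := fun g => by
    rw [hV]
    exact belowK_isPrime (hJ g)
  have hVP : ∀ g, (V g).comap (algebraMap k[X] (AA k K)) = Ideal.span {P} := fun g => by
    rw [hV, belowK_comap, hJP]
  have hQ : 1 < Nat.card k ^ N := by
    have h1 : 1 < Nat.card k := Finite.one_lt_card
    refine Nat.one_lt_pow ?_ h1
    rw [← hN]
    exact hP.natDegree_pos.ne'
  -- the Frobenius element at `J g`
  have hconj : ∀ g, ∀ x y : AA k Mt, (y : Mt) = (g * φ * g⁻¹ : Mt ≃ₐ[RatFunc k] Mt) x →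
      y - x ^ (Nat.card k) ^ N ∈ J g := by
    intro g x y hxy
    rw [hJdef, mem_pullI]
    have h1 := hfr ⟨g⁻¹ (x : Mt), gal_mem g⁻¹ x.2⟩ ⟨g⁻¹ (y : Mt), gal_mem g⁻¹ y.2⟩ (by
      change g⁻¹ (y : Mt) = φ (g⁻¹ (x : Mt))
      rw [hxy]
      change g⁻¹ (g (φ (g⁻¹ (x : Mt)))) = _
      rw [← AlgEquiv.mul_apply, inv_mul_cancel, AlgEquiv.one_apply])
    have h2 : (⟨g⁻¹ ((y - x ^ (Nat.card k) ^ N : AA k Mt) : Mt),
        gal_mem g⁻¹ (y - x ^ (Nat.card k) ^ N).2⟩ : AA k Mt) =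
        ⟨g⁻¹ (y : Mt), gal_mem g⁻¹ y.2⟩ - ⟨g⁻¹ (x : Mt), gal_mem g⁻¹ x.2⟩ ^ (Nat.card k) ^ N := by
      apply Subtype.ext
      change g⁻¹ ((y : Mt) - (x : Mt) ^ (Nat.card k) ^ N) = g⁻¹ (y : Mt) - (g⁻¹ (x : Mt)) ^ _
      rw [map_sub, map_pow]
    rw [h2]
    exact h1
  -- claim A
  have hA : ∀ g, g * φ * g⁻¹ ∈ UK K ι → Nat.card (AA k K ⧸ V g) = Nat.card k ^ N := by
    intro g hg
    have := hVp g
    obtain ⟨F, hF, -⟩ := Above_map (K := K) (hVP g)
    refine Above_card hQ ?_ F hF (by rw [Above_cardP hP, hN])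
    intro x
    obtain ⟨x, rfl⟩ := Ideal.Quotient.mk_surjective x
    rw [← map_pow, Ideal.Quotient.eq, hV, mem_belowK]
    have h1 := hconj g ⟨ι (algebraMap K M x), int_ι x⟩ ⟨ι (algebraMap K M x), int_ι x⟩
      (mem_UK.1 hg x).symm
    have h2 : (⟨ι (algebraMap K M ((x ^ Nat.card k ^ N - x : AA k K) : K)),
        int_ι (x ^ Nat.card k ^ N - x)⟩ : AA k Mt) =
        -(⟨ι (algebraMap K M x), int_ι x⟩ - ⟨ι (algebraMap K M x), int_ι x⟩ ^ Nat.card k ^ N) := by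
      apply Subtype.ext
      change ι (algebraMap K M ((x : K) ^ Nat.card k ^ N - (x : K))) =
        -(ι (algebraMap K M x) - (ι (algebraMap K M x)) ^ Nat.card k ^ N)
      rw [map_sub, map_pow, map_sub, map_pow]
      ring
    rw [h2]
    exact (J g).neg_mem h1
  have hAS : ∀ g, g * φ * g⁻¹ ∈ UK K ι → V g ∈ S := by
    intro g hg
    rw [hS]
    refine ⟨⟨hVp g, ?_, hA g hg⟩, hVP g⟩
    intro h0
    have h1 := hVP g
    rw [h0] at h1
    have h2 : P ∈ (⊥ : Ideal (AA k K)).comap (algebraMap k[X] (AA k K)) := by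
      rw [h1]
      exact Ideal.mem_span_singleton_self P
    rw [Ideal.mem_comap, Ideal.mem_bot] at h2
    have h3 : algebraMap k[X] K P = 0 := congrArg Subtype.val h2
    rw [IsScalarTower.algebraMap_apply k[X] (RatFunc k) K, map_eq_zero,
      map_eq_zero_iff _ (IsFractionRing.injective k[X] (RatFunc k))] at h3
    exact hP.ne_zero h3
  -- claim B
  have hB : ∀ v ∈ S, ∃ g, g * φ * g⁻¹ ∈ UK K ι ∧ V g = v := by
    intro v hv
    rw [hS] at hv
    obtain ⟨⟨hvp, -, hvc⟩, hvP⟩ := hv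
    obtain ⟨-, -, -, h4, h5⟩ := AbvA_main (K := K) (ι := ι) hP hI0 hI0P
    obtain ⟨J1, hJ1, hJ1v⟩ := h4 v hvp
    obtain ⟨g, hg⟩ := h5 J1 hJ1 (by rw [← belowK_comap (K := K) (ι := ι), hJ1v, hvP])
    have hVg : V g = v := by rw [hV, hJdef, ← hg, hJ1v]
    refine ⟨g, ?_, hVg⟩
    obtain ⟨-, -, ⟨u, hu, hu'⟩, -, -⟩ := AbvA_main (K := K) (ι := ι) hP (hJ g) (hJP g)
    rw [← hV, hVg, hvc] at hu'
    have h6 : u * (g * φ * g⁻¹)⁻¹ = 1 := by
      refine hU (J g) (hJ g) (hJP g) _ fun x y hxy => ?_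
      let z : AA k Mt := ⟨(g * φ * g⁻¹ : Mt ≃ₐ[RatFunc k] Mt)⁻¹ (x : Mt), gal_mem _ x.2⟩
      have h7 := hu' z y hxy
      have h8 := hconj g z x (by
        change (x : Mt) = (g * φ * g⁻¹ : Mt ≃ₐ[RatFunc k] Mt)
          ((g * φ * g⁻¹ : Mt ≃ₐ[RatFunc k] Mt)⁻¹ (x : Mt))
        rw [← AlgEquiv.mul_apply, mul_inv_cancel, AlgEquiv.one_apply])
      have h9 := (J g).sub_mem h7 h8
      rwa [sub_sub_sub_cancel_right] at h9
    rw [← mul_inv_eq_one.1 h6]
    exact hu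
  -- claim C
  have hC : ∀ g h, h * φ * h⁻¹ ∈ UK K ι → V g = V h → g * h⁻¹ ∈ UK K ι := by
    intro g h hh hgh
    obtain ⟨h1, h2, -, -, -⟩ := AbvA_main (K := K) (ι := ι) hP (hJ h) (hJP h)
    obtain ⟨u, hu, hu'⟩ := h1 (J g) (hJ g) (by rw [← hV, ← hV, hgh])
    have h3 := h2 (fun σ hσ => hU (J h) (hJ h) (hJP h) σ hσ) (fun x => by
      rw [← hV]
      exact Above_full hP (hVP h) (by rw [hA h hh, hN]) x) (u⁻¹ * (g * h⁻¹)) (by
      ext x
      have h4 : ∀ y : AA k Mt, y ∈ J g ↔ y ∈ pullI u⁻¹ (J h) := fun y => by rw [hu']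
      have h5 := h4 ⟨u (x : Mt), gal_mem u x.2⟩
      rw [mem_pullI] at h5
      have h6 : (⟨u⁻¹ ((⟨u (x : Mt), gal_mem u x.2⟩ : AA k Mt) : Mt),
          gal_mem u⁻¹ (⟨u (x : Mt), gal_mem u x.2⟩ : AA k Mt).2⟩ : AA k Mt) = x := by
        apply Subtype.ext
        change u⁻¹ (u (x : Mt)) = x
        rw [← AlgEquiv.mul_apply, inv_mul_cancel, AlgEquiv.one_apply]
      rw [h6] at h5
      rw [← h5, mem_pullI, hJdef, hJdef, mem_pullI, mem_pullI]
      have h7 : (⟨h⁻¹ ((⟨(u⁻¹ * (g * h⁻¹))⁻¹ (x : Mt), gal_mem (u⁻¹ * (g * h⁻¹))⁻¹ x.2⟩ :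
          AA k Mt) : Mt), gal_mem h⁻¹ (⟨(u⁻¹ * (g * h⁻¹))⁻¹ (x : Mt),
            gal_mem (u⁻¹ * (g * h⁻¹))⁻¹ x.2⟩ : AA k Mt).2⟩ : AA k Mt) =
          ⟨g⁻¹ ((⟨u (x : Mt), gal_mem u x.2⟩ : AA k Mt) : Mt),
            gal_mem g⁻¹ (⟨u (x : Mt), gal_mem u x.2⟩ : AA k Mt).2⟩ := by
        apply Subtype.ext
        change h⁻¹ ((u⁻¹ * (g * h⁻¹))⁻¹ (x : Mt)) = g⁻¹ (u (x : Mt))
        rw [← AlgEquiv.mul_apply, ← AlgEquiv.mul_apply]
        congr 1
        group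
      rw [h7])
    have h8 : g * h⁻¹ = u * (u⁻¹ * (g * h⁻¹)) := by group
    rw [h8]
    exact (UK K ι).mul_mem hu h3
  -- the choice of the Frobenius elements
  have hch : ∀ v : Ideal (AA k K), ∃ g : Mt ≃ₐ[RatFunc k] Mt, v ∈ S →
      g * φ * g⁻¹ ∈ UK K ι ∧ V g = v := by
    intro v
    by_cases hv : v ∈ S
    · obtain ⟨g, hg⟩ := hB v hv
      exact ⟨g, fun _ => hg⟩
    · exact ⟨1, fun h => absurd h hv⟩
  choose γ hγ using hch
  obtain ⟨ρ, hρ⟩ : ∃ ρ : Ideal (AA k K) → (M ≃ₐ[K] M), ∀ v,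
      ∀ h : γ v * φ * (γ v)⁻¹ ∈ UK K ι, ρ v = res ⟨_, h⟩ :=
    ⟨fun v => if h : γ v * φ * (γ v)⁻¹ ∈ UK K ι then res ⟨_, h⟩ else 1, fun v h => dif_pos h⟩
  refine ⟨ρ, ?_, ?_⟩
  · intro v hv
    obtain ⟨h1, h2⟩ := hγ v hv
    rw [hρ v h1]
    refine ⟨belowM ι (J (γ v)), belowM_isPrime (hJ _), ?_, ?_⟩
    · have h3 := aboveK_below (K := K) (ι := ι) (J (γ v))
      rwa [← hV, h2] at h3
    · intro x y hxy
      rw [mem_belowM]
      intro z hz
      have hxi : IsIntegral k[X] (ι (x : M)) := x.2.map (ι.restrictScalars k[X])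
      have hyi : IsIntegral k[X] (ι (y : M)) := y.2.map (ι.restrictScalars k[X])
      have h3 := hconj (γ v) ⟨ι (x : M), hxi⟩ ⟨ι (y : M), hyi⟩ (by
        change ι (y : M) = (γ v * φ * (γ v)⁻¹ : Mt ≃ₐ[RatFunc k] Mt) (ι (x : M))
        rw [hxy, hres])
      have h4 : z = ⟨ι (y : M), hyi⟩ - ⟨ι (x : M), hxi⟩ ^ Nat.card k ^ N := by
        apply Subtype.ext
        rw [hz]
        change ι ((y : M) - (x : M) ^ Nat.card k ^ N) = ι (y : M) - (ι (x : M)) ^ Nat.card k ^ N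
        rw [map_sub, map_pow]
      rw [h4]
      exact h3
  · rw [indF_eq]
    have h1 : ∑ g, val0 res f (g * φ * g⁻¹) =
        ∑ g ∈ Finset.univ.filter (fun g : Mt ≃ₐ[RatFunc k] Mt => g * φ * g⁻¹ ∈ UK K ι),
          val0 res f (g * φ * g⁻¹) := by
      symm
      refine Finset.sum_subset (Finset.subset_univ _) fun g _ hg => ?_
      refine val0_of_not_mem f fun h => hg ?_
      rw [Finset.mem_filter]
      exact ⟨Finset.mem_univ _, h⟩
    rw [h1, ← Finset.sum_fiberwise_of_maps_to (t := S) (g := V) (fun g hg => by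
      rw [Finset.mem_filter] at hg
      exact hAS g hg.2), Finset.mul_sum]
    refine Finset.sum_congr rfl fun v hv => ?_
    obtain ⟨h2, h3⟩ := hγ v hv
    rw [hρ v h2]
    have h4 : ∀ g ∈ (Finset.univ.filter
        (fun g : Mt ≃ₐ[RatFunc k] Mt => g * φ * g⁻¹ ∈ UK K ι)).filter (fun g => V g = v),
        val0 res f (g * φ * g⁻¹) = f (res ⟨_, h2⟩) := by
      intro g hg
      rw [Finset.mem_filter, Finset.mem_filter] at hg
      have h5 := hC g (γ v) h2 (by rw [hg.2, h3])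
      have h6 : g * φ * g⁻¹ = (g * (γ v)⁻¹) * (γ v * φ * (γ v)⁻¹) * (g * (γ v)⁻¹)⁻¹ := by group
      have h7 : val0 res f (g * φ * g⁻¹) =
          f (res (⟨_, h5⟩ * ⟨_, h2⟩ * (⟨_, h5⟩ : UK K ι)⁻¹)) := by
        rw [h6]
        exact val0_of_mem f (⟨_, h5⟩ * ⟨_, h2⟩ * (⟨_, h5⟩ : UK K ι)⁻¹)
      rw [h7, map_mul, map_mul, map_inv, hf]
    rw [Finset.sum_congr rfl h4, Finset.sum_const, nsmul_eq_mul]
    congr 1
    rw [Nat.card_eq_fintype_card, ← Finset.card_univ]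
    norm_cast
    symm
    refine Finset.card_bij (fun (u : UK K ι) _ => (u : Mt ≃ₐ[RatFunc k] Mt) * γ v) ?_ ?_ ?_
    · intro u _
      rw [Finset.mem_filter, Finset.mem_filter]
      refine ⟨⟨Finset.mem_univ _, ?_⟩, ?_⟩
      · have h6 : ((u : Mt ≃ₐ[RatFunc k] Mt) * γ v) * φ * ((u : Mt ≃ₐ[RatFunc k] Mt) * γ v)⁻¹ =
            (u : Mt ≃ₐ[RatFunc k] Mt) * (γ v * φ * (γ v)⁻¹) * (u : Mt ≃ₐ[RatFunc k] Mt)⁻¹ := by
          group
        rw [h6]
        exact (UK K ι).mul_mem ((UK K ι).mul_mem u.2 h2) ((UK K ι).inv_mem u.2)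
      · refine Eq.trans ?_ h3
        generalize γ v = γ₀
        rw [hV, hV]
        ext x
        rw [mem_belowK, mem_belowK, hJdef, hJdef, mem_pullI, mem_pullI]
        have h6 : ((u : Mt ≃ₐ[RatFunc k] Mt) * γ₀)⁻¹ (ι (algebraMap K M x)) =
            γ₀⁻¹ (ι (algebraMap K M x)) := by
          rw [mul_inv_rev, AlgEquiv.mul_apply]
          congr 1
          exact ((UK K ι).inv_mem u.2) x
        have h7 : (⟨((u : Mt ≃ₐ[RatFunc k] Mt) * γ₀)⁻¹ (ι (algebraMap K M x)),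
            gal_mem _ (int_ι x)⟩ : AA k Mt) =
            ⟨γ₀⁻¹ (ι (algebraMap K M x)), gal_mem _ (int_ι x)⟩ := Subtype.ext h6
        exact iff_of_eq (congrArg (fun z : AA k Mt => z ∈ I0) h7)
    · intro u _ u' _ h
      exact Subtype.ext (mul_right_cancel h)
    · intro g hg
      rw [Finset.mem_filter, Finset.mem_filter] at hg
      have h5 := hC g (γ v) h2 (by rw [hg.2, h3])
      exact ⟨⟨_, h5⟩, Finset.mem_univ _, by
        change g * (γ v)⁻¹ * γ v = g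
        rw [inv_mul_cancel_right]⟩

end setting

end Pool.Agent.SmBU
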