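import Pool.Agent.Lib.SmBU.KDefs

/-!
SMITH-U, block B for general `K`: the Galois group of `M / K` acts transitively on the primes above
`v`, Frobenius elements at an unramified prime are conjugate.
-/

set_option autoImplicit false

namespace Pool.Agent.SmBU

open Module Polynomial Pool.Agent.SmB

section conj

variable {k : Type*} [Field k]
  {K : Type*} [Field K] [Algebra (RatFunc k) K] [Algebra k[X] K] [IsScalarTower k[X] (RatFunc k) K]
  {M : Type*} [Field M] [Algebra K M] [Algebra (RatFunc k) M] [IsScalarTower (RatFunc k) K M]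
  [Algebra k[X] M] [IsScalarTower k[X] (RatFunc k) M]

omit [Algebra (RatFunc k) K] [IsScalarTower k[X] (RatFunc k) K] [Algebra (RatFunc k) M]
  [IsScalarTower (RatFunc k) K M] [IsScalarTower k[X] (RatFunc k) M] in
theorem gal_mem_K [IsScalarTower k[X] K M] (g : M ≃ₐ[K] M) {x : M} (hx : IsIntegral k[X] x) :
    IsIntegral k[X] (g x) := hx.map (g.restrictScalars k[X])

theorem tow_KM : IsScalarTower k[X] K M := by
  refine IsScalarTower.of_algebraMap_eq fun p => ?_
  rw [IsScalarTower.algebraMap_apply k[X] (RatFunc k) M,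
    IsScalarTower.algebraMap_apply (RatFunc k) K M,
    IsScalarTower.algebraMap_apply k[X] (RatFunc k) K]

/-- The action on the ring of integers. -/
noncomputable def actK [IsScalarTower k[X] K M] (g : M ≃ₐ[K] M) : AA k M →+* AA k M where
  toFun x := ⟨g x, gal_mem_K g x.2⟩
  map_one' := Subtype.ext (map_one g)
  map_zero' := Subtype.ext (map_zero g)
  map_mul' a b := Subtype.ext (map_mul g (a : M) (b : M))
  map_add' a b := Subtype.ext (map_add g (a : M) (b : M))

omit [Algebra (RatFunc k) K] [IsScalarTower k[X] (RatFunc k) K] [Algebra (RatFunc k) M]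
  [IsScalarTower (RatFunc k) K M] [IsScalarTower k[X] (RatFunc k) M] in
theorem coe_actK [IsScalarTower k[X] K M] (g : M ≃ₐ[K] M) (x : AA k M) :
    ((actK g x : AA k M) : M) = g x := rfl

omit [Algebra (RatFunc k) K] [IsScalarTower k[X] (RatFunc k) K] [Algebra (RatFunc k) M]
  [IsScalarTower (RatFunc k) K M] [IsScalarTower k[X] (RatFunc k) M] in
/-- Transitivity. -/
theorem trans_K [IsScalarTower k[X] K M] [FiniteDimensional K M] [IsGalois K M]
    {v : Ideal (AA k K)} {I J : Ideal (AA k M)} (hI : I.IsPrime) (hJ : J.IsPrime)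
    (hIv : AboveK v I) (hJv : AboveK v J) :
    ∃ g : M ≃ₐ[K] M, J = I.comap (actK g⁻¹) := by
  have hcoe : ∀ x : AA k K, IsIntegral k[X] (algebraMap K M x) := fun x =>
    IsIntegral.map (IsScalarTower.toAlgHom k[X] K M) x.2
  let θ : AA k K →+* AA k M :=
    { toFun := fun x => ⟨algebraMap K M x, hcoe x⟩
      map_one' := Subtype.ext (map_one (algebraMap K M))
      map_zero' := Subtype.ext (map_zero (algebraMap K M))
      map_mul' := fun a b => Subtype.ext (map_mul (algebraMap K M) (a : K) (b : K))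
      map_add' := fun a b => Subtype.ext (map_add (algebraMap K M) (a : K) (b : K)) }
  let _ : Algebra (AA k K) (AA k M) := θ.toAlgebra
  let _ : MulSemiringAction (M ≃ₐ[K] M) (AA k M) :=
    { smul := fun g x => actK g x
      one_smul := fun x => Subtype.ext rfl
      mul_smul := fun g h x => Subtype.ext rfl
      smul_zero := fun g => map_zero (actK g)
      smul_add := fun g x y => map_add (actK g) x y
      smul_one := fun g => map_one (actK g)
      smul_mul := fun g x y => map_mul (actK g) x y }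
  have hsm : ∀ (g : M ≃ₐ[K] M) (x : AA k M), g • x = actK g x := fun _ _ => rfl
  have hinv : Algebra.IsInvariant (AA k K) (AA k M) (M ≃ₐ[K] M) := by
    refine ⟨fun b hb => ?_⟩
    have h1 : (b : M) ∈ Set.range (algebraMap K M) := by
      rw [IsGalois.mem_range_algebraMap_iff_fixed]
      intro g
      exact congrArg (fun z : AA k M => (z : M)) (hb g)
    obtain ⟨y, hy⟩ := h1
    have h2 : IsIntegral k[X] (algebraMap K M y) := hy ▸ b.2
    have h3 : IsIntegral k[X] y :=
      (isIntegral_algHom_iff (IsScalarTower.toAlgHom k[X] K M) (algebraMap K M).injective).1 h2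
    exact ⟨⟨y, h3⟩, Subtype.ext hy⟩
  have hcomm : SMulCommClass (M ≃ₐ[K] M) (AA k K) (AA k M) := by
    refine ⟨fun g p x => ?_⟩
    rw [hsm, hsm, Algebra.smul_def, Algebra.smul_def, map_mul]
    congr 1
    exact Subtype.ext (g.commutes _)
  have hund : I.under (AA k K) = J.under (AA k K) := by
    ext x
    change θ x ∈ I ↔ θ x ∈ J
    rw [hIv x (θ x) rfl, hJv x (θ x) rfl]
  obtain ⟨g, hg⟩ := Algebra.IsInvariant.exists_smul_of_under_eq (AA k K) (AA k M)
    (M ≃ₐ[K] M) I J hund
  refine ⟨g, ?_⟩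
  ext x
  rw [hg, Ideal.mem_pointwise_smul_iff_inv_smul_mem, Ideal.mem_comap, hsm]

/-- Frobenius elements at an unramified prime are conjugate. -/
theorem frobK_conj [FiniteDimensional K M] [IsGalois K M] {v : Ideal (AA k K)}
    (hU : UnramK M v) {Q : ℕ} {σ τ : M ≃ₐ[K] M} (hσ : FrobK v Q σ) (hτ : FrobK v Q τ) :
    ∃ g, τ = g * σ * g⁻¹ := by
  have := tow_KM (k := k) (K := K) (M := M)
  obtain ⟨I, hI, hIv, hI'⟩ := hσ
  obtain ⟨J, hJ, hJv, hJ'⟩ := hτ
  obtain ⟨g, hg⟩ := trans_K hI hJ hIv hJv
  refine ⟨g, ?_⟩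
  have h1 : ∀ x y : AA k M, (y : M) = (g * σ * g⁻¹ : M ≃ₐ[K] M) x → y - x ^ Q ∈ J := by
    intro x y hxy
    rw [hg, Ideal.mem_comap, map_sub, map_pow]
    refine hI' _ _ ?_
    rw [coe_actK, coe_actK, hxy]
    exact g.symm_apply_apply _
  have h2 : (g * σ * g⁻¹ : M ≃ₐ[K] M) * τ⁻¹ = 1 := by
    refine hU J hJ hJv _ fun x y hxy => ?_
    let z : AA k M := actK τ⁻¹ x
    have h3 := h1 z y (by rw [hxy]; rfl)
    have h4 := hJ' z x (by
      rw [coe_actK]
      exact (τ.apply_symm_apply _).symm)
    have h5 := J.sub_mem h3 h4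
    rwa [sub_sub_sub_cancel_right] at h5
  exact (mul_inv_eq_one.1 h2).symm

end conj

end Pool.Agent.SmBU
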