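import Pool.Agent.Lib.SmBU.Ram

/-!
SMITH-U, block B for general `K`: the group `UK = Gal(Mt / K)` acting on the ring of integers of
`Mt`: transitivity on the primes above a prime of `K`, decomposition groups, Frobenius elements.
-/

set_option autoImplicit false

namespace Pool.Agent.SmBU

open Module Polynomial Pool.Agent.SmB

section abs

open Pointwise

variable {R O A G : Type*} [CommRing R] [CommRing O] [CommRing A] [Algebra R O] [Algebra R A]
  [Algebra O A] [IsScalarTower R O A] [Group G] [Finite G] [MulSemiringAction G A]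
  [SMulCommClass G R A] (U : Subgroup G) [SMulCommClass U O A] [Algebra.IsInvariant O A U]

/-- If the residue fields of `O` and `R` are the same, the decomposition group is contained in
`U`. -/
theorem AbvA_stab {I : Ideal A} [hI : I.IsPrime]
    (hin : ∀ s : G, (∀ x : A, s • x - x ∈ I) → s = 1)
    (hfull : ∀ x : O, ∃ r : R, algebraMap O A (x - algebraMap R O r) ∈ I) {w : G}
    (hw : w • I = I) : w ∈ U := by
  have hlo : I.LiesOver (I.under O) := ⟨rfl⟩
  have hloR : I.LiesOver (I.under R) := ⟨rfl⟩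
  have hwm : ∀ x ∈ I, w • x ∈ I := by
    intro x hx
    rw [← hw]
    exact Ideal.smul_mem_pointwise_smul w x I hx
  obtain ⟨e, he⟩ : ∃ e : (A ⧸ I) ≃+* (A ⧸ I), ∀ x : A,
      e (Ideal.Quotient.mk I x) = Ideal.Quotient.mk I (w • x) :=
    ⟨(Ideal.Quotient.stabilizerHom I (I.under R) G ⟨w, hw⟩ :
      (A ⧸ I) ≃ₐ[R ⧸ I.under R] (A ⧸ I)).toRingEquiv, fun x => rfl⟩
  have hcom : ∀ o : O ⧸ I.under O, e (algebraMap (O ⧸ I.under O) (A ⧸ I) o) =
      algebraMap (O ⧸ I.under O) (A ⧸ I) o := by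
    intro o
    obtain ⟨x, rfl⟩ := Ideal.Quotient.mk_surjective o
    obtain ⟨r, hr⟩ := hfull x
    have h1 : algebraMap (O ⧸ I.under O) (A ⧸ I) (Ideal.Quotient.mk _ x) =
        Ideal.Quotient.mk I (algebraMap O A x) := rfl
    have h2 : Ideal.Quotient.mk I (algebraMap O A x) = Ideal.Quotient.mk I (algebraMap R A r) := by
      rw [Ideal.Quotient.eq, IsScalarTower.algebraMap_apply R O A, ← map_sub]
      exact hr
    rw [h1, h2, he, smul_algebraMap]
  obtain ⟨⟨u, hu⟩, hul⟩ := Ideal.Quotient.stabilizerHom_surjective U (I.under O) I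
    (AlgEquiv.ofRingEquiv (f := e) hcom)
  have h3 : ∀ x : A, u • x - w • x ∈ I := by
    intro x
    rw [← Ideal.Quotient.eq]
    have h4 := DFunLike.congr_fun hul (Ideal.Quotient.mk I x)
    have h5 : (AlgEquiv.ofRingEquiv (f := e) hcom) (Ideal.Quotient.mk I x) =
      Ideal.Quotient.mk I (w • x) := he x
    rw [h5] at h4
    exact h4
  have h6 : w⁻¹ * (u : G) = 1 := by
    apply hin
    intro x
    have h7 := h3 x
    have h8 : w⁻¹ • (u • x - w • x) ∈ w⁻¹ • I := Ideal.smul_mem_pointwise_smul w⁻¹ _ I h7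
    have h9 : w⁻¹ • I = I := by
      rw [inv_smul_eq_iff, hw]
    rw [h9, smul_sub, inv_smul_smul] at h8
    rw [mul_smul]
    exact h8
  have h10 : w = u := by
    rw [inv_mul_eq_one] at h6
    exact h6
  rw [h10]
  exact u.2

end abs

section setting

variable {k : Type*} [Field k] [Finite k]
  {K : Type*} [Field K] [Algebra (RatFunc k) K] [Algebra k[X] K] [IsScalarTower k[X] (RatFunc k) K]
  {M : Type*} [Field M] [Algebra K M] [Algebra (RatFunc k) M] [IsScalarTower (RatFunc k) K M]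
  {Mt : Type*} [Field Mt] [Algebra (RatFunc k) Mt] [Algebra k[X] Mt]
  [IsScalarTower k[X] (RatFunc k) Mt] [FiniteDimensional (RatFunc k) Mt] [IsGalois (RatFunc k) Mt]
  {ι : M →ₐ[RatFunc k] Mt}

omit [Finite k] in
/-- The invariants of `UK` are the elements of `K`. -/
theorem AbvA_inv {b : Mt} (hb : IsIntegral k[X] b) (h : ∀ u ∈ UK K ι, u b = b) :
    ∃ y : AA k K, ι (algebraMap K M y) = b := by
  obtain ⟨κ, hκ⟩ : ∃ κ : K →ₐ[RatFunc k] Mt, ∀ y, κ y = ι (algebraMap K M y) :=
    ⟨ι.comp (IsScalarTower.toAlgHom (RatFunc k) K M), fun y => rfl⟩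
  have h1 : b ∈ IntermediateField.fixedField κ.fieldRange.fixingSubgroup := by
    rw [IntermediateField.mem_fixedField_iff]
    intro g hg
    apply h
    intro y
    rw [← hκ]
    exact (IntermediateField.mem_fixingSubgroup_iff _ _).1 hg _ ⟨y, rfl⟩
  rw [IsGalois.fixedField_fixingSubgroup] at h1
  obtain ⟨y, hy⟩ := h1
  have hy' : κ y = b := hy
  refine ⟨⟨y, ?_⟩, ?_⟩
  · have h2 : IsIntegral k[X] ((κ.restrictScalars k[X]) y) := by
      change IsIntegral k[X] (κ y)
      rw [hy']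
      exact hb
    exact (isIntegral_algHom_iff (κ.restrictScalars k[X]) κ.injective).1 h2
  · rw [← hκ]
    exact hy'

open Pointwise in
/-- The three facts about `UK`. -/
theorem AbvA_main {P : k[X]} (hP : Irreducible P) {J : Ideal (AA k Mt)} (hJ : J.IsPrime)
    (hJP : J.comap (algebraMap k[X] (AA k Mt)) = Ideal.span {P}) :
    (∀ J' : Ideal (AA k Mt), J'.IsPrime →
      belowK (K := K) ι int_ι J = belowK (K := K) ι int_ι J' →
      ∃ u ∈ UK K ι, J' = pullI u⁻¹ J) ∧
    ((∀ σ : Mt ≃ₐ[RatFunc k] Mt, (∀ x y : AA k Mt, (y : Mt) = σ x → y - x ∈ J) → σ = 1) →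
      (∀ x : AA k K, ∃ p : k[X], x - algebraMap k[X] (AA k K) p ∈ belowK (K := K) ι int_ι J) →
      ∀ w : Mt ≃ₐ[RatFunc k] Mt, pullI w⁻¹ J = J → w ∈ UK K ι) ∧
    (∃ u ∈ UK K ι, ∀ x y : AA k Mt, (y : Mt) = u x →
      y - x ^ Nat.card (AA k K ⧸ belowK (K := K) ι int_ι J) ∈ J) ∧
    (∀ v : Ideal (AA k K), v.IsPrime → ∃ J' : Ideal (AA k Mt), J'.IsPrime ∧
      belowK (K := K) ι int_ι J' = v) ∧
    ∀ J' : Ideal (AA k Mt), J'.IsPrime →
      J'.comap (algebraMap k[X] (AA k Mt)) = Ideal.span {P} →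
      ∃ g : Mt ≃ₐ[RatFunc k] Mt, J' = pullI g⁻¹ J := by
  have hinjX : Function.Injective (algebraMap k[X] Mt) := by
    rw [IsScalarTower.algebraMap_eq k[X] (RatFunc k) Mt]
    exact (algebraMap (RatFunc k) Mt).injective.comp (IsFractionRing.injective k[X] (RatFunc k))
  have hfr : IsFractionRing (AA k Mt) Mt :=
    integralClosure.isFractionRing_of_finite_extension (RatFunc k) Mt
  have hfinA : Module.Finite k[X] (AA k Mt) :=
    IsIntegralClosure.finite k[X] (RatFunc k) Mt (AA k Mt)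
  let act := IsIntegralClosure.MulSemiringAction k[X] (RatFunc k) Mt (AA k Mt)
  have hsm : ∀ (g : Mt ≃ₐ[RatFunc k] Mt) (x : AA k Mt), ((g • x : AA k Mt) : Mt) = g x :=
    fun g x => algebraMap_galRestrict_apply k[X] g x
  have hcomm : SMulCommClass (Mt ≃ₐ[RatFunc k] Mt) k[X] (AA k Mt) := by
    refine ⟨fun g p x => Subtype.ext ?_⟩
    rw [hsm]
    change g (p • (x : Mt)) = p • (((g • x : AA k Mt)) : Mt)
    rw [hsm, Algebra.smul_def, Algebra.smul_def, map_mul,
      IsScalarTower.algebraMap_apply k[X] (RatFunc k) Mt, g.commutes]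
  let eOA : AA k K →+* AA k Mt :=
    { toFun := fun x => ⟨ι (algebraMap K M x), int_ι x⟩
      map_one' := Subtype.ext (by
        change ι (algebraMap K M 1) = 1
        rw [map_one, map_one])
      map_zero' := Subtype.ext (by
        change ι (algebraMap K M 0) = 0
        rw [map_zero, map_zero])
      map_mul' := fun x y => Subtype.ext (by
        change ι (algebraMap K M ((x : K) * y)) = ι (algebraMap K M x) * ι (algebraMap K M y)
        rw [map_mul, map_mul])
      map_add' := fun x y => Subtype.ext (by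
        change ι (algebraMap K M ((x : K) + y)) = ι (algebraMap K M x) + ι (algebraMap K M y)
        rw [map_add, map_add]) }
  have heOA : ∀ x : AA k K, ((eOA x : AA k Mt) : Mt) = ι (algebraMap K M x) := fun x => rfl
  let algOA : Algebra (AA k K) (AA k Mt) := eOA.toAlgebra
  have hal : ∀ x : AA k K, ((algebraMap (AA k K) (AA k Mt) x : AA k Mt) : Mt) =
      ι (algebraMap K M x) := fun x => rfl
  have htow : IsScalarTower k[X] (AA k K) (AA k Mt) := by
    refine IsScalarTower.of_algebraMap_eq fun p => Subtype.ext ?_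
    rw [hal]
    exact (ι_poly p).symm
  have hcommU : SMulCommClass (UK K ι) (AA k K) (AA k Mt) := by
    refine ⟨fun u o x => Subtype.ext ?_⟩
    have h1 : ((u • (o • x) : AA k Mt) : Mt) = (u : Mt ≃ₐ[RatFunc k] Mt) ((o • x : AA k Mt) : Mt) :=
      hsm _ _
    rw [h1, Algebra.smul_def, Algebra.smul_def]
    change (u : Mt ≃ₐ[RatFunc k] Mt) (ι (algebraMap K M o) * (x : Mt)) =
      ι (algebraMap K M o) * ((((u : Mt ≃ₐ[RatFunc k] Mt) • x : AA k Mt)) : Mt)
    rw [hsm, map_mul, u.2 o]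
  have hinv : Algebra.IsInvariant (AA k K) (AA k Mt) (UK K ι) := by
    refine ⟨fun b hb => ?_⟩
    obtain ⟨y, hy⟩ := AbvA_inv (ι := ι) (K := K) b.2 fun u hu => by
      have h1 := congrArg (Subtype.val) (hb ⟨u, hu⟩)
      have h2 : ((((⟨u, hu⟩ : UK K ι) • b : AA k Mt)) : Mt) = u (b : Mt) := hsm u b
      rw [← h2]
      exact h1
    exact ⟨y, Subtype.ext hy⟩
  have hpull : ∀ (g : Mt ≃ₐ[RatFunc k] Mt) (I : Ideal (AA k Mt)), g • I = pullI g⁻¹ I := by
    intro g I
    ext x
    rw [Ideal.mem_pointwise_smul_iff_inv_smul_mem, mem_pullI]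
    have h1 : (g⁻¹ • x : AA k Mt) = ⟨g⁻¹ (x : Mt), gal_mem g⁻¹ x.2⟩ := Subtype.ext (hsm _ _)
    rw [h1]
  have hunder : ∀ I : Ideal (AA k Mt), I.under (AA k K) = belowK (K := K) ι int_ι I := by
    intro I
    ext x
    rfl
  refine ⟨?_, ?_, ?_, ?_, ?_⟩
  · intro J' hJ' h
    obtain ⟨u, hu⟩ := Algebra.IsInvariant.exists_smul_of_under_eq (AA k K) (AA k Mt) (UK K ι) J J'
      (by rw [hunder, hunder, h])
    refine ⟨u, u.2, ?_⟩
    rw [hu, ← hpull]
    rfl
  · intro hin hfull w hw
    refine AbvA_stab (R := k[X]) (O := AA k K) (UK K ι) (I := J) ?_ ?_ ?_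
    · intro s hs
      apply hin
      intro x y hxy
      have h1 : y = s • x := Subtype.ext (by rw [hsm, hxy])
      rw [h1]
      exact hs x
    · intro x
      obtain ⟨p, hp⟩ := hfull x
      exact ⟨p, hp⟩
    · rw [hpull, hw]
  · have hmax : (Ideal.span {P} : Ideal k[X]).IsMaximal :=
      PrincipalIdealRing.isMaximal_of_irreducible hP
    have hlo : J.LiesOver (Ideal.span {P}) := ⟨hJP.symm⟩
    have hf0 : Finite (k[X] ⧸ Ideal.span {P}) := by
      let pb := AdjoinRoot.powerBasis hP.ne_zero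
      have : Module.Finite k (AdjoinRoot P) := Module.Finite.of_basis pb.basis
      exact Module.finite_of_finite k (M := AdjoinRoot P)
    have hf : Finite (AA k Mt ⧸ J) := Module.finite_of_finite (k[X] ⧸ Ideal.span {P})
    obtain ⟨u, hu⟩ := IsArithFrobAt.exists_of_isInvariant (AA k K) (UK K ι) J
    refine ⟨u, u.2, ?_⟩
    intro x y hxy
    have h1 := hu x
    have h2 : y = u • x := Subtype.ext (by
      rw [hxy]
      exact (hsm u x).symm)
    rw [h2]
    exact h1
  · intro v hv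
    have hint : Algebra.IsIntegral (AA k K) (AA k Mt) :=
      Algebra.IsInvariant.isIntegral (AA k K) (AA k Mt) (UK K ι)
    have hker : RingHom.ker (algebraMap (AA k K) (AA k Mt)) ≤ v := by
      intro x hx
      have h1 : ι (algebraMap K M x) = 0 := congrArg Subtype.val (RingHom.mem_ker.1 hx)
      have h2 : (x : K) = 0 := by
        rw [map_eq_zero_iff ι ι.injective] at h1
        exact (map_eq_zero (algebraMap K M)).1 h1
      rw [show x = 0 from Subtype.ext h2]
      exact v.zero_mem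
    obtain ⟨J', hJ', hJv⟩ := Ideal.exists_ideal_over_prime_of_isIntegral_of_isDomain
      (S := AA k Mt) v hker
    exact ⟨J', hJ', by rw [← hunder]; exact hJv⟩
  · intro J' hJ' hJP'
    have hinvG : Algebra.IsInvariant k[X] (AA k Mt) (Mt ≃ₐ[RatFunc k] Mt) :=
      Algebra.isInvariant_of_isGalois k[X] (RatFunc k) Mt (AA k Mt)
    obtain ⟨g, hg⟩ := Algebra.IsInvariant.exists_smul_of_under_eq k[X] (AA k Mt)
      (Mt ≃ₐ[RatFunc k] Mt) J J' (hJP.trans hJP'.symm)
    exact ⟨g, by rw [hg, hpull]⟩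

end setting

end Pool.Agent.SmBU
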