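import Pool.Agent.Lib.SmB.P3Model

/-!
SMITH-U, block B for general `K`: the geometric model of a finite Galois extension `M/k(t)` of any
degree (adapted from `SmB/P3Model`, where the degree is a power of `2`).
-/

set_option autoImplicit false

namespace Pool.Agent.SmBU

open Module Polynomial Pool.Agent.SmB

universe u v w

section

variable {k : Type u} [Field k] [Finite k] {M : Type v} [Field M] [Algebra k[X] M]
  [Algebra (RatFunc k) M] [IsScalarTower k[X] (RatFunc k) M] [FiniteDimensional (RatFunc k) M]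
  [IsGalois (RatFunc k) M] [Algebra k M] [IsScalarTower k k[X] M]

private theorem Geo_int (σ : M ≃ₐ[RatFunc k] M) {z : M} (hz : IsIntegral k z) :
    IsIntegral k (σ z) := by
  haveI : IsScalarTower k (RatFunc k) M := by
    refine IsScalarTower.of_algebraMap_eq fun a => ?_
    rw [IsScalarTower.algebraMap_apply k k[X] M, IsScalarTower.algebraMap_apply k[X] (RatFunc k) M,
      IsScalarTower.algebraMap_apply k k[X] (RatFunc k)]
  exact hz.map (σ.restrictScalars k)

theorem geo_aux2 {F : Type u} [Field F] [Algebra k F] [IsAlgClosed F] [Algebra.IsAlgebraic k F]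
    {Ω : Type u} [Field Ω] [Algebra (RatFunc F) Ω] [IsAlgClosed Ω]
    [Algebra.IsAlgebraic (RatFunc F) Ω] (N : ℕ) (σ : M ≃ₐ[RatFunc k] M) (hσ : CompN k N σ) :
    ∃ (L : Type u) (_ : Field L) (_ : Algebra (RatFunc F) L)
      (_ : Algebra F[X] L) (_ : Algebra F L) (_ : IsScalarTower F F[X] L)
      (_ : IsScalarTower F[X] (RatFunc F) L) (_ : FiniteDimensional (RatFunc F) L)
      (_ : IsGalois (RatFunc F) L) (j : M →+* L) (Θ : L ≃+* L)
      (res : (L ≃ₐ[RatFunc F] L) →* (M ≃ₐ[RatFunc k] M)),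
      (∀ h : k[X], j (algebraMap k[X] M h) = algebraMap F[X] L (h.map (algebraMap k F))) ∧
      FrobLift F ((Nat.card k) ^ N) Θ ∧ (∀ x, Θ (j x) = j (σ x)) ∧
      (∀ g x, g (j x) = j (res g x)) ∧ Function.Injective res ∧
      (∀ τ : M ≃ₐ[RatFunc k] M, CompN k N τ ↔ ∃ g, τ = res g * σ) ∧
      finrank (RatFunc F) L ∣ finrank (RatFunc k) M ∧
      (∀ (P : k[X]) (c : F), Irreducible P → UnramM M P → aeval c P = 0 →
        UnramM L (X - C c)) := by
  classical
  obtain ⟨j₀, hj₀⟩ : ∃ j₀ : M →+* Ω,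
      ∀ a, j₀ (algebraMap (RatFunc k) M a) = algebraMap (RatFunc F) Ω (ratMap k F a) := by
    letI : Algebra (RatFunc k) Ω := ((algebraMap (RatFunc F) Ω).comp (ratMap k F)).toAlgebra
    let j₁ : M →ₐ[RatFunc k] Ω := IsAlgClosed.lift
    exact ⟨j₁, fun a => j₁.commutes a⟩
  obtain ⟨hfin, hgal⟩ := p3_cmp (ratMap k F) j₀ hj₀
  obtain ⟨L, hL⟩ : ∃ L : IntermediateField (RatFunc F) Ω,
    L = IntermediateField.adjoin (RatFunc F) (Set.range j₀) := ⟨_, rfl⟩
  rw [← hL] at hfin hgal
  obtain ⟨Φ, hC, hX, hK⟩ := p3_frob k F N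
  obtain ⟨Θ₁, σ₁, hΘE, hΘM⟩ := p3_theta (ratMap k F) j₀ hj₀ Φ hK L hL
  have hjL : ∀ m, j₀ m ∈ L := by
    intro m
    rw [hL]
    exact IntermediateField.subset_adjoin _ _ ⟨m, rfl⟩
  let j : M →+* L := RingHom.codRestrict j₀ L hjL
  have hjj : ∀ x, (j x : Ω) = j₀ x := fun x => rfl
  have hj : ∀ a, j (algebraMap (RatFunc k) M a) = algebraMap (RatFunc F) L (ratMap k F a) := by
    intro a
    apply Subtype.ext
    rw [hjj, hj₀]
    rfl
  letI iX : Algebra F[X] L := ((algebraMap (RatFunc F) L).comp (algebraMap F[X] (RatFunc F))).toAlgebra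
  letI iF : Algebra F L := ((algebraMap F[X] L).comp C).toAlgebra
  haveI t1 : IsScalarTower F F[X] L := IsScalarTower.of_algebraMap_eq fun _ => rfl
  haveI t2 : IsScalarTower F[X] (RatFunc F) L := IsScalarTower.of_algebraMap_eq fun _ => rfl
  have hij : ∀ h : k[X], j (algebraMap k[X] M h) =
      algebraMap (RatFunc F) L (algebraMap F[X] (RatFunc F) (h.map (algebraMap k F))) := by
    intro h
    rw [IsScalarTower.algebraMap_apply k[X] (RatFunc k) M, hj, ratMap_alg]
  have hij' : ∀ h : k[X], j (algebraMap k[X] M h) =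
      algebraMap F[X] L (h.map (algebraMap k F)) := hij
  obtain ⟨res, hres⟩ := p3_res (ratMap k F) j hj
  -- automorphisms of `M` trivial on the constants come from `L`
  have hsurj : ∀ τ : M ≃ₐ[RatFunc k] M, (∀ z, IsIntegral k z → τ z = z) → ∃ g, res g = τ := by
    intro τ hτ
    exact p3_range j res hres τ fun x y hxy => p3_key (algebraMap (RatFunc F) L) j hij τ hτ x y hxy
  have hconst : ∀ z, IsIntegral k z → ∃ c : F, j z = algebraMap F[X] L (C c) :=
    fun z hz => p3_const j hij' z hz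
  have hrescst : ∀ g z, IsIntegral k z → res g z = z := by
    intro g z hz
    obtain ⟨c, hc⟩ := hconst z hz
    apply j.injective
    rw [← hres, hc]
    exact g.commutes _
  have hσ₁ : ∀ z, IsIntegral k z → σ₁ z = z ^ Nat.card k ^ N := by
    intro z hz
    obtain ⟨c, hc⟩ := hconst z hz
    apply j.injective
    have h1 : Θ₁ (j z) = j (σ₁ z) := Subtype.ext (hΘM (j z) z rfl)
    rw [← h1, map_pow, hc]
    change Θ₁ (algebraMap (RatFunc F) L (algebraMap F[X] (RatFunc F) (C c))) =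
      (algebraMap (RatFunc F) L (algebraMap F[X] (RatFunc F) (C c))) ^ _
    rw [hΘE, hC, ← map_pow, ← map_pow, ← map_pow]
  obtain ⟨g₀, hg₀⟩ := hsurj (σ * σ₁⁻¹) (by
    intro z hz
    have hz' : IsIntegral k (σ₁⁻¹ z) := Geo_int σ₁⁻¹ hz
    have h1 : σ₁ (σ₁⁻¹ z) = z := by
      rw [← AlgEquiv.mul_apply, mul_inv_cancel, AlgEquiv.one_apply]
    rw [AlgEquiv.mul_apply, hσ _ hz', ← hσ₁ _ hz', h1])
  have hsum : ∀ g x, g (Θ₁ (j x)) = j (res g (σ₁ x)) := by
    intro g x
    have h1 : Θ₁ (j x) = j (σ₁ x) := Subtype.ext (hΘM (j x) x rfl)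
    rw [h1, hres]
  have hinj1 : ∀ g, res g = 1 → g = 1 := by
    intro g hg
    refine AlgEquiv.ext fun x => ?_
    rw [AlgEquiv.one_apply]
    obtain ⟨x, hx⟩ := x
    have hx' : x ∈ IntermediateField.adjoin (RatFunc F) (Set.range j₀) := hL ▸ hx
    have key : ∀ y (hy : y ∈ IntermediateField.adjoin (RatFunc F) (Set.range j₀)),
        ∀ hy' : y ∈ L, g ⟨y, hy'⟩ = ⟨y, hy'⟩ := by
      intro y hy
      induction hy using IntermediateField.adjoin_induction with
      | mem x h =>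
        obtain ⟨m, rfl⟩ := h
        intro hy'
        have h1 : (⟨j₀ m, hy'⟩ : L) = j m := rfl
        rw [h1, hres, hg]
        rfl
      | algebraMap y =>
        intro hy'
        exact g.commutes y
      | add x y hx hy ihx ihy =>
        intro hy'
        have hxL : x ∈ L := hL ▸ hx
        have hyL : y ∈ L := hL ▸ hy
        have h1 : (⟨x + y, hy'⟩ : L) = ⟨x, hxL⟩ + ⟨y, hyL⟩ := rfl
        rw [h1, map_add, ihx, ihy]
      | inv x hx ihx =>
        intro hy'
        have hxL : x ∈ L := hL ▸ hx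
        have h1 : (⟨x⁻¹, hy'⟩ : L) = (⟨x, hxL⟩ : L)⁻¹ := rfl
        rw [h1, map_inv₀, ihx]
      | mul x y hx hy ihx ihy =>
        intro hy'
        have hxL : x ∈ L := hL ▸ hx
        have hyL : y ∈ L := hL ▸ hy
        have h1 : (⟨x * y, hy'⟩ : L) = ⟨x, hxL⟩ * ⟨y, hyL⟩ := rfl
        rw [h1, map_mul, ihx, ihy]
    exact key x hx' hx
  have hinj : Function.Injective res := (injective_iff_map_eq_one res).2 hinj1
  refine ⟨L, inferInstance, inferInstance, iX, iF, t1, t2, hfin, hgal, j,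
    Θ₁.trans g₀.toRingEquiv, res, hij', ⟨?_, ?_⟩, ?_, hres, hinj, ?_, ?_, ?_⟩
  · change g₀ (Θ₁ (algebraMap (RatFunc F) L (algebraMap F[X] (RatFunc F) X))) =
      algebraMap (RatFunc F) L (algebraMap F[X] (RatFunc F) X)
    rw [hΘE, hX]
    exact g₀.commutes _
  · intro c
    change g₀ (Θ₁ (algebraMap (RatFunc F) L (algebraMap F[X] (RatFunc F) (C c)))) =
      algebraMap (RatFunc F) L (algebraMap F[X] (RatFunc F) (C (c ^ Nat.card k ^ N)))
    rw [hΘE, hC]
    exact g₀.commutes _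
  · intro x
    change g₀ (Θ₁ (j x)) = j (σ x)
    rw [hsum, hg₀, AlgEquiv.mul_apply]
    congr 2
    rw [← AlgEquiv.mul_apply, inv_mul_cancel, AlgEquiv.one_apply]
  · intro τ
    constructor
    · intro hτ
      obtain ⟨g, hg⟩ := hsurj (τ * σ⁻¹) (by
        intro z hz
        have hz' : IsIntegral k (σ⁻¹ z) := Geo_int σ⁻¹ hz
        have h1 : σ (σ⁻¹ z) = z := by
          rw [← AlgEquiv.mul_apply, mul_inv_cancel, AlgEquiv.one_apply]
        rw [AlgEquiv.mul_apply, hτ _ hz', ← hσ _ hz', h1])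
      exact ⟨g, by rw [hg, inv_mul_cancel_right]⟩
    · rintro ⟨g, rfl⟩ x hx
      rw [AlgEquiv.mul_apply, hrescst g _ (Geo_int σ hx), hσ x hx]
  · have h1 : Nat.card (L ≃ₐ[RatFunc F] L) = finrank (RatFunc F) L :=
      IsGalois.card_aut_eq_finrank _ _
    have h2 : Nat.card (M ≃ₐ[RatFunc k] M) = finrank (RatFunc k) M :=
      IsGalois.card_aut_eq_finrank _ _
    have h3 : Nat.card (L ≃ₐ[RatFunc F] L) = Nat.card (MonoidHom.range res) :=
      Nat.card_congr (MonoidHom.ofInjective hinj).toEquiv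
    rw [← h1, h3, ← h2]
    exact Subgroup.card_subgroup_dvd_card _
  · intro P c hP hu hc
    exact p3_unram j hij' res hres hinj1 hP hu hc

/-- The geometric model of `M` (for every `N` and compatible `σ`): `F` is an algebraic closure of
`k`, `L` is the compositum of `M` and `F(t)`. -/
theorem geo_model2 (N : ℕ) (σ : M ≃ₐ[RatFunc k] M) (hσ : CompN k N σ) :
    ∃ (F : Type u) (_ : Field F) (_ : Algebra k F) (_ : IsAlgClosed F)
      (_ : Algebra.IsAlgebraic k F) (L : Type u) (_ : Field L) (_ : Algebra (RatFunc F) L)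
      (_ : Algebra F[X] L) (_ : Algebra F L) (_ : IsScalarTower F F[X] L)
      (_ : IsScalarTower F[X] (RatFunc F) L) (_ : FiniteDimensional (RatFunc F) L)
      (_ : IsGalois (RatFunc F) L) (j : M →+* L) (Θ : L ≃+* L)
      (res : (L ≃ₐ[RatFunc F] L) →* (M ≃ₐ[RatFunc k] M)),
      (∀ h : k[X], j (algebraMap k[X] M h) = algebraMap F[X] L (h.map (algebraMap k F))) ∧
      FrobLift F ((Nat.card k) ^ N) Θ ∧ (∀ x, Θ (j x) = j (σ x)) ∧
      (∀ g x, g (j x) = j (res g x)) ∧ Function.Injective res ∧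
      (∀ τ : M ≃ₐ[RatFunc k] M, CompN k N τ ↔ ∃ g, τ = res g * σ) ∧
      finrank (RatFunc F) L ∣ finrank (RatFunc k) M ∧
      (∀ (P : k[X]) (c : F), Irreducible P → UnramM M P → aeval c P = 0 →
        UnramM L (X - C c)) :=
  ⟨AlgebraicClosure k, inferInstance, inferInstance, inferInstance, inferInstance,
    geo_aux2 (F := AlgebraicClosure k) (Ω := AlgebraicClosure (RatFunc (AlgebraicClosure k)))
      N σ hσ⟩

end

end Pool.Agent.SmBU
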