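import Pool.Agent.Lib.SmB.P4Num

/-!
SMITH-U, block B for general `K`: the bound in the final form, for a given geometric model
(adapted from `SmB/P4Num`).
-/

set_option autoImplicit false

namespace Pool.Agent.SmBU

open Module Polynomial Pool.Agent.SmB

section

variable {k : Type*} [Field k] [Finite k] {M : Type*} [Field M] [Algebra k[X] M]
  [Algebra (RatFunc k) M] [IsScalarTower k[X] (RatFunc k) M] [FiniteDimensional (RatFunc k) M]
  [IsGalois (RatFunc k) M] [Algebra k M] [IsScalarTower k k[X] M]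
variable {F : Type*} [Field F] [Algebra k F] [IsAlgClosed F] [Algebra.IsAlgebraic k F]
  {L : Type*} [Field L] [Algebra (RatFunc F) L] [Algebra F[X] L] [Algebra F L]
  [IsScalarTower F F[X] L] [IsScalarTower F[X] (RatFunc F) L] [FiniteDimensional (RatFunc F) L]
  [IsGalois (RatFunc F) L]

theorem bound_model2 {N : ℕ} (hN : N ≠ 0) {j : M →+* L}
    (hj : ∀ h : k[X], j (algebraMap k[X] M h) = algebraMap F[X] L (h.map (algebraMap k F)))
    {Θ : L ≃+* L} (hΘ : FrobLift F ((Nat.card k) ^ N) Θ) {σ : M ≃ₐ[RatFunc k] M}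
    (hΘσ : ∀ x, Θ (j x) = j (σ x)) {res : (L ≃ₐ[RatFunc F] L) → (M ≃ₐ[RatFunc k] M)}
    (hres : ∀ g x, g (j x) = j (res g x))
    (hsum : ∀ c : F, c ^ (Nat.card k) ^ N = c → ∑ g : L ≃ₐ[RatFunc F] L,
      {φ : AA F L →ₐ[F] F | φ ∈ PtL F (fun x => g (Θ x)) ((Nat.card k) ^ N) ∧
        φ (tA F L) = c}.ncard = finrank (RatFunc F) L)
    (hur : ∀ (P : k[X]) (c : F), Irreducible P → UnramM M P → aeval c P = 0 →
      UnramM L (X - C c))
    {T : ℝ} (hT1 : 1 ≤ T) {κ : ℕ}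
    (hTS : ∀ B : Finset F, (∀ c, c ∉ B → UnramM L (X - C c)) → ∀ Θ' : L ≃+* L,
      FrobLift F ((Nat.card k) ^ N) Θ' →
      |((PtL F Θ' ((Nat.card k) ^ N)).ncard : ℝ) - (Nat.card k : ℝ) ^ N| ≤
        8 * T * (B.card + κ + 1) * √((Nat.card k : ℝ) ^ (N + 1)))
    {f : (M ≃ₐ[RatFunc k] M) → ℝ} (hf : ∀ g τ, f (g * τ * g⁻¹) = f τ) (hf1 : ∀ τ, |f τ| ≤ 1)
    (hf0 : ∑ g : L ≃ₐ[RatFunc F] L, f (res g * σ) = 0)
    {fr : k[X] → (M ≃ₐ[RatFunc k] M)} (hfr : ∀ P ∈ GoodF k M N, FrobM P (fr P))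
    (Bad : Finset k[X]) (hBad : ∀ P : k[X], P.Monic → Irreducible P → P ∉ Bad → UnramM M P) :
    N * |∑ P ∈ GoodF k M N, f (fr P)| ≤
      11 * T * ((∑ P ∈ Bad, P.natDegree : ℕ) + κ + 1) *
        √((Nat.card k : ℝ) ^ (N + 1)) := by
  classical
  set r : ℕ := ∑ P ∈ Bad, P.natDegree with hr
  set B₀ : Finset F := Bad.biUnion fun P => (P.map (algebraMap k F)).roots.toFinset with hB₀
  have hcard : B₀.card ≤ r := by
    refine Finset.card_biUnion_le.trans (Finset.sum_le_sum fun P _ => ?_)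
    refine (Multiset.toFinset_card_le _).trans ?_
    refine (Polynomial.card_roots' _).trans ?_
    rw [natDegree_map]
  have hun : ∀ c, c ∉ B₀ → UnramM L (X - C c) := by
    intro c hc
    have hint : IsIntegral k c := (Algebra.IsAlgebraic.isAlgebraic c).isIntegral
    refine hur (minpoly k c) c (minpoly.irreducible hint)
      (hBad _ (minpoly.monic hint) (minpoly.irreducible hint) fun hP => hc ?_)
      (minpoly.aeval k c)
    rw [hB₀, Finset.mem_biUnion]
    refine ⟨_, hP, ?_⟩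
    have hne : (minpoly k c).map (algebraMap k F) ≠ 0 :=
      (Polynomial.map_ne_zero_iff (algebraMap k F).injective).mpr (minpoly.ne_zero hint)
    rw [Multiset.mem_toFinset, mem_roots hne, IsRoot, eval_map, ← aeval_def]
    exact minpoly.aeval k c
  set q : ℝ := (Nat.card k : ℝ) with hq
  have hq1 : 1 ≤ q := by
    have : 0 < Nat.card k := Nat.card_pos
    rw [hq]
    exact_mod_cast this
  set W : ℝ := √(q ^ (N + 1)) with hW
  have hW1 : 1 ≤ W := by
    rw [hW, Real.one_le_sqrt]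
    exact one_le_pow₀ hq1
  have hqW : q ^ (N / 2) ≤ W := by
    rw [hW]
    apply Real.le_sqrt_of_sq_le
    rw [← pow_mul]
    exact pow_le_pow_right₀ hq1 (by omega)
  have hW0 : 0 ≤ W := zero_le_one.trans hW1
  have hT0 : 0 ≤ T := zero_le_one.trans hT1
  have hcard' : (B₀.card : ℝ) ≤ (r : ℝ) := by exact_mod_cast hcard
  have hB : ∀ g : L ≃ₐ[RatFunc F] L,
      |((PtL F (fun x => g (Θ x)) ((Nat.card k) ^ N)).ncard : ℝ) - (Nat.card k : ℝ) ^ N| ≤
        8 * T * ((r : ℝ) + κ + 1) * W := by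
    intro g
    have h := hTS B₀ hun (Θ.trans g.toRingEquiv) (lift_mul hΘ g)
    refine h.trans ?_
    gcongr
  have hc := core hN hj hΘ hΘσ hres hsum hf hf1 hf0 hB hfr
  set S : ℝ := |∑ P ∈ GoodF k M N, f (fr P)| with hS
  have hbad : N * ((IrrF k N).filter fun P => ¬ UnramM M P).card ≤ r := by
    have hsub : ((IrrF k N).filter fun P => ¬ UnramM M P) ⊆ Bad := by
      intro P hP
      rw [Finset.mem_filter] at hP
      obtain ⟨h1, h2⟩ := hP
      rw [mem_irrF] at h1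
      by_contra h3
      exact h2 (hBad P h1.1 h1.2.1 h3)
    calc N * ((IrrF k N).filter fun P => ¬ UnramM M P).card
        = ∑ P ∈ ((IrrF k N).filter fun P => ¬ UnramM M P), P.natDegree := by
          rw [mul_comm, ← smul_eq_mul, ← Finset.sum_const]
          refine Finset.sum_congr rfl fun P hP => ?_
          rw [Finset.mem_filter, mem_irrF] at hP
          exact hP.1.2.2.symm
      _ ≤ r := Finset.sum_le_sum_of_subset hsub
  have hbad' : (N : ℝ) * (((IrrF k N).filter fun P => ¬ UnramM M P).card : ℝ) ≤ (r : ℝ) := by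
    exact_mod_cast hbad
  have hr0 : (0 : ℝ) ≤ (r : ℝ) := Nat.cast_nonneg r
  have hκ0 : (0 : ℝ) ≤ (κ : ℝ) := Nat.cast_nonneg κ
  have h1 : N * S ≤ 8 * T * ((r : ℝ) + κ + 1) * W + (r : ℝ) + 2 * W := by
    refine hc.trans ?_
    gcongr
  have h2 : (r : ℝ) + 2 * W ≤ 3 * T * ((r : ℝ) + κ + 1) * W := by
    have h3 : (r : ℝ) ≤ (r : ℝ) * W := le_mul_of_one_le_right hr0 hW1
    have h4 : ((r : ℝ) + κ + 1) * W ≤ T * (((r : ℝ) + κ + 1) * W) :=
      le_mul_of_one_le_left (by positivity) hT1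
    nlinarith [mul_nonneg hκ0 hW0]
  calc N * S ≤ 8 * T * ((r : ℝ) + κ + 1) * W + (r : ℝ) + 2 * W := h1
    _ ≤ 8 * T * ((r : ℝ) + κ + 1) * W + 3 * T * ((r : ℝ) + κ + 1) * W := by linarith
    _ = 11 * T * ((r : ℝ) + κ + 1) * W := by ring

end

end Pool.Agent.SmBU
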