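import Pool.Agent.Lib.SmBU.Gd
import Pool.Agent.Lib.SmBU.Geo
import Pool.Agent.Lib.SmBU.Num

/-!
SMITH-U, block B for general `K`: Chebotarev with square root error term over `k(t)` for a finite
Galois extension `M / k(t)` of arbitrary degree, which is tame over the field generated by `α`. The
constants depend only on `α` and on the degree.
-/

set_option autoImplicit false

namespace Pool.Agent.SmBU

open Module Polynomial Pool.Agent.SmB

universe u v

section arith

variable {k : Type u} [Field k] [Finite k] {M : Type v} [Field M] [Algebra k[X] M]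
  [Algebra (RatFunc k) M] [IsScalarTower k[X] (RatFunc k) M] [FiniteDimensional (RatFunc k) M]
  [IsGalois (RatFunc k) M] [Algebra k M] [IsScalarTower k k[X] M]

private theorem b1gen_num {p e N : ℕ} (hp : p.Prime) (he : 1 ≤ e) :
    (p : ℝ) ^ ((e * N + 1) / 2) ≤ √(((p ^ e : ℕ) : ℝ) ^ (N + 1)) := by
  apply Real.le_sqrt_of_sq_le
  have h1 : 1 ≤ p := hp.one_lt.le
  have h2 : (e * N + 1) / 2 * 2 ≤ e * (N + 1) := by
    have h3 : (e * N + 1) / 2 * 2 ≤ e * N + 1 := Nat.div_mul_le_self _ _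
    have h4 : e * (N + 1) = e * N + e := by ring
    omega
  have h5 : p ^ ((e * N + 1) / 2 * 2) ≤ p ^ (e * (N + 1)) := Nat.pow_le_pow_right h1 h2
  have h6 : (p : ℝ) ^ ((e * N + 1) / 2 * 2) ≤ (p : ℝ) ^ (e * (N + 1)) := by exact_mod_cast h5
  rw [← pow_mul]
  refine h6.trans (le_of_eq ?_)
  push_cast
  rw [← pow_mul]

open Classical in
/-- B1 at finite level, in arbitrary degree, with the factor `N`. -/
theorem B1_gen' {α : M} {δ : k[X]} {c e₀ : ℕ} (hg : GenDat k α δ c e₀)
    (hα : ((Nat.card (stabE (RatFunc k) α) : ℕ) : k) ≠ 0)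
    (Bad : Finset k[X]) (hBad : ∀ P : k[X], P.Monic → Irreducible P → P ∉ Bad → UnramM M P)
    {N : ℕ} (hN : N ≠ 0) {f : (M ≃ₐ[RatFunc k] M) → ℝ} (hf : ∀ g τ, f (g * τ * g⁻¹) = f τ)
    (hf1 : ∀ τ, |f τ| ≤ 1)
    (hf0 : ∑ τ ∈ Finset.univ.filter (fun τ : M ≃ₐ[RatFunc k] M => CompN k N τ), f τ = 0)
    {fr : k[X] → (M ≃ₐ[RatFunc k] M)} (hfr : ∀ P ∈ GoodF k M N, FrobM P (fr P)) :
    N * |∑ P ∈ GoodF k M N, f (fr P)| ≤
      11 * (finrank (RatFunc k) M : ℝ) ^ 3 *
        ((∑ P ∈ Bad, P.natDegree : ℕ) + (δ.natDegree + e₀ : ℕ) + 1) *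
        √((Nat.card k : ℝ) ^ (N + 1)) := by
  have hnpos : (1 : ℝ) ≤ (finrank (RatFunc k) M : ℝ) := by
    have : 0 < finrank (RatFunc k) M := finrank_pos
    exact_mod_cast this
  by_cases hσ : ∃ σ : M ≃ₐ[RatFunc k] M, CompN k N σ
  · obtain ⟨σ, hσ⟩ := hσ
    obtain ⟨F, _, _, _, _, L, _, _, _, _, _, _, _, _, j, Θ, res, hj, hΘ, hΘσ, hres, hinj, hcomp,
      hn', hur⟩ := geo_model2 N σ hσ
    obtain ⟨p, hp⟩ := CharP.exists k
    have := Fintype.ofFinite k
    obtain ⟨⟨e, he⟩, hprime, hcard⟩ := FiniteField.card k p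
    have : Fact p.Prime := ⟨hprime⟩
    have : CharP F p := charP_of_injective_algebraMap (algebraMap k F).injective p
    have hq : Nat.card k = p ^ e := by
      rw [Nat.card_eq_fintype_card, hcard]
      rfl
    have hqN : (Nat.card k) ^ N = p ^ ((e * N) / 2 + (e * N + 1) / 2) := by
      rw [hq, ← pow_mul]
      congr 1
      omega
    have heN : 1 ≤ e * N := Nat.mul_pos he (Nat.pos_of_ne_zero hN)
    -- the stabilisers
    have hst : Nat.card (stabE (RatFunc F) (j α)) ∣ Nat.card (stabE (RatFunc k) α) := by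
      let ψ : stabE (RatFunc F) (j α) →* stabE (RatFunc k) α :=
        (res.comp (stabE (RatFunc F) (j α)).subtype).codRestrict (stabE (RatFunc k) α) (by
          intro g
          have h1 : (g : L ≃ₐ[RatFunc F] L) (j α) = j α := g.2
          have h2 : j (res (g : L ≃ₐ[RatFunc F] L) α) = j α := by rw [← hres, h1]
          exact j.injective h2)
      have hψ : Function.Injective ψ := by
        intro a b hab
        apply Subtype.ext
        apply hinj
        exact congrArg Subtype.val hab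
      rw [Nat.card_congr (MonoidHom.ofInjective hψ).toEquiv]
      exact Subgroup.card_subgroup_dvd_card _
    have hstF : ((Nat.card (stabE (RatFunc F) (j α)) : ℕ) : F) ≠ 0 := by
      intro h0
      apply hα
      obtain ⟨d, hd⟩ := hst
      rw [hd, Nat.cast_mul]
      have h1 : ((Nat.card (stabE (RatFunc F) (j α)) : ℕ) : k) = 0 := by
        apply (algebraMap k F).injective
        rw [map_natCast, h0, map_zero]
      rw [h1, zero_mul]
    have hT := hg.model hj hstF
    have hT1 : (1 : ℝ) ≤ (finrank (RatFunc k) M : ℝ) ^ 3 := one_le_pow₀ hnpos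
    refine bound_model2 hN hj hΘ hΘσ hres (fun c hc => ?_) hur hT1
      (κ := δ.natDegree + e₀) ?_ hf hf1 ?_ hfr Bad hBad
    · exact pt_sum hΘ c hc
    · intro B hB Θ' hΘ'
      rw [hqN] at hΘ'
      have h3 := two_sided2 (L := L) p hT B hB ((e * N) / 2) ((e * N + 1) / 2) (by omega)
        (by omega) hΘ'
      rw [← hqN] at h3
      have h4 : ((Nat.card k : ℝ)) ^ N = (p : ℝ) ^ ((e * N) / 2 + (e * N + 1) / 2) := by
        exact_mod_cast hqN
      rw [h4]
      refine h3.trans ?_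
      have h5 := b1gen_num (N := N) hprime he
      rw [← hq] at h5
      have h6 : (finrank (RatFunc F) L : ℝ) ^ 3 ≤ (finrank (RatFunc k) M : ℝ) ^ 3 := by
        have h7 : finrank (RatFunc F) L ≤ finrank (RatFunc k) M := Nat.le_of_dvd finrank_pos hn'
        have h8 : (finrank (RatFunc F) L : ℝ) ≤ (finrank (RatFunc k) M : ℝ) := by exact_mod_cast h7
        exact pow_le_pow_left₀ (Nat.cast_nonneg _) h8 3
      have h7 : (((B.card + (δ.map (algebraMap k F)).natDegree + e₀ + 1 : ℕ)) : ℝ) =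
          (B.card : ℝ) + ((δ.natDegree + e₀ : ℕ) : ℝ) + 1 := by
        rw [natDegree_map]
        push_cast
        ring
      rw [h7]
      have h8 : (0 : ℝ) ≤ (B.card : ℝ) + ((δ.natDegree + e₀ : ℕ) : ℝ) + 1 :=
        add_nonneg (add_nonneg (Nat.cast_nonneg _) (Nat.cast_nonneg _)) zero_le_one
      exact mul_le_mul (mul_le_mul_of_nonneg_right
        (mul_le_mul_of_nonneg_left h6 (by norm_num)) h8) h5 (pow_nonneg (Nat.cast_nonneg _) _)
        (mul_nonneg (mul_nonneg (by norm_num) (pow_nonneg (Nat.cast_nonneg _) _)) h8)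
    · rw [← hf0]
      refine Finset.sum_bij (fun g _ => res g * σ) ?_ ?_ ?_ ?_
      · intro g _
        rw [Finset.mem_filter]
        exact ⟨Finset.mem_univ _, (hcomp _).2 ⟨g, rfl⟩⟩
      · intro g _ g' _ h
        exact hinj (mul_right_cancel h)
      · intro τ hτ
        rw [Finset.mem_filter] at hτ
        obtain ⟨g, hg⟩ := (hcomp τ).1 hτ.2
        exact ⟨g, Finset.mem_univ _, hg.symm⟩
      · intro g _
        rfl
  · have h0 : GoodF k M N = ∅ := by
      rw [Finset.eq_empty_iff_forall_notMem]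
      intro P hP
      have h3 := hfr P hP
      rw [mem_goodF, mem_irrF] at hP
      exact hσ ⟨fr P, frob_comp hP.1.2.2 h3⟩
    rw [h0, Finset.sum_empty, abs_zero, mul_zero]
    positivity

open Classical in
/-- B1 at finite level, in arbitrary degree. -/
theorem B1_gen {α : M} {δ : k[X]} {c e₀ : ℕ} (hg : GenDat k α δ c e₀)
    (hα : ((Nat.card (stabE (RatFunc k) α) : ℕ) : k) ≠ 0)
    (Bad : Finset k[X]) (hBad : ∀ P : k[X], P.Monic → Irreducible P → P ∉ Bad → UnramM M P)
    {N : ℕ} (hN : N ≠ 0) {f : (M ≃ₐ[RatFunc k] M) → ℝ} (hf : ∀ g τ, f (g * τ * g⁻¹) = f τ)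
    (hf1 : ∀ τ, |f τ| ≤ 1)
    (hf0 : ∑ τ ∈ Finset.univ.filter (fun τ : M ≃ₐ[RatFunc k] M => CompN k N τ), f τ = 0)
    {fr : k[X] → (M ≃ₐ[RatFunc k] M)} (hfr : ∀ P ∈ GoodF k M N, FrobM P (fr P)) :
    |∑ P ∈ GoodF k M N, f (fr P)| ≤
      11 * (finrank (RatFunc k) M : ℝ) ^ 3 *
        ((∑ P ∈ Bad, P.natDegree : ℕ) + (δ.natDegree + e₀ : ℕ) + 1) *
        √((Nat.card k : ℝ) ^ (N + 1)) := by
  refine le_trans ?_ (B1_gen' hg hα Bad hBad hN hf hf1 hf0 hfr)
  have h1 : (1 : ℝ) ≤ (N : ℝ) := by exact_mod_cast Nat.one_le_iff_ne_zero.mpr hN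
  exact le_mul_of_one_le_left (abs_nonneg _) h1

end arith

end Pool.Agent.SmBU
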