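import Pool.Agent.Lib.SmBU.Res
import Pool.Agent.Lib.SmB.P4Frob

/-!
SMITH-U, block B for general `K`: lifting automorphisms of `M/K` compatible with Frobenius on the
constants to automorphisms of `Mt/K` compatible with Frobenius on the constants.
-/

set_option autoImplicit false

namespace Pool.Agent.SmBU

open Module Polynomial Pool.Agent.SmB

section cst

variable {k : Type*} [Field k] [Finite k] {Mt : Type*} [Field Mt] [Algebra (RatFunc k) Mt]
  [Algebra k[X] Mt] [IsScalarTower k[X] (RatFunc k) Mt] [FiniteDimensional (RatFunc k) Mt]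
  [IsGalois (RatFunc k) Mt] [Algebra k Mt] [IsScalarTower k k[X] Mt]

omit [Finite k] [FiniteDimensional (RatFunc k) Mt] [IsGalois (RatFunc k) Mt] in
theorem tow_k : IsScalarTower k (RatFunc k) Mt := by
  refine IsScalarTower.of_algebraMap_eq fun a => ?_
  rw [IsScalarTower.algebraMap_apply k k[X] Mt,
    IsScalarTower.algebraMap_apply k[X] (RatFunc k) Mt,
    IsScalarTower.algebraMap_apply k k[X] (RatFunc k)]

omit [Finite k] [FiniteDimensional (RatFunc k) Mt] [IsGalois (RatFunc k) Mt] in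
theorem int_gal (σ : Mt ≃ₐ[RatFunc k] Mt) {z : Mt} (hz : IsIntegral k z) :
    IsIntegral k (σ z) := by
  have := tow_k (k := k) (Mt := Mt)
  exact hz.map (σ.restrictScalars k)

/-- There is an automorphism acting on the constants as the Frobenius of `k`. -/
theorem exists_frob1 : ∃ φ : Mt ≃ₐ[RatFunc k] Mt, CompN k 1 φ := by
  obtain ⟨φ, hφ⟩ := frob_exists (k := k) (M := Mt) (P := (X : k[X])) irreducible_X
  exact ⟨φ, frob_comp natDegree_X hφ⟩

omit [Finite k] [FiniteDimensional (RatFunc k) Mt] [IsGalois (RatFunc k) Mt]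
  [Algebra k[X] Mt] [IsScalarTower k[X] (RatFunc k) Mt] [IsScalarTower k k[X] Mt] in
theorem compN_mul {m n : ℕ} {σ τ : Mt ≃ₐ[RatFunc k] Mt} (hσ : CompN k m σ) (hτ : CompN k n τ) :
    CompN k (m + n) (σ * τ) := by
  intro x hx
  rw [AlgEquiv.mul_apply, hτ x hx, map_pow, hσ x hx, ← pow_mul, ← pow_add]

omit [Finite k] [FiniteDimensional (RatFunc k) Mt] [IsGalois (RatFunc k) Mt]
  [Algebra k[X] Mt] [IsScalarTower k[X] (RatFunc k) Mt] [IsScalarTower k k[X] Mt] in
theorem compN_zero {σ : Mt ≃ₐ[RatFunc k] Mt} : CompN k 0 σ ↔ ∀ x, IsIntegral k x → σ x = x := by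
  unfold CompN
  simp

omit [Finite k] [FiniteDimensional (RatFunc k) Mt] [IsGalois (RatFunc k) Mt] in
theorem compN_pow {σ : Mt ≃ₐ[RatFunc k] Mt} (hσ : CompN k 1 σ) (n : ℕ) : CompN k n (σ ^ n) := by
  induction n with
  | zero =>
    rw [pow_zero, compN_zero]
    intro x _
    rfl
  | succ n ih =>
    rw [pow_succ]
    exact compN_mul ih hσ

/-- The field of constants of `Mt` is finite. -/
theorem cst_finite : Finite (algebraicClosure k Mt) := by
  classical
  obtain ⟨φ, hφ⟩ := exists_frob1 (k := k) (Mt := Mt)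
  set n := Nat.card (Mt ≃ₐ[RatFunc k] Mt) with hn
  have hn0 : n ≠ 0 := Nat.card_pos.ne'
  have h1 : φ ^ n = 1 := pow_card_eq_one'
  have hq : 1 < Nat.card k := Finite.one_lt_card
  have hQ : 1 < Nat.card k ^ n := Nat.one_lt_pow hn0 hq
  set F : Mt[X] := X ^ (Nat.card k ^ n) - X with hF
  have hF0 : F ≠ 0 := by
    intro h
    have h2 : F.coeff (Nat.card k ^ n) = 1 := by
      rw [hF, coeff_sub, coeff_X_pow, if_pos rfl, coeff_X, if_neg hQ.ne, sub_zero]
    rw [h, coeff_zero] at h2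
    exact zero_ne_one h2
  have hsub : ∀ x : algebraicClosure k Mt, ((x : Mt)) ∈ F.roots.toFinset := by
    intro x
    rw [Multiset.mem_toFinset, mem_roots hF0, IsRoot.def, hF, eval_sub, eval_pow, eval_X,
      sub_eq_zero]
    have hx : IsIntegral k (x : Mt) := (mem_algebraicClosure_iff.1 x.2).isIntegral
    have h2 := compN_pow hφ n (x : Mt) hx
    rw [h1] at h2
    exact h2.symm
  exact Finite.of_injective (fun x => (⟨(x : Mt), hsub x⟩ : F.roots.toFinset)) fun x y hxy =>
    Subtype.ext (congrArg (fun z : F.roots.toFinset => (z : Mt)) hxy)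

end cst

section lift

variable {k : Type*} [Field k] [Finite k]
  {K : Type*} [Field K]
  {M : Type*} [Field M] [Algebra K M] [Algebra (RatFunc k) M]
  [Algebra k[X] M] [IsScalarTower k[X] (RatFunc k) M] [Algebra k M] [IsScalarTower k k[X] M]
  {Mt : Type*} [Field Mt] [Algebra (RatFunc k) Mt]
  [Algebra k[X] Mt] [IsScalarTower k[X] (RatFunc k) Mt] [FiniteDimensional (RatFunc k) Mt]
  [IsGalois (RatFunc k) Mt] [Algebra k Mt] [IsScalarTower k k[X] Mt]
  {ι : M →ₐ[RatFunc k] Mt}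

omit [Finite k] [Algebra k[X] M] [IsScalarTower k[X] (RatFunc k) M] [Algebra k M]
  [IsScalarTower k k[X] M] [Algebra k[X] Mt] [IsScalarTower k[X] (RatFunc k) Mt] [Algebra k Mt]
  [IsScalarTower k k[X] Mt] in
/-- An element fixed by all automorphisms trivial on `ι M` is in `ι M`. -/
theorem mem_range_ι {x : Mt} (hx : ∀ ρ : Mt ≃ₐ[RatFunc k] Mt, (∀ y : M, ρ (ι y) = ι y) → ρ x = x) :
    ∃ y : M, ι y = x := by
  let a1 : Algebra M Mt := (ι : M →+* Mt).toAlgebra
  have t2 : IsScalarTower (RatFunc k) M Mt :=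
    IsScalarTower.of_algebraMap_eq fun a => (ι.commutes a).symm
  have hfin : FiniteDimensional M Mt := FiniteDimensional.right (RatFunc k) M Mt
  have hgal : IsGalois M Mt := IsGalois.tower_top_of_isGalois (RatFunc k) M Mt
  have h1 : x ∈ Set.range (algebraMap M Mt) := by
    rw [IsGalois.mem_range_algebraMap_iff_fixed]
    intro f
    exact hx (f.restrictScalars (RatFunc k)) fun y => f.commutes y
  obtain ⟨y, hy⟩ := h1
  exact ⟨y, hy⟩

theorem const_lift {res : UK K ι →* (M ≃ₐ[K] M)}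
    (hres : ∀ (u : UK K ι) (x : M), ι (res u x) = (u : Mt ≃ₐ[RatFunc k] Mt) (ι x))
    (hsurj : Function.Surjective res) {N : ℕ} {τ : M ≃ₐ[K] M} (hτ : CompK k N τ) :
    ∃ u : UK K ι, res u = τ ∧ CompN k N (u : Mt ≃ₐ[RatFunc k] Mt) := by
  classical
  have htw := tow_k (k := k) (Mt := Mt)
  have htwM := tow_k (k := k) (Mt := M)
  obtain ⟨τ₁, hτ₁⟩ := hsurj τ
  obtain ⟨φ, hφ⟩ := exists_frob1 (k := k) (Mt := Mt)
  let E := algebraicClosure k Mt
  have hEfin : Finite E := cst_finite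
  have hEfd : FiniteDimensional k E := Module.Finite.of_finite
  have hEint : ∀ x : E, IsIntegral k (x : Mt) := fun x =>
    (mem_algebraicClosure_iff.1 x.2).isIntegral
  have hgalE : IsGalois k E := inferInstance
  let rE : (Mt ≃ₐ[RatFunc k] Mt) →* (E ≃ₐ[k] E) :=
    { toFun := fun g => AlgEquiv.restrictNormalHom E (g.restrictScalars k)
      map_one' := by
        have h1 : ((1 : Mt ≃ₐ[RatFunc k] Mt).restrictScalars k) = 1 := rfl
        rw [h1, map_one]
      map_mul' := fun a b => by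
        have h1 : ((a * b : Mt ≃ₐ[RatFunc k] Mt).restrictScalars k) =
          a.restrictScalars k * b.restrictScalars k := rfl
        rw [h1, map_mul] }
  have hrE : ∀ (g : Mt ≃ₐ[RatFunc k] Mt) (x : E), ((rE g x : E) : Mt) = g (x : Mt) := by
    intro g x
    exact AlgEquiv.restrictNormal_commutes (g.restrictScalars k) E x
  let V : Subgroup (Mt ≃ₐ[RatFunc k] Mt) :=
    { carrier := {g | ∀ y : M, g (ι y) = ι y}
      one_mem' := fun _ => rfl
      mul_mem' := fun {a b} ha hb y => by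
        change a (b _) = _
        rw [hb y, ha y]
      inv_mem' := fun {a} ha y => by
        conv_lhs => rw [← ha y]
        rw [← AlgEquiv.mul_apply, inv_mul_cancel, AlgEquiv.one_apply] }
  set θ : Mt ≃ₐ[RatFunc k] Mt := (τ₁ : Mt ≃ₐ[RatFunc k] Mt)⁻¹ * φ ^ N with hθ
  have hmem : rE θ ∈ V.map rE := by
    rw [← IntermediateField.fixingSubgroup_fixedField (V.map rE),
      IntermediateField.mem_fixingSubgroup_iff]
    intro c hc
    rw [IntermediateField.mem_fixedField_iff] at hc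
    -- `c` is in `ι M`
    obtain ⟨y, hy⟩ := mem_range_ι (ι := ι) (x := (c : Mt)) (fun ρ hρ => by
      have h1 := hc (rE ρ) ⟨ρ, hρ, rfl⟩
      rw [← hrE, h1])
    have hyint : IsIntegral k y := by
      have h1 : IsIntegral k (ι y) := hy ▸ hEint c
      have h2 : IsIntegral k ((ι.restrictScalars k) y) := h1
      exact (isIntegral_algHom_iff (ι.restrictScalars k) ι.injective).1 h2
    apply Subtype.ext
    rw [hrE, hθ, AlgEquiv.mul_apply, compN_pow hφ N _ (hEint c)]
    -- `τ₁ c = c ^ (q ^ N)`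
    have h3 : (τ₁ : Mt ≃ₐ[RatFunc k] Mt) (c : Mt) = (c : Mt) ^ (Nat.card k) ^ N := by
      rw [← hy, ← hres, hτ₁, hτ y hyint, map_pow]
    rw [← h3, ← AlgEquiv.mul_apply, inv_mul_cancel, AlgEquiv.one_apply]
  obtain ⟨ρ, hρV, hρ⟩ := hmem
  have hρU : ρ ∈ UK K ι := fun y => hρV _
  refine ⟨τ₁ * ⟨ρ, hρU⟩, ?_, ?_⟩
  · refine AlgEquiv.ext fun x => ?_
    apply (show Function.Injective (ι : M → Mt) from ι.toRingHom.injective)
    rw [hres]
    change (τ₁ : Mt ≃ₐ[RatFunc k] Mt) (ρ (ι x)) = _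
    rw [hρV x, ← hres, hτ₁]
  · intro x hx
    have hxE : x ∈ E := mem_algebraicClosure_iff.2 hx.isAlgebraic
    change (τ₁ : Mt ≃ₐ[RatFunc k] Mt) (ρ x) = _
    have h1 : ρ x = θ x := by
      have h2 := hrE ρ ⟨x, hxE⟩
      rw [hρ, hrE] at h2
      exact h2.symm
    rw [h1, hθ, AlgEquiv.mul_apply, ← AlgEquiv.mul_apply, mul_inv_cancel, AlgEquiv.one_apply,
      compN_pow hφ N _ hx]

open Classical in
theorem sum_comp [FiniteDimensional K M] {res : UK K ι →* (M ≃ₐ[K] M)}
    (hres : ∀ (u : UK K ι) (x : M), ι (res u x) = (u : Mt ≃ₐ[RatFunc k] Mt) (ι x))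
    (hsurj : Function.Surjective res) (N : ℕ) {f : (M ≃ₐ[K] M) → ℝ}
    (hf0 : ∑ τ ∈ Finset.univ.filter (fun τ : M ≃ₐ[K] M => CompK k N τ), f τ = 0) :
    ∑ u ∈ Finset.univ.filter
      (fun u : UK K ι => CompN k N (u : Mt ≃ₐ[RatFunc k] Mt)), f (res u) = 0 := by
  have htw := tow_k (k := k) (Mt := Mt)
  have htwM := tow_k (k := k) (Mt := M)
  -- the elements trivial on `M` and on the constants
  let W : Finset (UK K ι) := Finset.univ.filter
    (fun u : UK K ι => res u = 1 ∧ CompN k 0 (u : Mt ≃ₐ[RatFunc k] Mt))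
  have hmap : ∀ u ∈ Finset.univ.filter
      (fun u : UK K ι => CompN k N (u : Mt ≃ₐ[RatFunc k] Mt)),
      res u ∈ Finset.univ.filter (fun τ : M ≃ₐ[K] M => CompK k N τ) := by
    intro u hu
    rw [Finset.mem_filter] at hu ⊢
    refine ⟨Finset.mem_univ _, fun x hx => ?_⟩
    apply (show Function.Injective (ι : M → Mt) from ι.toRingHom.injective)
    have h1 : IsIntegral k (ι x) := hx.map (ι.restrictScalars k)
    rw [hres, hu.2 _ h1, map_pow]
  rw [← Finset.sum_fiberwise_of_maps_to hmap]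
  have hfib : ∀ τ ∈ Finset.univ.filter (fun τ : M ≃ₐ[K] M => CompK k N τ),
      ∑ u ∈ (Finset.univ.filter
        (fun u : UK K ι => CompN k N (u : Mt ≃ₐ[RatFunc k] Mt))).filter (fun u => res u = τ),
        f (res u) = W.card * f τ := by
    intro τ hτ
    rw [Finset.mem_filter] at hτ
    obtain ⟨u₀, hu₀, hu₀c⟩ := const_lift hres hsurj hτ.2
    have h1 : ∑ u ∈ (Finset.univ.filter
        (fun u : UK K ι => CompN k N (u : Mt ≃ₐ[RatFunc k] Mt))).filter (fun u => res u = τ),
        f (res u) = ∑ u ∈ (Finset.univ.filter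
        (fun u : UK K ι => CompN k N (u : Mt ≃ₐ[RatFunc k] Mt))).filter (fun u => res u = τ),
        f τ := by
      refine Finset.sum_congr rfl fun u hu => ?_
      rw [(Finset.mem_filter.1 hu).2]
    rw [h1, Finset.sum_const, nsmul_eq_mul]
    congr 2
    symm
    refine Finset.card_bij (fun w _ => u₀ * w) ?_ ?_ ?_
    · intro w hw
      rw [Finset.mem_filter] at hw
      rw [Finset.mem_filter, Finset.mem_filter]
      refine ⟨⟨Finset.mem_univ _, ?_⟩, ?_⟩
      · have h2 := compN_mul hu₀c hw.2.2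
        rw [add_zero] at h2
        exact h2
      · rw [map_mul, hu₀, hw.2.1, mul_one]
    · intro a _ b _ h
      exact mul_left_cancel h
    · intro u hu
      rw [Finset.mem_filter, Finset.mem_filter] at hu
      refine ⟨u₀⁻¹ * u, ?_, by group⟩
      rw [Finset.mem_filter]
      refine ⟨Finset.mem_univ _, ?_, ?_⟩
      · rw [map_mul, map_inv, hu₀, hu.2, inv_mul_cancel]
      · rw [compN_zero]
        intro x hx
        change (u₀ : Mt ≃ₐ[RatFunc k] Mt)⁻¹ ((u : Mt ≃ₐ[RatFunc k] Mt) x) = x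
        rw [hu.1.2 x hx, ← hu₀c x hx, ← AlgEquiv.mul_apply, inv_mul_cancel, AlgEquiv.one_apply]
  rw [Finset.sum_congr rfl hfib, ← Finset.mul_sum, hf0, mul_zero]

end lift

end Pool.Agent.SmBU
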