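import Pool.Agent.Lib.SmBU.Res

/-!
SMITH-U, block B for general `K`: the degree of the normal closure `Mt` of `M` and the order of the
stabiliser of `α`.
-/

set_option autoImplicit false

namespace Pool.Agent.SmBU

open Module Polynomial Pool.Agent.SmB

section setting

variable {k : Type*} [Field k]
  {K : Type*} [Field K] [Algebra (RatFunc k) K]
  {M : Type*} [Field M] [Algebra K M] [Algebra (RatFunc k) M] [IsScalarTower (RatFunc k) K M]
  [FiniteDimensional K M] [IsGalois K M]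
  {Mt : Type*} [Field Mt] [Algebra (RatFunc k) Mt]
  [FiniteDimensional (RatFunc k) Mt] [IsGalois (RatFunc k) Mt]
  {ι : M →ₐ[RatFunc k] Mt}

omit [Algebra (RatFunc k) K] [IsScalarTower (RatFunc k) K M] [FiniteDimensional K M] [IsGalois K M]
  [FiniteDimensional (RatFunc k) Mt] [IsGalois (RatFunc k) Mt] in
theorem conj_mem_UK {α : Mt} (hc : CtrK K ι α) {g : Mt ≃ₐ[RatFunc k] Mt} (hg : g α = α)
    (h : Mt ≃ₐ[RatFunc k] Mt) : h⁻¹ * g * h ∈ UK K ι := by
  intro y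
  change h⁻¹ (g (h _)) = _
  rw [hc g hg h y, ← AlgEquiv.mul_apply, inv_mul_cancel, AlgEquiv.one_apply]

theorem card_stab {α : Mt} (hc : CtrK K ι α) (hgen : GenM ι)
    (hh : ((finrank K M : ℕ) : k) ≠ 0) : ((Nat.card (stabE (RatFunc k) α) : ℕ) : k) ≠ 0 := by
  intro h0
  obtain ⟨res, hres, -⟩ := exists_res (k := k) (K := K) (M := M) (Mt := Mt) (ι := ι)
  obtain ⟨p, hp⟩ := CharP.exists k
  have hpc : p ∣ Nat.card (stabE (RatFunc k) α) := (CharP.cast_eq_zero_iff k p _).1 h0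
  have hpp : p.Prime := by
    rcases CharP.char_is_prime_or_zero k p with h | h
    · exact h
    · rw [h, zero_dvd_iff] at hpc
      exact absurd hpc Nat.card_pos.ne'
  have : Fact p.Prime := ⟨hpp⟩
  obtain ⟨x, hx⟩ := exists_prime_orderOf_dvd_card' p hpc
  have hxp : (x : Mt ≃ₐ[RatFunc k] Mt) ^ p = 1 := by
    have h1 : x ^ p = 1 := by rw [← hx]; exact pow_orderOf_eq_one x
    have h2 := congrArg (Subtype.val) h1
    exact h2
  have hcop : ∀ τ : M ≃ₐ[K] M, τ ^ p = 1 → τ = 1 := by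
    intro τ hτ
    have h1 : orderOf τ ∣ p := orderOf_dvd_of_pow_eq_one hτ
    have h2 : orderOf τ ∣ finrank K M := by
      rw [← IsGalois.card_aut_eq_finrank K M]
      exact orderOf_dvd_natCard τ
    rcases (Nat.dvd_prime hpp).1 h1 with h3 | h3
    · exact orderOf_eq_one_iff.1 h3
    · exfalso
      apply hh
      rw [h3] at h2
      exact (CharP.cast_eq_zero_iff k p _).2 h2
  have hx1 : (x : Mt ≃ₐ[RatFunc k] Mt) = 1 := by
    apply hgen
    intro h y
    have hu := conj_mem_UK hc (g := (x : Mt ≃ₐ[RatFunc k] Mt)) x.2 h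
    have h1 : res ⟨_, hu⟩ = 1 := by
      apply hcop
      rw [← map_pow]
      have h2 : (⟨_, hu⟩ : UK K ι) ^ p = 1 := by
        apply Subtype.ext
        change (h⁻¹ * (x : Mt ≃ₐ[RatFunc k] Mt) * h) ^ p = 1
        have h3 : h⁻¹ * (x : Mt ≃ₐ[RatFunc k] Mt) * h =
            h⁻¹ * (x : Mt ≃ₐ[RatFunc k] Mt) * (h⁻¹)⁻¹ := by rw [inv_inv]
        rw [h3, conj_pow, hxp, mul_one, mul_inv_cancel]
      rw [h2, map_one]
    have h4 := hres ⟨_, hu⟩ y
    rw [h1] at h4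
    change ι y = h⁻¹ ((x : Mt ≃ₐ[RatFunc k] Mt) (h (ι y))) at h4
    have h5 := congrArg h h4
    rw [← AlgEquiv.mul_apply h h⁻¹, mul_inv_cancel, AlgEquiv.one_apply] at h5
    exact h5.symm
  have hx2 : x = 1 := Subtype.ext hx1
  rw [hx2, orderOf_one] at hx
  exact hpp.one_lt.ne hx

omit [Algebra (RatFunc k) K] [IsScalarTower (RatFunc k) K M] [FiniteDimensional K M] [IsGalois K M]
  [IsGalois (RatFunc k) Mt] in
private theorem card_stab_le {α : Mt} (hc : CtrK K ι α) (hgen : GenM ι)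
    {res : UK K ι →* (M ≃ₐ[K] M)}
    (hres : ∀ (u : UK K ι) (x : M), ι (res u x) = (u : Mt ≃ₐ[RatFunc k] Mt) (ι x))
    [Finite (M ≃ₐ[K] M)] :
    Nat.card (stabE (RatFunc k) α) ≤
      Nat.card (M ≃ₐ[K] M) ^ (stabE (RatFunc k) α).index := by
  classical
  set S := stabE (RatFunc k) α with hS
  let rep : (Mt ≃ₐ[RatFunc k] Mt) ⧸ S → (Mt ≃ₐ[RatFunc k] Mt) := Quotient.out
  let Φ : S → ((Mt ≃ₐ[RatFunc k] Mt) ⧸ S → (M ≃ₐ[K] M)) := fun s c =>
    res ⟨(rep c)⁻¹ * s * rep c, conj_mem_UK hc s.2 (rep c)⟩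
  have hΦ : Function.Injective Φ := by
    intro s s' hss
    have h1 : (s : Mt ≃ₐ[RatFunc k] Mt) * (s' : Mt ≃ₐ[RatFunc k] Mt)⁻¹ = 1 := by
      apply hgen
      intro h y
      set c : (Mt ≃ₐ[RatFunc k] Mt) ⧸ S := QuotientGroup.mk h with hcdef
      have ht : (rep c)⁻¹ * h ∈ S := by
        have h2 : (QuotientGroup.mk (rep c) : (Mt ≃ₐ[RatFunc k] Mt) ⧸ S) = QuotientGroup.mk h :=
          Quotient.out_eq c
        exact QuotientGroup.eq.1 h2
      set t : Mt ≃ₐ[RatFunc k] Mt := (rep c)⁻¹ * h with htdef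
      have hht : h = rep c * t := by rw [htdef, mul_inv_cancel_left]
      have htU : t ∈ UK K ι := by
        have h3 := conj_mem_UK hc (g := t) ht 1
        rwa [inv_one, one_mul, mul_one] at h3
      have h4 : Φ s c = Φ s' c := congrFun hss c
      have h5 : ∀ z : M, (rep c)⁻¹ ((s : Mt ≃ₐ[RatFunc k] Mt) (rep c (ι z))) =
          (rep c)⁻¹ ((s' : Mt ≃ₐ[RatFunc k] Mt) (rep c (ι z))) := by
        intro z
        have h6 := hres ⟨(rep c)⁻¹ * s * rep c, conj_mem_UK hc s.2 (rep c)⟩ z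
        have h7 := hres ⟨(rep c)⁻¹ * s' * rep c, conj_mem_UK hc s'.2 (rep c)⟩ z
        have h8 : ι ((Φ s c) z) = ι ((Φ s' c) z) := by rw [h4]
        exact h6.symm.trans (h8.trans h7)
      have h6 : ∀ z : M, (s : Mt ≃ₐ[RatFunc k] Mt) (rep c (ι z)) =
          (s' : Mt ≃ₐ[RatFunc k] Mt) (rep c (ι z)) := fun z =>
        ((rep c)⁻¹ : Mt ≃ₐ[RatFunc k] Mt).injective (h5 z)
      -- `s` and `s'` agree on the conjugate `h (ι M)`
      have h7 : ∀ z : M, (s : Mt ≃ₐ[RatFunc k] Mt) (h (ι z)) =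
          (s' : Mt ≃ₐ[RatFunc k] Mt) (h (ι z)) := by
        intro z
        have h8 : h (ι z) = rep c (ι (res ⟨t, htU⟩ z)) := by
          rw [hres ⟨t, htU⟩ z, hht]
          rfl
        rw [h8]
        exact h6 _
      -- the inverse of `s'` fixes `h (ι K)` and maps `h (ι M)` to itself
      have hs'U : h⁻¹ * (s' : Mt ≃ₐ[RatFunc k] Mt)⁻¹ * h ∈ UK K ι :=
        conj_mem_UK hc (g := (s' : Mt ≃ₐ[RatFunc k] Mt)⁻¹) (S.inv_mem s'.2) h
      have h9 : (s' : Mt ≃ₐ[RatFunc k] Mt)⁻¹ (h (ι y)) = h (ι (res ⟨_, hs'U⟩ y)) := by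
        rw [hres ⟨_, hs'U⟩ y]
        change _ = h (h⁻¹ ((s' : Mt ≃ₐ[RatFunc k] Mt)⁻¹ (h (ι y))))
        rw [← AlgEquiv.mul_apply h h⁻¹, mul_inv_cancel, AlgEquiv.one_apply]
      rw [AlgEquiv.mul_apply, h9, h7, ← h9, ← AlgEquiv.mul_apply, mul_inv_cancel,
        AlgEquiv.one_apply]
    apply Subtype.ext
    exact mul_inv_eq_one.1 h1
  have h2 := Nat.card_le_card_of_injective Φ hΦ
  rw [Nat.card_fun] at h2
  exact h2

theorem card_gal {α : Mt} (hc : CtrK K ι α) (hgen : GenM ι) {c₁ : ℕ}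
    (hα : (minpoly (RatFunc k) α).natDegree ≤ c₁) :
    finrank (RatFunc k) Mt ≤ c₁ * (finrank K M) ^ c₁ := by
  classical
  obtain ⟨res, hres, -⟩ := exists_res (k := k) (K := K) (M := M) (Mt := Mt) (ι := ι)
  have h1 := card_stab_le hc hgen hres
  rw [IsGalois.card_aut_eq_finrank] at h1
  have hst : MulAction.stabilizer (Mt ≃ₐ[RatFunc k] Mt) α = stabE (RatFunc k) α := rfl
  have hidx : (stabE (RatFunc k) α).index ≤ c₁ := by
    rw [← hst, MulAction.index_stabilizer]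
    refine le_trans ?_ hα
    have hsub : MulAction.orbit (Mt ≃ₐ[RatFunc k] Mt) α ⊆ (minpoly (RatFunc k) α).rootSet Mt := by
      rintro _ ⟨g, rfl⟩
      rw [mem_rootSet]
      refine ⟨minpoly.ne_zero (Algebra.IsIntegral.isIntegral α), ?_⟩
      change aeval (g α) _ = 0
      rw [aeval_algHom_apply, minpoly.aeval, map_zero]
    exact (Set.ncard_le_ncard hsub (rootSet_finite _ _)).trans (ncard_rootSet_le _ _)
  have hfr : 1 ≤ finrank K M := finrank_pos
  rw [← IsGalois.card_aut_eq_finrank (RatFunc k) Mt,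
    ← Subgroup.index_mul_card (stabE (RatFunc k) α)]
  exact Nat.mul_le_mul hidx (h1.trans (Nat.pow_le_pow_right hfr hidx))

end setting

end Pool.Agent.SmBU
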