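import Pool.Agent.Lib.SmBU.FrPlc
import Pool.Agent.Lib.SmBU.CstK
import Pool.Agent.Lib.SmBU.B2

/-!
SMITH-U, block B for general `K`: Chebotarev with square root error term for the places of `K`
outside a finite set `T` (`ChebT` of `Lib/SmN/Asm/Abs.lean`).
-/

set_option autoImplicit false

namespace Pool.Agent.SmBU

open Module Polynomial Pool.Agent.SmB Pool.Agent.BSDFF Pool.Agent.GBC Pool.Agent.GBU

section mean

variable {k K Om : Type} [Field k] [Finite k] [Field K] [Algebra k K] [Field Om] [Algebra K Om]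
  [IsGalois K Om] {L : IntermediateField K Om} [FiniteDimensional K L] [IsGalois K L] [Algebra k L]

open Classical in
theorem mean_res {fr : Om ≃ₐ[K] Om} (hfr : IsFrC k fr) (d : ℕ) (f : (L ≃ₐ[K] L) → ℝ)
    (U : Finset (Om ≃ₐ[K] Om)) (hU : ∀ t ∈ U, t ∈ GeoK k K Om)
    (hU' : ∀ g ∈ GeoK k K Om, ∃! t, t ∈ U ∧ t⁻¹ * g ∈ L.fixingSubgroup) :
    (∑ t ∈ U, f (AlgEquiv.restrictNormalHom L (fr ^ d * t))) *
      ((Finset.univ.filter fun τ : L ≃ₐ[K] L => CompK k d τ).card : ℝ) =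
      U.card * ∑ τ ∈ Finset.univ.filter (fun τ : L ≃ₐ[K] L => CompK k d τ), f τ ∧
    U.card ≠ 0 := by
  have hF : ∀ (g : Om ≃ₐ[K] Om) (σ : L ≃ₐ[K] L), (∀ x : L, g (x : Om) = (σ x : Om)) →
      (fun s : Om ≃ₐ[K] Om => f (AlgEquiv.restrictNormalHom L s)) g = f σ := by
    intro g σ h
    have h1 : AlgEquiv.restrictNormalHom L g = σ := by
      refine AlgEquiv.ext fun x => Subtype.ext ?_
      rw [← h x]
      exact AlgEquiv.restrictNormal_commutes g L x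
    change f (AlgEquiv.restrictNormalHom L g) = f σ
    rw [h1]
  obtain ⟨h1, h2⟩ := sum_geo (L := L) hfr d hU hU' hF
  refine ⟨?_, ?_⟩
  · rw [← h2]
    rw [mul_comm]
    congr 1
  · obtain ⟨t, ⟨ht, -⟩, -⟩ := hU' 1 (GeoK k K Om).one_mem
    exact Finset.card_ne_zero_of_mem ht

end mean

section level

variable {k K : Type} [Field k] [Finite k] [Field K] [Algebra k K] [Algebra (RatFunc k) K]
  [IsScalarTower k (RatFunc k) K] [FiniteDimensional (RatFunc k) K]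
  [Algebra.IsSeparable (RatFunc k) K] [Algebra k[X] K] [IsScalarTower k[X] (RatFunc k) K]
  {Om : Type} [Field Om] [Algebra K Om] [IsGalois K Om]
  {L : IntermediateField K Om} [FiniteDimensional K L] [IsGalois K L]
  [Algebra k[X] L] [Algebra k L] [IsScalarTower k[X] K L]

open Classical in
theorem cheb_level {C a : ℕ}
    (hB2 : ∀ (Bad : Finset (Ideal (AA k K))),
      (∀ v : Ideal (AA k K), v.IsPrime → v ≠ ⊥ → v ∉ Bad → UnramK L v) →
      (∀ v ∈ Bad, v.IsPrime ∧ v ≠ ⊥) →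
      ∀ (N : ℕ), N ≠ 0 → ∀ (f : (L ≃ₐ[K] L) → ℝ), (∀ g τ, f (g * τ * g⁻¹) = f τ) →
      (∀ τ, |f τ| ≤ 1) →
      ∑ τ ∈ Finset.univ.filter (fun τ : L ≃ₐ[K] L => CompK k N τ), f τ = 0 →
      ∀ (S : Finset (Ideal (AA k K))), (∀ v, v ∈ S ↔ v ∈ PrK k K N ∧ v ∉ Bad) →
      ∀ (fr : Ideal (AA k K) → (L ≃ₐ[K] L)), (∀ v ∈ S, FrobK v ((Nat.card k) ^ N) (fr v)) →
      |∑ v ∈ S, f (fr v)| ≤
        C * (finrank K L : ℝ) ^ a * ((∑ v ∈ Bad, dgK k v : ℕ) + 1) *
          √((Nat.card k : ℝ) ^ (N + 1)))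
    (h2 : (2 : k) ≠ 0) (hNP : L.fixingSubgroup ∈ NP K Om) {T : Set (Place k K)} (hT : T.Finite)
    {fr : Om ≃ₐ[K] Om} (hfr : IsFrC k fr) {f : (L ≃ₐ[K] L) → ℝ}
    (hf : ∀ g τ, f (g * τ * g⁻¹) = f τ) (hf1 : ∀ τ, |f τ| ≤ 1)
    (U : Finset (Om ≃ₐ[K] Om)) (hU : ∀ t ∈ U, t ∈ GeoK k K Om)
    (hU' : ∀ g ∈ GeoK k K Om, ∃! t, t ∈ U ∧ t⁻¹ * g ∈ L.fixingSubgroup)
    (d r : ℕ) (hd : 1 ≤ d) (B : Finset {v : Place k K // v ∉ T})
    (hB : ∀ P : {v : Place k K // v ∉ T}, sgK Om P.1 ∉ L.fixingSubgroup → P ∈ B)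
    (hBr : ∑ P ∈ B, P.1.degree ≤ r) (E : Finset {v : Place k K // v ∉ T})
    (hE : ∀ P, P ∈ E ↔ P.1.degree = d ∧ P ∉ B) :
    |∑ P ∈ E, f (AlgEquiv.restrictNormalHom L (phK Om P.1)) -
        (E.card : ℝ) * ((∑ t ∈ U, f (AlgEquiv.restrictNormalHom L (fr ^ d * t))) / U.card)| ≤
      2 * (C * (finrank K L : ℝ) ^ a * ((r + ∑ v ∈ hT.toFinset, v.degree : ℕ) + 1) *
          √((Nat.card k : ℝ) ^ (d + 1))) + 2 * (finite_notFinPl k K).toFinset.card := by
  obtain ⟨hmean, hU0⟩ := mean_res (L := L) hfr d f U hU hU'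
  set c : ℝ := (∑ t ∈ U, f (AlgEquiv.restrictNormalHom L (fr ^ d * t))) / U.card with hc
  have hU0' : (0 : ℝ) < U.card := by
    have : 0 < U.card := Nat.pos_of_ne_zero hU0
    exact_mod_cast this
  have hc1 : |c| ≤ 1 := by
    rw [hc, abs_div, Nat.abs_cast, div_le_one hU0']
    refine (Finset.abs_sum_le_sum_abs _ _).trans ?_
    refine (Finset.sum_le_sum fun t _ => hf1 _).trans ?_
    rw [Finset.sum_const, nsmul_eq_mul, mul_one]
  set g : (L ≃ₐ[K] L) → ℝ := fun τ => (f τ - c) / 2 with hg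
  have hg1 : ∀ τ, |g τ| ≤ 1 := by
    intro τ
    rw [hg]
    change |(f τ - c) / 2| ≤ 1
    have h1 := hf1 τ
    have h3 := abs_sub (f τ) c
    rw [abs_div, abs_two]
    linarith
  have hgc : ∀ s τ, g (s * τ * s⁻¹) = g τ := by
    intro s τ
    rw [hg]
    change (f (s * τ * s⁻¹) - c) / 2 = (f τ - c) / 2
    rw [hf]
  have hg0 : ∑ τ ∈ Finset.univ.filter (fun τ : L ≃ₐ[K] L => CompK k d τ), g τ = 0 := by
    rw [hg]
    rw [← Finset.sum_div, Finset.sum_sub_distrib, Finset.sum_const, nsmul_eq_mul]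
    have h1 : ((Finset.univ.filter fun τ : L ≃ₐ[K] L => CompK k d τ).card : ℝ) * c =
        ∑ τ ∈ Finset.univ.filter (fun τ : L ≃ₐ[K] L => CompK k d τ), f τ := by
      rw [hc, mul_div_assoc', div_eq_iff hU0'.ne', mul_comm, hmean, mul_comm]
    rw [h1, sub_self, zero_div]
  -- the bad primes
  set W : Finset (Place k K) := (B.image Subtype.val ∪ hT.toFinset).filter fun v => FinPl v
    with hW
  set Bad : Finset (Ideal (AA k K)) := W.image pI with hBad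
  have hmemW : ∀ w : Place k K, w ∈ W ↔ ((∃ h : w ∉ T, (⟨w, h⟩ : {v : Place k K // v ∉ T}) ∈ B) ∨
      w ∈ T) ∧ FinPl w := by
    intro w
    rw [hW, Finset.mem_filter, Finset.mem_union, Finset.mem_image, Set.Finite.mem_toFinset]
    constructor
    · rintro ⟨⟨P, hP, rfl⟩ | h, hw⟩
      · exact ⟨Or.inl ⟨P.2, hP⟩, hw⟩
      · exact ⟨Or.inr h, hw⟩
    · rintro ⟨⟨h, hP⟩ | h, hw⟩
      · exact ⟨Or.inl ⟨_, hP, rfl⟩, hw⟩
      · exact ⟨Or.inr h, hw⟩
  have hmemBad : ∀ w : Place k K, FinPl w → (pI w ∈ Bad ↔ w ∈ W) := by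
    intro w hw
    rw [hBad, Finset.mem_image]
    constructor
    · rintro ⟨w', hw', h⟩
      rw [← pI_injective ((hmemW w').1 hw').2 hw h]
      exact hw'
    · intro h
      exact ⟨w, h, rfl⟩
  have hBadU : ∀ v : Ideal (AA k K), v.IsPrime → v ≠ ⊥ → v ∉ Bad → UnramK L v := by
    intro v hv h0 hvB
    obtain ⟨w, hw, rfl⟩ := exists_pI hv h0
    rw [hmemBad w hw, hmemW, not_and_or, not_or, not_exists] at hvB
    rcases hvB with ⟨h3, h4⟩ | h3
    · refine unramK_res h2 hw hNP ?_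
      by_contra h5
      exact h3 h4 (hB ⟨w, h4⟩ h5)
    · exact absurd hw h3
  have hBadP : ∀ v ∈ Bad, v.IsPrime ∧ v ≠ ⊥ := by
    intro v hv
    rw [hBad, Finset.mem_image] at hv
    obtain ⟨w, hw, rfl⟩ := hv
    have h3 := ((hmemW w).1 hw).2
    exact ⟨pI_isPrime h3, pI_ne_bot h3⟩
  -- the good primes
  set Ef : Finset {v : Place k K // v ∉ T} := E.filter fun P => FinPl P.1 with hEf
  set S : Finset (Ideal (AA k K)) := Ef.image fun P => pI P.1 with hS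
  have hmemS : ∀ v, v ∈ S ↔ v ∈ PrK k K d ∧ v ∉ Bad := by
    intro v
    rw [hS, Finset.mem_image]
    constructor
    · rintro ⟨P, hP, rfl⟩
      rw [hEf, Finset.mem_filter, hE] at hP
      refine ⟨(pI_mem_PrK hP.2).2 hP.1.1, ?_⟩
      rw [hmemBad P.1 hP.2, hmemW]
      rintro ⟨⟨h3, h4⟩ | h3, -⟩
      · exact hP.1.2 h4
      · exact P.2 h3
    · rintro ⟨hv, hvB⟩
      obtain ⟨w, hw, rfl⟩ := exists_pI hv.1 hv.2.1
      rw [pI_mem_PrK hw] at hv
      rw [hmemBad w hw, hmemW] at hvB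
      have h3 : w ∉ T := fun h => hvB ⟨Or.inr h, hw⟩
      refine ⟨⟨w, h3⟩, ?_, rfl⟩
      rw [hEf, Finset.mem_filter, hE]
      exact ⟨⟨hv, fun h => hvB ⟨Or.inl ⟨h3, h⟩, hw⟩⟩, hw⟩
  -- the Frobenius elements
  have hfrex : ∀ v : Ideal (AA k K), ∃ ρ : L ≃ₐ[K] L, ∀ w : Place k K, FinPl w → pI w = v →
      ρ = AlgEquiv.restrictNormalHom L (phK Om w) := by
    intro v
    by_cases h : ∃ w : Place k K, FinPl w ∧ pI w = v
    · obtain ⟨w, hw, hwv⟩ := h
      refine ⟨AlgEquiv.restrictNormalHom L (phK Om w), fun w' hw' hwv' => ?_⟩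
      rw [pI_injective hw hw' (hwv.trans hwv'.symm)]
    · exact ⟨1, fun w hw hwv => absurd ⟨w, hw, hwv⟩ h⟩
  choose frI hfrI using hfrex
  have hfrS : ∀ v ∈ S, FrobK v ((Nat.card k) ^ d) (frI v) := by
    intro v hv
    rw [hS, Finset.mem_image] at hv
    obtain ⟨P, hP, rfl⟩ := hv
    rw [hEf, Finset.mem_filter, hE] at hP
    rw [hfrI (pI P.1) P.1 hP.2 rfl]
    have h3 := frobK_res (L := L) (Om := Om) hP.2
    rw [hP.1.1] at h3
    exact h3
  have hmain := hB2 Bad hBadU hBadP d (by omega) g hgc hg1 hg0 S hmemS frI hfrS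
  have hsum : ∑ v ∈ S, g (frI v) = ∑ P ∈ Ef, g (AlgEquiv.restrictNormalHom L (phK Om P.1)) := by
    rw [hS, Finset.sum_image]
    · refine Finset.sum_congr rfl fun P hP => ?_
      rw [hfrI (pI P.1) P.1 (Finset.mem_filter.1 hP).2 rfl]
    · intro P hP P' hP' h
      have hP1 : P ∈ Ef := hP
      have hP2 : P' ∈ Ef := hP'
      exact Subtype.ext (pI_injective (Finset.mem_filter.1 hP1).2 (Finset.mem_filter.1 hP2).2 h)
  rw [hsum] at hmain
  -- degrees
  have hdeg : ∑ v ∈ Bad, dgK k v ≤ r + ∑ v ∈ hT.toFinset, v.degree := by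
    have h3 : ∑ v ∈ Bad, dgK k v ≤ ∑ w ∈ W, dgK k (pI w) := by
      rw [hBad]
      exact Finset.sum_image_le_of_nonneg (fun _ _ => Nat.zero_le _)
    have h4 : ∑ w ∈ W, dgK k (pI w) = ∑ w ∈ W, w.degree :=
      Finset.sum_congr rfl fun w hw => dgK_pI ((hmemW w).1 hw).2
    have h5 : ∑ w ∈ W, w.degree ≤ ∑ w ∈ B.image Subtype.val ∪ hT.toFinset, w.degree :=
      Finset.sum_le_sum_of_subset (Finset.filter_subset _ _)
    have h6 := Finset.sum_union_inter (s₁ := B.image Subtype.val) (s₂ := hT.toFinset)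
      (f := fun w : Place k K => w.degree)
    have h7 : ∑ w ∈ B.image Subtype.val, w.degree = ∑ P ∈ B, P.1.degree :=
      Finset.sum_image fun P _ P' _ h => Subtype.ext h
    omega
  -- the places above infinity
  have hEi : (E.filter fun P => ¬ FinPl P.1).card ≤ (finite_notFinPl k K).toFinset.card := by
    refine Finset.card_le_card_of_injOn Subtype.val ?_ fun P _ P' _ h => Subtype.ext h
    intro P hP
    have hP1 : P ∈ E.filter fun P => ¬ FinPl P.1 := hP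
    rw [Finset.mem_filter] at hP1
    rw [Finset.mem_coe, Set.Finite.mem_toFinset]
    exact hP1.2
  have hsplit : ∑ P ∈ E, f (AlgEquiv.restrictNormalHom L (phK Om P.1)) - (E.card : ℝ) * c =
      2 * ∑ P ∈ Ef, g (AlgEquiv.restrictNormalHom L (phK Om P.1)) +
        ∑ P ∈ E.filter (fun P => ¬ FinPl P.1),
          2 * g (AlgEquiv.restrictNormalHom L (phK Om P.1)) := by
    have h3 : ∑ P ∈ E, f (AlgEquiv.restrictNormalHom L (phK Om P.1)) - (E.card : ℝ) * c =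
        ∑ P ∈ E, 2 * g (AlgEquiv.restrictNormalHom L (phK Om P.1)) := by
      rw [← nsmul_eq_mul, ← Finset.sum_const, ← Finset.sum_sub_distrib]
      refine Finset.sum_congr rfl fun P _ => ?_
      rw [hg]
      ring
    rw [h3, hEf, ← Finset.sum_filter_add_sum_filter_not E (fun P => FinPl P.1), Finset.mul_sum]
  have hEb : |∑ P ∈ E.filter (fun P => ¬ FinPl P.1),
      2 * g (AlgEquiv.restrictNormalHom L (phK Om P.1))| ≤
      2 * (finite_notFinPl k K).toFinset.card := by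
    refine (Finset.abs_sum_le_sum_abs _ _).trans ?_
    have h3 : ∀ P ∈ E.filter (fun P => ¬ FinPl P.1),
        |2 * g (AlgEquiv.restrictNormalHom L (phK Om P.1))| ≤ 2 := by
      intro P _
      rw [abs_mul, abs_two]
      have := hg1 (AlgEquiv.restrictNormalHom L (phK Om P.1))
      linarith
    refine (Finset.sum_le_sum h3).trans ?_
    rw [Finset.sum_const, nsmul_eq_mul, mul_comm]
    have h4 : ((E.filter fun P => ¬ FinPl P.1).card : ℝ) ≤
        (finite_notFinPl k K).toFinset.card := by exact_mod_cast hEi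
    linarith
  rw [hsplit]
  refine (abs_add_le _ _).trans ?_
  rw [abs_mul, abs_two]
  have h3 : C * (finrank K L : ℝ) ^ a * ((∑ v ∈ Bad, dgK k v : ℕ) + 1) *
      √((Nat.card k : ℝ) ^ (d + 1)) ≤
      C * (finrank K L : ℝ) ^ a * ((r + ∑ v ∈ hT.toFinset, v.degree : ℕ) + 1) *
          √((Nat.card k : ℝ) ^ (d + 1)) := by
    refine mul_le_mul_of_nonneg_right ?_ (Real.sqrt_nonneg _)
    refine mul_le_mul_of_nonneg_left ?_ (by positivity)
    have h4 : ((∑ v ∈ Bad, dgK k v : ℕ) : ℝ) ≤ ((r + ∑ v ∈ hT.toFinset, v.degree : ℕ) : ℝ) := by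
      exact_mod_cast hdeg
    linarith
  linarith

end level

section main

variable {k K : Type} [Field k] [Finite k] [Field K] [Algebra k K] [Algebra (RatFunc k) K]
  [IsScalarTower k (RatFunc k) K] [FiniteDimensional (RatFunc k) K]
  [Algebra.IsSeparable (RatFunc k) K]
  {Om : Type} [Field Om] [Algebra K Om] [IsGalois K Om]

private theorem cheb_num {C a h r DT nI d q : ℕ} (hq : 1 ≤ q) (hh : 1 ≤ h) :
    2 * (C * (h : ℝ) ^ a * ((r + DT : ℕ) + 1) * √((q : ℝ) ^ (d + 1))) + 2 * nI ≤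
      ((2 * C * (DT + 1) * q + 2 * nI : ℕ) : ℝ) * ((h : ℝ) * (r + 1)) ^ (a + 1) *
        √((q : ℝ) ^ d) := by
  have hqR : (1 : ℝ) ≤ q := by exact_mod_cast hq
  have hhR : (1 : ℝ) ≤ h := by exact_mod_cast hh
  have hr0 : (0 : ℝ) ≤ r := Nat.cast_nonneg _
  have hD0 : (0 : ℝ) ≤ DT := Nat.cast_nonneg _
  have hC0 : (0 : ℝ) ≤ C := Nat.cast_nonneg _
  have hn0 : (0 : ℝ) ≤ nI := Nat.cast_nonneg _
  have h1 : √((q : ℝ) ^ (d + 1)) ≤ q * √((q : ℝ) ^ d) := by
    rw [pow_succ, mul_comm, Real.sqrt_mul (by positivity)]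
    refine mul_le_mul_of_nonneg_right ?_ (Real.sqrt_nonneg _)
    rw [Real.sqrt_le_left (by positivity)]
    nlinarith
  have h2 : (1 : ℝ) ≤ √((q : ℝ) ^ d) := by
    rw [Real.one_le_sqrt]
    exact one_le_pow₀ hqR
  have h3 : (1 : ℝ) ≤ (h : ℝ) * (r + 1) := by nlinarith
  have h4 : (h : ℝ) ^ a * (r + 1) ≤ ((h : ℝ) * (r + 1)) ^ (a + 1) := by
    rw [mul_pow]
    have h5 : (h : ℝ) ^ a ≤ (h : ℝ) ^ (a + 1) := pow_le_pow_right₀ hhR (by omega)
    have h6 : ((r : ℝ) + 1) ≤ ((r : ℝ) + 1) ^ (a + 1) := by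
      conv_lhs => rw [← pow_one ((r : ℝ) + 1)]
      exact pow_le_pow_right₀ (by linarith) (by omega)
    exact mul_le_mul h5 h6 (by linarith) (by positivity)
  have h5 : (1 : ℝ) ≤ ((h : ℝ) * (r + 1)) ^ (a + 1) := one_le_pow₀ h3
  set X : ℝ := ((h : ℝ) * (r + 1)) ^ (a + 1) with hX
  set s : ℝ := √((q : ℝ) ^ d) with hs
  have h6 : (h : ℝ) ^ a * ((r + DT : ℕ) + 1) ≤ (DT + 1) * X := by
    have h7 : (((r + DT : ℕ) : ℝ) + 1) ≤ (DT + 1) * (r + 1) := by
      push_cast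
      nlinarith
    calc (h : ℝ) ^ a * ((r + DT : ℕ) + 1) ≤ (h : ℝ) ^ a * ((DT + 1) * (r + 1)) :=
          mul_le_mul_of_nonneg_left h7 (by positivity)
      _ = (DT + 1) * ((h : ℝ) ^ a * (r + 1)) := by ring
      _ ≤ _ := mul_le_mul_of_nonneg_left h4 (by positivity)
  have h7 : C * (h : ℝ) ^ a * ((r + DT : ℕ) + 1) * √((q : ℝ) ^ (d + 1)) ≤
      C * ((DT + 1) * X) * (q * s) := by
    rw [mul_assoc (C : ℝ)]
    exact mul_le_mul (mul_le_mul_of_nonneg_left h6 hC0) h1 (Real.sqrt_nonneg _) (by positivity)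
  have h8 : (nI : ℝ) ≤ nI * (X * s) := by
    refine le_mul_of_one_le_right hn0 ?_
    nlinarith
  have h9 : 2 * (C * (h : ℝ) ^ a * ((r + DT : ℕ) + 1) * √((q : ℝ) ^ (d + 1))) + 2 * nI ≤
      2 * (C * ((DT + 1) * X) * (q * s)) + 2 * (nI * (X * s)) := by linarith
  refine h9.trans (le_of_eq ?_)
  push_cast
  ring

/-- **Chebotarev** for the places of `K` outside a finite set `T`. -/
theorem chebK (h2 : (2 : k) ≠ 0) {T : Set (Place k K)} (hT : T.Finite) {fr : Om ≃ₐ[K] Om}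
    (hfr : IsFrC k fr) :
    ∃ a C : ℕ, ∀ N : Subgroup (Om ≃ₐ[K] Om), N.Normal → (∃ N0 ∈ NP K Om, N0 ≤ N) →
      ∀ f : (Om ≃ₐ[K] Om) → ℝ, (∀ s, ∀ n ∈ N, f (s * n) = f s) →
      (∀ s t, f (t * s * t⁻¹) = f s) → (∀ s, |f s| ≤ 1) →
      ∀ U : Finset (Om ≃ₐ[K] Om), (∀ t ∈ U, t ∈ GeoK k K Om) →
      (∀ g ∈ GeoK k K Om, ∃! t, t ∈ U ∧ t⁻¹ * g ∈ N) →
      ∀ d r : ℕ, 1 ≤ d → ∀ B : Finset {v : Place k K // v ∉ T},
      (∀ P, sgK Om P.1 ∉ N → P ∈ B) → ∑ P ∈ B, P.1.degree ≤ r →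
      ∀ E : Finset {v : Place k K // v ∉ T}, (∀ P, P ∈ E ↔ P.1.degree = d ∧ P ∉ B) →
      |∑ P ∈ E, f (phK Om P.1) - (E.card : ℝ) * ((∑ t ∈ U, f (fr ^ d * t)) / U.card)| ≤
        C * ((N.index : ℝ) * (r + 1)) ^ a * √((Nat.card k : ℝ) ^ d) := by
  let _ : Algebra k[X] K :=
    ((algebraMap (RatFunc k) K).comp (algebraMap k[X] (RatFunc k))).toAlgebra
  have : IsScalarTower k[X] (RatFunc k) K := IsScalarTower.of_algebraMap_eq fun _ => rfl
  obtain ⟨C, a, hB2⟩ := B2_fin k K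
  refine ⟨a + 1, 2 * C * (∑ v ∈ hT.toFinset, v.degree + 1) * Nat.card k +
    2 * (finite_notFinPl k K).toFinset.card, ?_⟩
  intro N hN hN0 f hfN hfc hf1 U hU hU' d r hd B hB hBr E hE
  obtain ⟨N0, hN0, hle⟩ := hN0
  have hNP := mem_NP_of_le hN0 hN hle
  obtain ⟨L, hLfd, hLgal, hLdeg, rfl⟩ := exists_field_of_mem_NP hNP
  let _ : Algebra (RatFunc k) L := ((algebraMap K L).comp (algebraMap (RatFunc k) K)).toAlgebra
  have : IsScalarTower (RatFunc k) K L := IsScalarTower.of_algebraMap_eq fun _ => rfl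
  let _ : Algebra k[X] L :=
    ((algebraMap (RatFunc k) L).comp (algebraMap k[X] (RatFunc k))).toAlgebra
  have : IsScalarTower k[X] (RatFunc k) L := IsScalarTower.of_algebraMap_eq fun _ => rfl
  let _ : Algebra k L := ((algebraMap k[X] L).comp (algebraMap k k[X])).toAlgebra
  have : IsScalarTower k k[X] L := IsScalarTower.of_algebraMap_eq fun _ => rfl
  have : IsScalarTower k[X] K L := tow_KM
  -- the function on the finite group
  have hlift : ∀ τ : L ≃ₐ[K] L, ∃ s : Om ≃ₐ[K] Om, AlgEquiv.restrictNormalHom L s = τ :=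
    AlgEquiv.restrictNormalHom_surjective Om
  choose li hli using hlift
  set fL : (L ≃ₐ[K] L) → ℝ := fun τ => f (li τ) with hfL
  have hfLr : ∀ s : Om ≃ₐ[K] Om, fL (AlgEquiv.restrictNormalHom L s) = f s := by
    intro s
    rw [hfL]
    change f (li (AlgEquiv.restrictNormalHom L s)) = f s
    have h1 : s⁻¹ * li (AlgEquiv.restrictNormalHom L s) ∈ L.fixingSubgroup := by
      rw [← IntermediateField.restrictNormalHom_ker, MonoidHom.mem_ker, map_mul, map_inv, hli,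
        inv_mul_cancel]
    rw [← hfN s _ h1, mul_inv_cancel_left]
  have hfLc : ∀ g τ, fL (g * τ * g⁻¹) = fL τ := by
    intro g τ
    rw [← hli g, ← hli τ, ← map_inv, ← map_mul, ← map_mul, hfLr, hfLr, hfc]
  have hdeg : ((finrank K L : ℕ) : k) ≠ 0 := by
    intro h
    apply hLdeg
    have h1 : algebraMap k K ((finrank K L : ℕ) : k) = ((finrank K L : ℕ) : K) := map_natCast _ _
    rw [← h1, h, map_zero]
  have hlev := cheb_level (L := L) (C := C) (a := a)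
    (fun Bad h1 h3 N hN g h4 h5 h6 S h7 fr' h8 =>
      hB2 L hdeg Bad h1 h3 N hN g h4 h5 h6 S h7 fr' h8)
    h2 hNP hT hfr hfLc (fun τ => hf1 _) U hU hU' d r hd B hB hBr E hE
  simp only [hfLr] at hlev
  refine hlev.trans ?_
  have hidx : L.fixingSubgroup.index = finrank K L :=
    (IntermediateField.finrank_eq_fixingSubgroup_index Om L).symm
  rw [hidx]
  exact cheb_num Nat.card_pos finrank_pos

end main

end Pool.Agent.SmBU
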