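import Pool.Agent.Lib.SmBU.Fix

/-!
SMITH-U, block B for general `K`: the codifferent of the field generated by `α` is killed by every
multiple of `f'(α)`, `f` a monic polynomial with the root `α`.
-/

set_option autoImplicit false

namespace Pool.Agent.SmBU

open Module Polynomial Pool.Agent.SmB

section general

variable (D K : Type*) {L : Type*} [CommRing D] [IsDomain D] [IsPrincipalIdealRing D] [Field K]
  [Algebra D K] [IsFractionRing D K] [Field L] [Algebra K L] [Algebra D L] [IsScalarTower D K L]
  [FiniteDimensional K L] [IsGalois K L]

/-- The stabiliser of an element. -/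
def stabE (K : Type*) {L : Type*} [Field K] [Field L] [Algebra K L] (α : L) :
    Subgroup Gal(L/K) where
  carrier := {g | g α = α}
  one_mem' := rfl
  mul_mem' := fun {a b} ha hb => by
    change a (b α) = α
    rw [show b α = α from hb]
    exact ha
  inv_mem' := fun {a} ha => by
    change a⁻¹ α = α
    conv_lhs => rw [← show a α = α from ha]
    rw [← AlgEquiv.mul_apply, inv_mul_cancel, AlgEquiv.one_apply]

theorem mem_stabE {K L : Type*} [Field K] [Field L] [Algebra K L] {α : L} {g : Gal(L/K)} :
    g ∈ stabE K α ↔ g α = α := Iff.rfl

theorem cod_of {α : L} (hα : IsIntegral D α)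
    (hcard : IsUnit ((Nat.card (stabE K α) : ℕ) : D)) {f : D[X]}
    (hfα : aeval α f = 0) {β : L} (hβ : IsIntegral D β) {δ : D}
    (hδ : aeval α (derivative f) * β = algebraMap D L δ) : Cod D K (stabE K α) δ := by
  intro y hy hyt
  have hαK : IsIntegral K α := hα.tower_top
  let E : IntermediateField K L := IntermediateField.adjoin K {α}
  have hE : E = IntermediateField.adjoin K {α} := rfl
  have hαE : α ∈ E := IntermediateField.mem_adjoin_simple_self K α
  have hfixE : E.fixingSubgroup = stabE K α := by
    ext g
    rw [IntermediateField.mem_fixingSubgroup_iff, mem_stabE]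
    constructor
    · intro h
      exact h α hαE
    · intro h
      have h1 : E ≤ IntermediateField.fixedField (Subgroup.zpowers g) := by
        rw [hE, IntermediateField.adjoin_simple_le_iff, IntermediateField.mem_fixedField_iff]
        intro s hs
        have h2 : Subgroup.zpowers g ≤ stabE K α := by
          rw [Subgroup.zpowers_le]
          exact h
        exact h2 hs
      intro x hx
      exact (IntermediateField.mem_fixedField_iff _ _).1 (h1 hx) g (Subgroup.mem_zpowers g)
  have hyE : y ∈ E := by
    rw [← IsGalois.fixedField_fixingSubgroup E, IntermediateField.mem_fixedField_iff, hfixE]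
    exact hy
  let a : E := ⟨α, hαE⟩
  let z : E := ⟨y, hyE⟩
  have hcardE : finrank E L = Nat.card (stabE K α) := by
    rw [← hfixE, IsGalois.card_fixingSubgroup_eq_finrank]
  -- the scalar actions
  have tDKE : IsScalarTower D K E := inferInstance
  have tDEL : IsScalarTower D E L := by
    refine IsScalarTower.of_algebraMap_eq fun d => ?_
    rw [IsScalarTower.algebraMap_apply D K L, IsScalarTower.algebraMap_apply D K E,
      ← IsScalarTower.algebraMap_apply K E L]
  have hinjE : Function.Injective (algebraMap D E) := by
    rw [IsScalarTower.algebraMap_eq D K E]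
    exact (algebraMap K E).injective.comp (IsFractionRing.injective D K)
  have htf : IsTorsionFree D E := by
    have : FaithfulSMul D E := (faithfulSMul_iff_algebraMap_injective D E).2 hinjE
    infer_instance
  have hav : ∀ g : D[X], ((aeval a g : E) : L) = aeval α g := by
    intro g
    exact (aeval_algebraMap_apply L a g).symm
  have haint : IsIntegral D a := by
    have h1 : IsIntegral D ((algebraMap E L) a) := hα
    exact (isIntegral_algebraMap_iff (algebraMap E L).injective).1 h1
  have hadj : Algebra.adjoin K {a} = ⊤ := by
    have h1 := (IntermediateField.adjoin.powerBasis hαK).adjoin_gen_eq_top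
    rw [IntermediateField.adjoin.powerBasis_gen] at h1
    exact h1
  have hsepE : Algebra.IsSeparable K E := inferInstance
  have hmul : ∀ u : E, Algebra.trace K L ((u : E) : L) = finrank E L • Algebra.trace K E u := by
    intro u
    have h1 : Algebra.trace K L (algebraMap E L u) = Algebra.trace K E (Algebra.trace E L (algebraMap E L u)) :=
      (Algebra.trace_trace (R := K) (S := E) (algebraMap E L u)).symm
    rw [Algebra.trace_algebraMap, map_nsmul] at h1
    exact h1
  have hdual : z ∈ (Algebra.traceForm K E).dualSubmodule
      (Subalgebra.toSubmodule (Algebra.adjoin D {a})) := by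
    rw [LinearMap.BilinForm.mem_dualSubmodule]
    intro b hb
    have hb' : b ∈ Algebra.adjoin D {a} := hb
    have hbint : IsIntegral D b := by
      have h1 : Algebra.adjoin D {a} ≤ integralClosure D E := by
        rw [Algebra.adjoin_le_iff, Set.singleton_subset_iff]
        exact haint
      exact h1 hb'
    obtain ⟨d, hd⟩ := hyt (b : L) (hbint.map (IsScalarTower.toAlgHom D E L)) (by
      intro h hh
      rw [← hfixE, IntermediateField.mem_fixingSubgroup_iff] at hh
      exact hh _ b.2)
    have h2 := hmul (z * b)
    rw [show (((z * b : E)) : L) = y * (b : L) from rfl, hd, hcardE] at h2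
    obtain ⟨u, hu⟩ := hcard
    have h3 : Algebra.trace K E (z * b) = algebraMap D K ((u⁻¹ : Dˣ) * d) := by
      rw [(algebraMap D K).map_mul, h2, nsmul_eq_mul, ← map_natCast (algebraMap D K), ← hu,
        ← mul_assoc, ← (algebraMap D K).map_mul, Units.inv_mul, map_one, one_mul]
    rw [Algebra.traceForm_apply, h3]
    exact Submodule.mem_one.2 ⟨_, rfl⟩
  rw [traceForm_dualSubmodule_adjoin D K hadj haint] at hdual
  have hne : (aeval a (derivative (minpoly K a)) : E) ≠ 0 :=
    (Algebra.IsSeparable.isSeparable K a).aeval_derivative_ne_zero (minpoly.aeval _ _)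
  obtain ⟨w, hw, hwz⟩ := hdual
  have hw' : w ∈ Algebra.adjoin D {a} := hw
  have hwint : IsIntegral D w := by
    have h1 : Algebra.adjoin D {a} ≤ integralClosure D E := by
      rw [Algebra.adjoin_le_iff, Set.singleton_subset_iff]
      exact haint
    exact h1 hw'
  have hzw : aeval a (derivative (minpoly K a)) * z = w := by
    have h1 : (aeval a (derivative (minpoly K a)))⁻¹ * w = z := hwz
    rw [← h1, mul_inv_cancel_left₀ hne]
  -- the minimal polynomial divides `f`
  have hmp : minpoly K a = (minpoly D a).map (algebraMap D K) :=
    minpoly.isIntegrallyClosed_eq_field_fractions' K haint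
  have hfa : aeval a f = 0 := by
    apply (algebraMap E L).injective
    rw [map_zero]
    exact (hav f).trans hfα
  obtain ⟨h, hh⟩ := minpoly.isIntegrallyClosed_dvd haint hfa
  have hder : aeval a (derivative f) = aeval a (derivative (minpoly D a)) * aeval a h := by
    rw [hh, derivative_mul, map_add, map_mul, map_mul, minpoly.aeval, zero_mul, add_zero]
  have hder2 : aeval a (derivative (minpoly K a)) = aeval a (derivative (minpoly D a)) := by
    rw [hmp, derivative_map, aeval_map_algebraMap]
  have hfin : (algebraMap D L δ) * y = β * (((aeval a h * w : E)) : L) := by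
    rw [← hδ, ← hav, hder, ← hzw, hder2]
    push_cast
    ring
  rw [hfin]
  refine hβ.mul ?_
  have h5 : IsIntegral D (aeval a h * w) := by
    refine IsIntegral.mul ?_ hwint
    have h6 : aeval a h ∈ Algebra.adjoin D {a} := by
      rw [Algebra.adjoin_singleton_eq_range_aeval]
      exact ⟨h, rfl⟩
    have h1 : Algebra.adjoin D {a} ≤ integralClosure D E := by
      rw [Algebra.adjoin_le_iff, Set.singleton_subset_iff]
      exact haint
    exact h1 h6
  exact h5.map (IsScalarTower.toAlgHom D E L)

end general

end Pool.Agent.SmBU
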