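import Pool.Agent.Lib.SmB.P2cDefs
import Pool.Agent.Lib.SmB.P3Defs

/-!
SMITH-U, block B for general `K`: the valuation rings at infinity of `k(t)` and `F(t)`.
-/

set_option autoImplicit false

namespace Pool.Agent.SmBU

open Module Polynomial Pool.Agent.SmB

theorem uInf_mem {F : Type*} [Field F] : ((RatFunc.X : RatFunc F)⁻¹) ∈ DInf F := by
  rw [mem_DInf, RatFunc.intDegree_inv, RatFunc.intDegree_X]
  right; omega

/-- The element `1 / t` of the valuation ring at infinity. -/
noncomputable def uInf (F : Type*) [Field F] : DInf F := ⟨(RatFunc.X : RatFunc F)⁻¹, uInf_mem⟩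

theorem coe_uInf {F : Type*} [Field F] : ((uInf F : DInf F) : RatFunc F) = (RatFunc.X)⁻¹ := rfl

theorem uInf_ne_zero {F : Type*} [Field F] : uInf F ≠ 0 := by
  intro h
  exact inv_ne_zero (RatFunc.X_ne_zero (K := F)) (congrArg Subtype.val h)

theorem ratMap_mem_DInf {k F : Type*} [Field k] [Field F] [Algebra k F] {x : RatFunc k}
    (hx : x ∈ DInf k) : ratMap k F x ∈ DInf F := by
  rw [mem_DInf] at hx ⊢
  rcases hx with rfl | hx
  · left
    exact map_zero _
  by_cases h0 : x = 0
  · left
    rw [h0, map_zero]
  right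
  have hn : x.num ≠ 0 := RatFunc.num_ne_zero h0
  have hd : x.denom ≠ 0 := RatFunc.denom_ne_zero x
  have hinj : Function.Injective (Polynomial.map (algebraMap k F)) :=
    Polynomial.map_injective _ (algebraMap k F).injective
  have hn' : x.num.map (algebraMap k F) ≠ 0 := by
    rw [Ne, Polynomial.map_eq_zero_iff (algebraMap k F).injective]
    exact hn
  have hd' : x.denom.map (algebraMap k F) ≠ 0 := by
    rw [Ne, Polynomial.map_eq_zero_iff (algebraMap k F).injective]
    exact hd
  have h1 : ratMap k F x = algebraMap F[X] (RatFunc F) (x.num.map (algebraMap k F)) *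
      (algebraMap F[X] (RatFunc F) (x.denom.map (algebraMap k F)))⁻¹ := by
    conv_lhs => rw [← RatFunc.num_div_denom x]
    rw [map_div₀, ratMap_alg, ratMap_alg, div_eq_mul_inv]
  have ha : ∀ p : F[X], p ≠ 0 → algebraMap F[X] (RatFunc F) p ≠ 0 := by
    intro p hp
    rw [Ne, map_eq_zero_iff _ (IsFractionRing.injective F[X] (RatFunc F))]
    exact hp
  rw [h1, RatFunc.intDegree_mul (ha _ hn') (inv_ne_zero (ha _ hd')), RatFunc.intDegree_inv,
    RatFunc.intDegree_polynomial, RatFunc.intDegree_polynomial, natDegree_map, natDegree_map]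
  rw [RatFunc.intDegree] at hx
  exact hx

/-- The inclusion of the valuation rings at infinity. -/
noncomputable def infMap (k F : Type*) [Field k] [Field F] [Algebra k F] : DInf k →+* DInf F :=
  ((ratMap k F).comp (DInf k).subtype).codRestrict (DInf F).toSubring
    (fun x => ratMap_mem_DInf x.2)

theorem coe_infMap {k F : Type*} [Field k] [Field F] [Algebra k F] (x : DInf k) :
    ((infMap k F x : DInf F) : RatFunc F) = ratMap k F x := rfl

theorem infMap_uInf {k F : Type*} [Field k] [Field F] [Algebra k F] :
    infMap k F (uInf k) = uInf F := by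
  apply Subtype.ext
  rw [coe_infMap, coe_uInf, coe_uInf, map_inv₀, ← RatFunc.algebraMap_X, ratMap_alg,
    Polynomial.map_X, RatFunc.algebraMap_X]

end Pool.Agent.SmBU
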