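import Pool.Agent.Lib.SmBU.Fix
import Pool.Agent.Lib.SmBU.Inf

/-!
SMITH-U, block B for general `K`: the trace dual at infinity in a Galois extension `L/F(t)`, which is
tame over the fixed field of a subgroup `H` (the order of `H` is invertible in `F`) whose codifferent at
infinity is killed by `t^(-m)`. (Adapted from `SmB/P2cDual`.)
-/

set_option autoImplicit false

namespace Pool.Agent.SmBU

open Module Polynomial Pool.Agent.SmB

variable {F : Type*} [Field F] [IsAlgClosed F] {L : Type*} [Field L] [Algebra (RatFunc F) L]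
  [Algebra F[X] L] [Algebra F L] [IsScalarTower F F[X] L] [IsScalarTower F[X] (RatFunc F) L]
  [FiniteDimensional (RatFunc F) L] [IsGalois (RatFunc F) L]

/-- A root of a monic polynomial over a ring, modulo a prime ideal, is congruent to a constant. -/
private theorem DualI_const {D B : Type*} [CommRing D] [CommRing B] [Algebra D B]
    (f : F →+* B) (P : Ideal B) (hP : P.IsPrime)
    (hD : ∀ d : D, ∃ a : F, algebraMap D B d - f a ∈ P) (x : B) (hx : IsIntegral D x) :
    ∃ a : F, x - f a ∈ P := by
  obtain ⟨p, hp, hpx⟩ := hx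
  choose r hr using hD
  -- reduce the polynomial
  let fP : F →+* B ⧸ P := (Ideal.Quotient.mk P).comp f
  have hr' : ∀ d, Ideal.Quotient.mk P (algebraMap D B d) = fP (r d) := fun d =>
    Ideal.Quotient.eq.2 (hr d)
  have hfP : Function.Injective fP := by
    have : Nontrivial (B ⧸ P) := Ideal.Quotient.nontrivial_iff.2 hP.ne_top
    exact fP.injective
  let q : F[X] := ∑ i ∈ Finset.range p.natDegree, C (r (p.coeff i)) * X ^ i + X ^ p.natDegree
  have hq1 : (∑ i ∈ Finset.range p.natDegree, C (r (p.coeff i)) * X ^ i : F[X]).degree <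
      (p.natDegree : WithBot ℕ) := by
    refine (degree_sum_le _ _).trans_lt ?_
    rw [Finset.sup_lt_iff (WithBot.bot_lt_coe _)]
    intro i hi
    refine (degree_C_mul_X_pow_le _ _).trans_lt ?_
    exact_mod_cast Finset.mem_range.1 hi
  have hq0 : q ≠ 0 := by
    have h1 : q.Monic := by
      rw [show q = X ^ p.natDegree +
        ∑ i ∈ Finset.range p.natDegree, C (r (p.coeff i)) * X ^ i from add_comm _ _]
      exact monic_X_pow_add hq1
    exact h1.ne_zero
  have hqx : eval₂ fP (Ideal.Quotient.mk P x) q = 0 := by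
    have h1 : Ideal.Quotient.mk P (eval₂ (algebraMap D B) x p) = 0 := by rw [hpx, map_zero]
    rw [eval₂_eq_sum_range, map_sum, Finset.sum_range_succ] at h1
    have h2 : p.coeff p.natDegree = 1 := hp
    rw [h2, map_one, one_mul, map_pow] at h1
    rw [eval₂_add, eval₂_finsetSum, eval₂_X_pow, ← h1]
    congr 1
    refine Finset.sum_congr rfl fun i _ => ?_
    rw [eval₂_mul, eval₂_C, eval₂_X_pow, map_mul, map_pow, hr']
  have hsp := (IsAlgClosed.splits q).eq_prod_roots
  rw [hsp, eval₂_mul, eval₂_C, eval₂_multiset_prod, mul_eq_zero] at hqx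
  rcases hqx with h | h
  · exfalso
    rw [map_eq_zero_iff _ hfP, leadingCoeff_eq_zero] at h
    exact hq0 h
  · have : IsDomain (B ⧸ P) := Ideal.Quotient.isDomain P
    rw [Multiset.prod_eq_zero_iff, Multiset.map_map, Multiset.mem_map] at h
    obtain ⟨a, _, ha⟩ := h
    refine ⟨a, ?_⟩
    rw [← Ideal.Quotient.eq]
    have h3 : eval₂ fP (Ideal.Quotient.mk P x) (X - C a) = 0 := ha
    rw [eval₂_sub, eval₂_X, eval₂_C, sub_eq_zero] at h3
    exact h3

omit [Algebra (RatFunc F) L] [Algebra F L] [IsScalarTower F F[X] L]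
  [IsScalarTower F[X] (RatFunc F) L] [FiniteDimensional (RatFunc F) L]
  [IsGalois (RatFunc F) L] in
private theorem DualI_resfin (c : F) (P : Ideal (AA F L)) (hP : P.IsPrime)
    (hc : algebraMap F[X] (AA F L) (X - C c) ∈ P) (x : AA F L) :
    ∃ a : F, x - algebraMap F[X] (AA F L) (C a) ∈ P := by
  refine DualI_const (D := F[X]) ((algebraMap F[X] (AA F L)).comp C) P hP ?_ x ?_
  · intro d
    refine ⟨d.eval c, ?_⟩
    have h1 : (X - C c) ∣ d - C (d.eval c) := X_sub_C_dvd_sub_C_eval
    obtain ⟨e, he⟩ := h1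
    have h2 : algebraMap F[X] (AA F L) d - ((algebraMap F[X] (AA F L)).comp C) (d.eval c) =
        algebraMap F[X] (AA F L) (X - C c) * algebraMap F[X] (AA F L) e := by
      rw [← map_mul, ← he, map_sub]
      rfl
    rw [h2]
    exact P.mul_mem_right _ hc
  · have h := x.2
    exact (isIntegral_algebraMap_iff (A := AA F L) (B := L) Subtype.val_injective).1 h
/-! ### The place at infinity -/


omit [IsAlgClosed F] in
private theorem DualI_CInf (a : F) : (RatFunc.C a : RatFunc F) ∈ DInf F := by
  rw [mem_DInf, RatFunc.intDegree_C]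
  right; exact le_rfl

omit [IsAlgClosed F] in
/-- An element of `DInf` is congruent to a constant modulo `1 / t`. -/
private theorem DualI_resInf (d : DInf F) : ∃ (a : F) (e : DInf F),
    (d : RatFunc F) = RatFunc.C a + (RatFunc.X)⁻¹ * (e : RatFunc F) := by
  have key : ∀ y : RatFunc F, (y = 0 ∨ y.intDegree < 0) → RatFunc.X * y ∈ DInf F := by
    intro y hy
    rw [mem_DInf]
    by_cases h0 : y = 0
    · left; rw [h0, mul_zero]
    · right
      rw [RatFunc.intDegree_mul RatFunc.X_ne_zero h0, RatFunc.intDegree_X]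
      have := hy.resolve_left h0
      omega
  obtain ⟨x, hx⟩ := d
  rw [mem_DInf] at hx
  obtain ⟨a, ha⟩ : ∃ a : F, x - RatFunc.C a = 0 ∨ (x - RatFunc.C a).intDegree < 0 := by
    rcases hx with rfl | hx
    · exact ⟨0, by simp⟩
    by_cases hx0 : x = 0
    · exact ⟨0, by simp [hx0]⟩
    -- the quotient of the coefficients
    have hden : x.denom ≠ 0 := RatFunc.denom_ne_zero x
    set N := x.denom.natDegree with hN
    have hdeg : x.num.natDegree ≤ N := by
      rw [RatFunc.intDegree] at hx
      omega
    refine ⟨x.num.coeff N / x.denom.leadingCoeff, ?_⟩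
    set a := x.num.coeff N / x.denom.leadingCoeff with ha
    have h1 : x - RatFunc.C a = algebraMap F[X] (RatFunc F) (x.num - C a * x.denom) /
        algebraMap F[X] (RatFunc F) x.denom := by
      have h2 : algebraMap F[X] (RatFunc F) x.denom ≠ 0 := by
        rw [Ne, map_eq_zero_iff _ (IsFractionRing.injective F[X] (RatFunc F))]
        exact hden
      rw [map_sub, map_mul, sub_div, mul_div_assoc, div_self h2, mul_one, RatFunc.num_div_denom]
      rfl
    by_cases h3 : x.num - C a * x.denom = 0
    · left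
      rw [h1, h3, map_zero, zero_div]
    · right
      have h4 : (x.num - C a * x.denom).natDegree < N := by
        have h5 : (x.num - C a * x.denom).coeff N = 0 := by
          rw [coeff_sub, coeff_C_mul]
          have : x.denom.coeff N = x.denom.leadingCoeff := rfl
          rw [this, ha, div_mul_cancel₀ _ (leadingCoeff_ne_zero.2 hden), sub_self]
        have h6 : (x.num - C a * x.denom).natDegree ≤ N := by
          refine (natDegree_sub_le _ _).trans (max_le hdeg ?_)
          exact natDegree_C_mul_le _ _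
        refine lt_of_le_of_ne h6 fun h7 => ?_
        rw [← h7] at h5
        exact h3 (leadingCoeff_eq_zero.1 h5)
      have h8 : algebraMap F[X] (RatFunc F) (x.num - C a * x.denom) ≠ 0 := by
        rw [Ne, map_eq_zero_iff _ (IsFractionRing.injective F[X] (RatFunc F))]
        exact h3
      have h9 : algebraMap F[X] (RatFunc F) x.denom ≠ 0 := by
        rw [Ne, map_eq_zero_iff _ (IsFractionRing.injective F[X] (RatFunc F))]
        exact hden
      rw [h1, div_eq_mul_inv, RatFunc.intDegree_mul h8 (inv_ne_zero h9), RatFunc.intDegree_inv,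
        RatFunc.intDegree_polynomial, RatFunc.intDegree_polynomial]
      omega
  refine ⟨a, ⟨RatFunc.X * (x - RatFunc.C a), key _ ha⟩, ?_⟩
  change x = RatFunc.C a + (RatFunc.X)⁻¹ * (RatFunc.X * (x - RatFunc.C a))
  rw [inv_mul_cancel_left₀ RatFunc.X_ne_zero]
  ring

omit [IsAlgClosed F] [IsGalois (RatFunc F) L] [Algebra F L] [IsScalarTower F F[X] L]
  [FiniteDimensional (RatFunc F) L] in
private theorem DualI_tL : algebraMap (RatFunc F) L (RatFunc.X)⁻¹ = (tL F L)⁻¹ := by
  rw [map_inv₀]
  congr 1
  rw [← RatFunc.algebraMap_X, ← IsScalarTower.algebraMap_apply]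
theorem dual_inf2 {H : Subgroup (L ≃ₐ[RatFunc F] L)} (hH : ((Nat.card H : ℕ) : F) ≠ 0) {m : ℕ}
    (hδ : Cod (DInf F) (RatFunc F) H (uInf F ^ m)) (x₀ : L)
    (hx₀ : ∀ b : L, IntInf F L b → Algebra.trace (RatFunc F) L (x₀ * b) ∈ DInf F) :
    IntInf F L ((tL F L)⁻¹ ^ (m + 1) * x₀) := by
  classical
  have hHfin : Fintype H := Fintype.ofFinite H
  have hint : ∀ b : L, IntInf F L b ↔ IsIntegral (DInf F) b := fun b => Iff.rfl
  have hinjL : Function.Injective (algebraMap (DInf F) L) := by
    rw [IsScalarTower.algebraMap_eq (DInf F) (RatFunc F) L]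
    exact (algebraMap (RatFunc F) L).injective.comp (IsFractionRing.injective (DInf F) (RatFunc F))
  set u : DInf F := uInf F with hu
  have hu0 : u ≠ 0 := by
    intro h
    exact inv_ne_zero (RatFunc.X_ne_zero (K := F)) (congrArg Subtype.val h)
  have huL : algebraMap (DInf F) L u = (tL F L)⁻¹ := by
    rw [← DualI_tL (F := F) (L := L)]
    rfl
  have huL0 : (tL F L)⁻¹ ≠ 0 := by
    rw [← huL]
    intro h
    exact hu0 (hinjL (by rw [h, map_zero]))
  obtain ⟨x, hxdef⟩ : ∃ x : L, x = (tL F L)⁻¹ ^ m * x₀ := ⟨_, rfl⟩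
  have hcomm : ∀ (h : L ≃ₐ[RatFunc F] L) (j : ℕ) (z : L),
      h ((tL F L)⁻¹ ^ j * z) = (tL F L)⁻¹ ^ j * h z := by
    intro h j z
    rw [← huL, ← map_pow, IsScalarTower.algebraMap_apply (DInf F) (RatFunc F) L, map_mul,
      AlgEquiv.commutes]
  have hsumH : ∀ b : L, IsIntegral (DInf F) b →
      IsIntegral (DInf F) (∑ h : H, (h : L ≃ₐ[RatFunc F] L) (x * b)) := by
    intro b hb
    have h1 := cod_sum (DInf F) (RatFunc F) hδ x₀ (fun a ha => ⟨⟨_, hx₀ a ha⟩, rfl⟩) hb
    have h3 : algebraMap (DInf F) L (u ^ m) * ∑ h : H, (h : L ≃ₐ[RatFunc F] L) (x₀ * b) =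
        ∑ h : H, (h : L ≃ₐ[RatFunc F] L) (x * b) := by
      rw [map_pow, huL, Finset.mul_sum]
      refine Finset.sum_congr rfl fun h _ => ?_
      rw [hxdef, mul_assoc, hcomm]
    rwa [h3] at h1
  -- a minimal exponent
  have hex : ∃ k : ℕ, IsIntegral (DInf F) ((tL F L)⁻¹ ^ k * x) := by
    have halg : IsAlgebraic (DInf F) x := by
      have h1 : IsAlgebraic (RatFunc F) x := Algebra.IsAlgebraic.isAlgebraic x
      exact (IsFractionRing.isAlgebraic_iff (DInf F) (RatFunc F) L).2 h1
    obtain ⟨d, hd, hi⟩ := halg.exists_integral_multiple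
    have hd0 : (d : RatFunc F) ≠ 0 := fun h => hd (Subtype.ext h)
    set k := (-(d : RatFunc F).intDegree).toNat with hk
    have hdk : -(d : RatFunc F).intDegree = k := by
      have h3 := d.2
      rw [mem_DInf] at h3
      have := h3.resolve_left hd0
      omega
    have hX : (RatFunc.X : RatFunc F)⁻¹ ≠ 0 := inv_ne_zero RatFunc.X_ne_zero
    have hXk : ∀ m : ℕ, ((RatFunc.X : RatFunc F)⁻¹ ^ m).intDegree = -m := by
      intro m
      induction m with
      | zero => simp
      | succ m ih =>
        rw [pow_succ, RatFunc.intDegree_mul (pow_ne_zero _ hX) hX, ih, RatFunc.intDegree_inv,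
          RatFunc.intDegree_X]
        push_cast
        ring
    have hmem : (RatFunc.X : RatFunc F)⁻¹ ^ k * (d : RatFunc F)⁻¹ ∈ DInf F := by
      rw [mem_DInf]
      right
      rw [RatFunc.intDegree_mul (pow_ne_zero _ hX) (inv_ne_zero hd0), RatFunc.intDegree_inv, hXk]
      omega
    refine ⟨k, ?_⟩
    have h4 : (tL F L)⁻¹ ^ k * x =
        algebraMap (DInf F) L ⟨_, hmem⟩ * (d • x) := by
      rw [Algebra.smul_def, ← mul_assoc, ← map_mul]
      congr 1
      rw [← huL, ← map_pow]
      congr 1
      apply Subtype.ext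
      change (RatFunc.X : RatFunc F)⁻¹ ^ k = (RatFunc.X : RatFunc F)⁻¹ ^ k * (d : RatFunc F)⁻¹ * (d : RatFunc F)
      rw [inv_mul_cancel_right₀ hd0]
    rw [h4]
    exact (isIntegral_algebraMap).mul hi
  have hk := Nat.find_spec hex
  set k := Nat.find hex with hkdef
  rw [hint]
  have hfin : (tL F L)⁻¹ ^ (m + 1) * x₀ = (tL F L)⁻¹ * x := by
    rw [hxdef, pow_succ']
    ring
  rw [hfin]
  by_cases hk1 : k ≤ 1
  · have h3 : (tL F L)⁻¹ * x = algebraMap (DInf F) L (u ^ (1 - k)) * ((tL F L)⁻¹ ^ k * x) := by
      rw [map_pow, huL, ← mul_assoc, ← pow_add, Nat.sub_add_cancel hk1, pow_one]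
    rw [h3]
    exact isIntegral_algebraMap.mul hk
  · exfalso
    push Not at hk1
    let b₁ : integralClosure (DInf F) L := ⟨(tL F L)⁻¹ ^ k * x, hk⟩
    have hdvd : algebraMap (DInf F) (integralClosure (DInf F) L) u ∣ b₁ := by
      refine dualH_tame (DInf F) (RatFunc F) (H := H) ?_ hu0 ?_ b₁ ?_
      · have h1 := (IsUnit.mk0 _ hH).map (RatFunc.C.codRestrict (DInf F).toSubring DualI_CInf)
        rwa [map_natCast] at h1
      · intro P hP huP y
        obtain ⟨a, ha⟩ := DualI_const (F := F) (D := DInf F)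
          ((algebraMap (DInf F) (integralClosure (DInf F) L)).comp
            (RatFunc.C.codRestrict (DInf F).toSubring DualI_CInf)) P hP (by
            intro d
            obtain ⟨a, e, h⟩ := DualI_resInf d
            refine ⟨a, ?_⟩
            have h5 : algebraMap (DInf F) (integralClosure (DInf F) L) d -
                ((algebraMap (DInf F) (integralClosure (DInf F) L)).comp
                  (RatFunc.C.codRestrict (DInf F).toSubring DualI_CInf)) a =
                algebraMap (DInf F) (integralClosure (DInf F) L) u *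
                  algebraMap (DInf F) (integralClosure (DInf F) L) e := by
              rw [← map_mul, RingHom.comp_apply, ← map_sub]
              congr 1
              apply Subtype.ext
              change (d : RatFunc F) - RatFunc.C a = (RatFunc.X)⁻¹ * (e : RatFunc F)
              rw [h]
              ring
            rw [h5]
            exact P.mul_mem_right _ huP) y (by
            exact (isIntegral_algebraMap_iff (A := integralClosure (DInf F) L) (B := L)
              Subtype.val_injective).1 y.2)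
        exact ⟨_, ha⟩
      · intro b
        refine ⟨⟨_, (isIntegral_algebraMap (R := DInf F) (A := L) (x := u ^ (k - 2))).mul
          (hsumH (b : L) b.2)⟩, ?_⟩
        change ∑ h : H, (h : L ≃ₐ[RatFunc F] L) ((tL F L)⁻¹ ^ k * x * (b : L)) =
          algebraMap (DInf F) L (u ^ 2) * (algebraMap (DInf F) L (u ^ (k - 2)) *
          ∑ h : H, (h : L ≃ₐ[RatFunc F] L) (x * (b : L)))
        rw [← mul_assoc, ← map_mul, ← pow_add, show 2 + (k - 2) = k by omega, map_pow, huL,
          Finset.mul_sum]
        refine Finset.sum_congr rfl fun h _ => ?_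
        rw [mul_assoc, hcomm]
    obtain ⟨b', hb'⟩ := hdvd
    have hlt : k - 1 < Nat.find hex := by omega
    apply Nat.find_min hex hlt
    have h7 : (tL F L)⁻¹ ^ (k - 1) * x = (b' : L) := by
      apply mul_left_cancel₀ huL0
      rw [← mul_assoc, ← pow_succ', Nat.sub_add_cancel (by omega)]
      have h8 := congrArg Subtype.val hb'
      change (tL F L)⁻¹ ^ k * x = algebraMap (DInf F) L u * (b' : L) at h8
      rw [huL] at h8
      exact h8
    rw [h7]
    exact b'.2

end Pool.Agent.SmBU
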