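import Pool.Agent.Lib.SmBU.DualF
import Pool.Agent.Lib.SmBU.DualI
import Pool.Agent.Lib.SmB.P2cDim

/-!
SMITH-U, block B for general `K`: the dimension bound
`dim LL m ≥ n (m+1) - n (#B + deg δ + e + 1)` (adapted from `SmB/P2cDim`).
-/

set_option autoImplicit false

namespace Pool.Agent.SmBU

open Module Polynomial Pool.Agent.SmB Pool.Agent.SmB.P2c

section dim

variable {F : Type*} [Field F] {L : Type*} [Field L] [Algebra (RatFunc F) L]
  [Algebra F[X] L] [Algebra F L] [IsScalarTower F F[X] L] [IsScalarTower F[X] (RatFunc F) L]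

omit [Algebra F L] [IsScalarTower F F[X] L] in
private theorem Dim2_tL : tL F L = algebraMap (RatFunc F) L RatFunc.X := by
  rw [← RatFunc.algebraMap_X, ← IsScalarTower.algebraMap_apply]

omit [Algebra F L] [IsScalarTower F F[X] L] in
private theorem Dim2_pow (m : ℕ) : (tL F L)⁻¹ ^ m = algebraMap (RatFunc F) L
    (RatFunc.X ^ (-(m : ℤ))) := by
  rw [Dim2_tL, zpow_neg, zpow_natCast, map_inv₀, map_pow, inv_pow]

omit [Algebra F L] [IsScalarTower F F[X] L] in
private theorem Dim2_sz {m : ℕ} {x : L} : IntInf F L (x * (tL F L)⁻¹ ^ m) ↔ Sz F (m : ℤ) x := by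
  unfold Sz
  rw [Dim2_pow, mul_comm]

end dim

section main

variable {F : Type*} [Field F] [IsAlgClosed F] {L : Type*} [Field L] [Algebra (RatFunc F) L]
  [Algebra F[X] L] [Algebra F L] [IsScalarTower F F[X] L] [IsScalarTower F[X] (RatFunc F) L]
  [FiniteDimensional (RatFunc F) L] [IsGalois (RatFunc F) L]

theorem ll_dim2 {H : Subgroup (L ≃ₐ[RatFunc F] L)} (hH : ((Nat.card H : ℕ) : F) ≠ 0)
    {δ : F[X]} (hδ0 : δ ≠ 0) (hδ : Cod F[X] (RatFunc F) H δ) {e : ℕ}
    (hε : Cod (DInf F) (RatFunc F) H (uInf F ^ e)) (B : Finset F)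
    (hB : ∀ c, c ∉ B → UnramM L (X - C c)) (m : ℕ) :
    finrank (RatFunc F) L * (m + 1) ≤
      finrank F (LL F L m) + finrank (RatFunc F) L * (B.card + δ.natDegree + e + 1) := by
  classical
  obtain ⟨w, y, hw, hy, hpol, hdeg⟩ := exists_adapted (F := F) (L := L)
  have hfin := fin_LL (F := F) (L := L) m
  -- the sizes are bounded
  have hyB : ∀ i, y i ≤ B.card + δ.natDegree + e + 1 := by
    intro i
    let w' := (Algebra.traceForm (RatFunc F) L).dualBasis (traceForm_nondegenerate (RatFunc F) L) w
    have hw' : ∀ x : L, Algebra.trace (RatFunc F) L (w' i * x) = w.repr x i := by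
      intro x
      conv_lhs => rw [← w.sum_repr x, Finset.mul_sum, map_sum]
      rw [Finset.sum_eq_single i]
      · rw [mul_smul_comm, map_smul, ← Algebra.traceForm_apply]
        rw [LinearMap.BilinForm.apply_dualBasis_left, if_pos rfl, smul_eq_mul, mul_one]
      · intro j _ hj
        rw [mul_smul_comm, map_smul, ← Algebra.traceForm_apply]
        rw [LinearMap.BilinForm.apply_dualBasis_left, if_neg hj, smul_zero]
      · intro h
        exact absurd (Finset.mem_univ _) h
    obtain ⟨z, hz⟩ := dual_fin2 hH hδ B hB (w' i) (fun a => by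
      rw [hw']
      exact hpol _ a.2 i)
    have hinf := dual_inf2 hH hε (algebraMap (RatFunc F) L (RatFunc.X ^ (y i : ℤ)) * w' i)
      (fun b hb => by
        rw [mul_assoc, ← Algebra.smul_def, map_smul, hw', smul_eq_mul]
        have h0 : Sz F 0 b := by
          unfold Sz
          rw [neg_zero, zpow_zero, map_one, one_mul]
          exact hb
        have h1 := hdeg b 0 h0 i
        unfold DLe at h1
        rw [zero_sub, neg_neg] at h1
        exact h1)
    have hsz : Sz F ((e : ℤ) + 1 - (y i : ℤ)) (w' i) := by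
      unfold Sz
      have h1 : algebraMap (RatFunc F) L (RatFunc.X ^ (-((e : ℤ) + 1 - (y i : ℤ)))) * w' i =
          (tL F L)⁻¹ ^ (e + 1) * (algebraMap (RatFunc F) L (RatFunc.X ^ (y i : ℤ)) * w' i) := by
        rw [Dim2_pow, ← mul_assoc, ← map_mul, ← zpow_add₀ RatFunc.X_ne_zero]
        congr 3
        push_cast
        ring
      rw [h1]
      exact hinf
    set gB : F[X] := (∏ c ∈ B, (X - C c)) * δ with hgB
    have hPm : (∏ c ∈ B, (X - C c)).Monic := monic_prod_of_monic _ _ fun c _ => monic_X_sub_C c
    have hgB0 : gB ≠ 0 := mul_ne_zero hPm.ne_zero hδ0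
    have hgdeg : gB.natDegree = B.card + δ.natDegree := by
      rw [hgB, hPm.natDegree_mul' hδ0, natDegree_prod_of_monic _ _ fun c _ => monic_X_sub_C c]
      simp
    have hsz2 : Sz F (((B.card + δ.natDegree : ℕ) : ℤ) + ((e : ℤ) + 1 - (y i : ℤ))) (z : L) := by
      rw [hz, IsScalarTower.algebraMap_apply F[X] (RatFunc F) L, ← Algebra.smul_def]
      refine hsz.smul ?_
      rw [dLe_polynomial, hgdeg]
    have hz0 : (z : L) ≠ 0 := by
      rw [hz]
      refine mul_ne_zero ?_ (w'.ne_zero i)
      rw [IsScalarTower.algebraMap_apply F[X] (RatFunc F) L, Ne, map_eq_zero,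
        map_eq_zero_iff _ (IsFractionRing.injective F[X] (RatFunc F))]
      exact hgB0
    have h3 := sz_nonneg z.2 hz0 hsz2
    push_cast at h3
    omega
  -- the lower bound
  have hlow : ∑ i, (m + 1 - y i) ≤ finrank F (LL F L m) := by
    have hmem : ∀ p : ((i : Fin (finrank (RatFunc F) L)) → Polynomial.degreeLT F (m + 1 - y i)),
        ∃ x : LL F L m, ((x : AA F L) : L) = comb (F := F) w (fun i => m + 1 - y i) p := by
      intro p
      have hA : comb (F := F) w (fun i => m + 1 - y i) p ∈ AA F L := by
        rw [comb_apply]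
        exact sum_mem fun i _ => mul_mem (Subalgebra.algebraMap_mem _ _) (hw i)
      have hS : Sz F (m : ℤ) (comb (F := F) w (fun i => m + 1 - y i) p) := by
        rw [comb_smul]
        refine Sz.sum _ fun i _ => ?_
        by_cases hi : y i ≤ m
        · have h1 : DLe ((m - y i : ℕ) : ℤ) (algebraMap F[X] (RatFunc F) (p i : F[X])) := by
            rw [dLe_polynomial]
            have h2 := Polynomial.mem_degreeLT.1 (p i).2
            by_cases h3 : (p i : F[X]) = 0
            · rw [h3, natDegree_zero]
              exact Nat.zero_le _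
            · have h4 := (natDegree_lt_iff_degree_lt h3).2 h2
              omega
          have h5 := (hy i).smul h1
          have h6 : ((m - y i : ℕ) : ℤ) + y i = m := by omega
          rwa [h6] at h5
        · have h2 := Polynomial.mem_degreeLT.1 (p i).2
          have h3 : m + 1 - y i = 0 := by omega
          have h4 : (p i : F[X]) = 0 := by
            rw [← Polynomial.degree_eq_bot]
            have h5 : (p i : F[X]).degree < ((0 : ℕ) : WithBot ℕ) :=
              lt_of_lt_of_le h2 (by exact_mod_cast h3.le)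
            exact Nat.WithBot.lt_zero_iff.1 h5
          rw [h4, map_zero, zero_smul]
          exact Sz.zero _
      refine ⟨⟨⟨_, hA⟩, ?_⟩, rfl⟩
      rw [mem_LL]
      exact intOv_of ⟨_, hA⟩ m (Dim2_sz.2 hS)
    choose Ψ hΨ using hmem
    let Ψl : ((i : Fin (finrank (RatFunc F) L)) → Polynomial.degreeLT F (m + 1 - y i)) →ₗ[F]
        LL F L m :=
      { toFun := Ψ
        map_add' := fun p p' => by
          refine Subtype.ext (Subtype.ext ?_)
          show ((Ψ (p + p') : AA F L) : L) = ((Ψ p : AA F L) : L) + ((Ψ p' : AA F L) : L)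
          rw [hΨ, hΨ, hΨ, map_add]
        map_smul' := fun c p => by
          refine Subtype.ext (Subtype.ext ?_)
          show ((Ψ (c • p) : AA F L) : L) = c • ((Ψ p : AA F L) : L)
          rw [hΨ, hΨ, map_smul] }
    have hinj : Function.Injective Ψl := by
      intro p p' h
      have h1 : ((Ψ p : AA F L) : L) = ((Ψ p' : AA F L) : L) := by
        have h2 : Ψ p = Ψ p' := h
        rw [h2]
      rw [hΨ, hΨ] at h1
      exact comb_injective w _ h1
    have h1 := LinearMap.finrank_le_finrank_of_injective hinj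
    have hf : ∀ d : ℕ, FiniteDimensional F (Polynomial.degreeLT F d) :=
      fun d => Module.Finite.equiv (Polynomial.degreeLTEquiv F d).symm
    rw [Module.finrank_pi_fintype] at h1
    refine le_trans (le_of_eq ?_) h1
    refine Finset.sum_congr rfl fun i _ => ?_
    rw [(Polynomial.degreeLTEquiv F (m + 1 - y i)).finrank_eq, Module.finrank_fin_fun]
  have hsum : finrank (RatFunc F) L * (m + 1) ≤ ∑ i, (m + 1 - y i) + ∑ i, y i := by
    rw [← Finset.sum_add_distrib]
    have h1 : finrank (RatFunc F) L * (m + 1) =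
        ∑ _i : Fin (finrank (RatFunc F) L), (m + 1) := by
      rw [Finset.sum_const, Finset.card_univ, Fintype.card_fin, smul_eq_mul]
    rw [h1]
    exact Finset.sum_le_sum fun i _ => by omega
  have hsum2 : ∑ i, y i ≤ finrank (RatFunc F) L * (B.card + δ.natDegree + e + 1) := by
    have h1 : finrank (RatFunc F) L * (B.card + δ.natDegree + e + 1) =
        ∑ _i : Fin (finrank (RatFunc F) L), (B.card + δ.natDegree + e + 1) := by
      rw [Finset.sum_const, Finset.card_univ, Fintype.card_fin, smul_eq_mul]
    rw [h1]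
    exact Finset.sum_le_sum fun i _ => hyB i
  omega

end main

end Pool.Agent.SmBU
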