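import Pool.Agent.Lib.SmBU.Fix

/-!
SMITH-U, block B for general `K`: the trace duals of the integral closures of `F[t]` and of the
valuation ring at infinity in a Galois extension `L/F(t)`, which is tame over the fixed field of a
subgroup `H` (the order of `H` is invertible in `F`) whose codifferents are killed by `δ` and `t^(-m)`.
(Adapted from `SmB/P2cDual`.)
-/

set_option autoImplicit false

namespace Pool.Agent.SmBU

open Module Polynomial Pool.Agent.SmB

section general

variable (D K : Type*) {L : Type*} [CommRing D] [IsDomain D] [IsPrincipalIdealRing D] [Field K]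
  [Algebra D K] [IsFractionRing D K] [Field L] [Algebra K L] [Algebra D L] [IsScalarTower D K L]
  [FiniteDimensional K L] [IsGalois K L]

private theorem DualK_setup : ∃ (ρ : Gal(L/K) →* (integralClosure D L ≃ₐ[D] integralClosure D L))
    (τ : integralClosure D L →ₗ[D] D),
    (∀ b, algebraMap D (integralClosure D L) (τ b) = ∑ g, ρ g b) ∧
    (∀ g b, ((ρ g b : integralClosure D L) : L) = g (b : L)) ∧
    (∀ b : integralClosure D L, algebraMap D K (τ b) = Algebra.trace K L (b : L)) := by
  have hB : IsDedekindDomain (integralClosure D L) := integralClosure.isDedekindDomain D K L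
  have hfin : Module.Finite D (integralClosure D L) :=
    IsIntegralClosure.finite D K L (integralClosure D L)
  have hinj : Function.Injective (algebraMap D L) := by
    rw [IsScalarTower.algebraMap_eq D K L]
    exact (algebraMap K L).injective.comp (IsFractionRing.injective D K)
  have htf : IsTorsionFree D L := by
    have : FaithfulSMul D L := (faithfulSMul_iff_algebraMap_injective D L).2 hinj
    infer_instance
  refine ⟨(galRestrict D K L (integralClosure D L)).toMonoidHom,
    Algebra.intTrace D (integralClosure D L), ?_, ?_, ?_⟩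
  · intro b
    apply Subtype.val_injective
    have h1 : ((algebraMap D (integralClosure D L) (Algebra.intTrace D (integralClosure D L) b) :
        integralClosure D L) : L) = algebraMap K L (Algebra.trace K L (b : L)) := by
      have h2 := Algebra.algebraMap_intTrace (A := D) (K := K) (L := L) (B := integralClosure D L) b
      have h3 : (algebraMap (integralClosure D L) L) b = (b : L) := rfl
      rw [h3] at h2
      rw [← h2, ← IsScalarTower.algebraMap_apply]
      rfl
    rw [h1, trace_eq_sum_automorphisms]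
    rw [AddSubmonoidClass.coe_finsetSum]
    refine Finset.sum_congr rfl fun g _ => ?_
    exact (algebraMap_galRestrict_apply D g b).symm
  · intro g b
    exact algebraMap_galRestrict_apply D g b
  · intro b
    exact Algebra.algebraMap_intTrace (A := D) (K := K) (L := L) (B := integralClosure D L) b
/-- Unramified places: if the traces of `b₁ b` are divisible by `π` then `π ∣ b₁`. -/
private theorem DualK_unr {π : D} (hπ : Prime π) (P : Ideal (integralClosure D L))
    (hP : P.IsPrime) (hπP : algebraMap D (integralClosure D L) π ∈ P)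
    (hstab : ∀ g : Gal(L/K), (∀ x y : integralClosure D L, (y : L) = g x → (y ∈ P ↔ x ∈ P)) → g = 1)
    (b₁ : integralClosure D L)
    (hb : ∀ b : integralClosure D L, ∃ d : D,
      Algebra.trace K L ((b₁ : L) * (b : L)) = algebraMap D K (π * d)) :
    algebraMap D (integralClosure D L) π ∣ b₁ := by
  classical
  have hB : IsDedekindDomain (integralClosure D L) := integralClosure.isDedekindDomain D K L
  obtain ⟨ρ, τ, htr, hρ, hτ⟩ := DualK_setup D K (L := L)
  have hinjL : Function.Injective (algebraMap D L) := by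
    rw [IsScalarTower.algebraMap_eq D K L]
    exact (algebraMap K L).injective.comp (IsFractionRing.injective D K)
  have hinj : Function.Injective (algebraMap D (integralClosure D L)) := by
    intro x y hxy
    exact hinjL (congrArg Subtype.val hxy)
  have htf : IsTorsionFree D L := by
    have : FaithfulSMul D L := (faithfulSMul_iff_algebraMap_injective D L).2 hinjL
    infer_instance
  have hfin : Module.Finite D (integralClosure D L) :=
    IsIntegralClosure.finite D K L (integralClosure D L)
  have hfree : Module.Free D (integralClosure D L) :=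
    IsIntegralClosure.module_free D K L (integralClosure D L)
  let w := Module.finBasis D (integralClosure D L)
  have hrank : finrank D (integralClosure D L) = finrank K L :=
    IsIntegralClosure.rank D K L (integralClosure D L)
  have hι : Fintype.card (Fin (finrank D (integralClosure D L))) = Fintype.card Gal(L/K) := by
    rw [Fintype.card_fin, hrank, ← Nat.card_eq_fintype_card, IsGalois.card_aut_eq_finrank]
  have hdisc := disc_unram ρ τ htr (π := π) (fun h => hπ.ne_zero (hinj (by rw [h, map_zero]))) P hP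
    hπP (by
      intro g hg
      apply hstab
      intro x y hxy
      have h1 : y = ρ g x := Subtype.ext (by rw [hxy, hρ])
      rw [h1]
      exact hg x) w hι
  -- the traces against the basis
  have hdvd : ∀ b, π ∣ τ (b₁ * b) := by
    intro b
    obtain ⟨d, hd⟩ := hb b
    refine ⟨d, ?_⟩
    apply IsFractionRing.injective D K
    rw [hτ]
    exact hd
  set T : Matrix _ _ D := Matrix.of fun i j => τ (w i * w j) with hT
  have hdet : disc τ w = T.det := rfl
  have h1 : ∀ j, π ∣ (T.mulVec (fun i => w.repr b₁ i)) j := by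
    intro j
    have h2 : (T.mulVec (fun i => w.repr b₁ i)) j = τ (b₁ * w j) := by
      conv_rhs => rw [← w.sum_repr b₁]
      rw [Finset.sum_mul, map_sum]
      simp only [Matrix.mulVec, dotProduct, hT, Matrix.of_apply]
      refine Finset.sum_congr rfl fun i _ => ?_
      rw [smul_mul_assoc, map_smul, smul_eq_mul, mul_comm (w i), mul_comm]
    rw [h2]
    exact hdvd _
  have h3 : ∀ i, π ∣ w.repr b₁ i := by
    intro i
    have h4 : (T.adjugate.mulVec (T.mulVec fun i => w.repr b₁ i)) i = T.det * w.repr b₁ i := by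
      rw [Matrix.mulVec_mulVec, Matrix.adjugate_mul, Matrix.smul_mulVec, Matrix.one_mulVec]
      rfl
    have h5 : π ∣ T.det * w.repr b₁ i := by
      rw [← h4]
      simp only [Matrix.mulVec, dotProduct]
      refine Finset.dvd_sum fun j _ => ?_
      exact Dvd.dvd.mul_left (h1 j) _
    rcases hπ.dvd_or_dvd h5 with h6 | h6
    · exact absurd (hdet ▸ h6) hdisc
    · exact h6
  choose β hβ using h3
  refine ⟨∑ i, β i • w i, ?_⟩
  conv_lhs => rw [← w.sum_repr b₁]
  rw [Finset.mul_sum]
  refine Finset.sum_congr rfl fun i _ => ?_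
  rw [hβ, ← smul_smul, Algebra.smul_def]

end general

variable {F : Type*} [Field F] [IsAlgClosed F] {L : Type*} [Field L] [Algebra (RatFunc F) L]
  [Algebra F[X] L] [Algebra F L] [IsScalarTower F F[X] L] [IsScalarTower F[X] (RatFunc F) L]
  [FiniteDimensional (RatFunc F) L] [IsGalois (RatFunc F) L]

/-- A root of a monic polynomial over a ring, modulo a prime ideal, is congruent to a constant. -/
private theorem DualK_const {D B : Type*} [CommRing D] [CommRing B] [Algebra D B]
    (f : F →+* B) (P : Ideal B) (hP : P.IsPrime)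
    (hD : ∀ d : D, ∃ a : F, algebraMap D B d - f a ∈ P) (x : B) (hx : IsIntegral D x) :
    ∃ a : F, x - f a ∈ P := by
  obtain ⟨p, hp, hpx⟩ := hx
  choose r hr using hD
  -- reduce the polynomial
  let fP : F →+* B ⧸ P := (Ideal.Quotient.mk P).comp f
  have hr' : ∀ d, Ideal.Quotient.mk P (algebraMap D B d) = fP (r d) := fun d =>
    Ideal.Quotient.eq.2 (hr d)
  have hfP : Function.Injective fP := by
    have : Nontrivial (B ⧸ P) := Ideal.Quotient.nontrivial_iff.2 hP.ne_top
    exact fP.injective
  let q : F[X] := ∑ i ∈ Finset.range p.natDegree, C (r (p.coeff i)) * X ^ i + X ^ p.natDegree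
  have hq1 : (∑ i ∈ Finset.range p.natDegree, C (r (p.coeff i)) * X ^ i : F[X]).degree <
      (p.natDegree : WithBot ℕ) := by
    refine (degree_sum_le _ _).trans_lt ?_
    rw [Finset.sup_lt_iff (WithBot.bot_lt_coe _)]
    intro i hi
    refine (degree_C_mul_X_pow_le _ _).trans_lt ?_
    exact_mod_cast Finset.mem_range.1 hi
  have hq0 : q ≠ 0 := by
    have h1 : q.Monic := by
      rw [show q = X ^ p.natDegree +
        ∑ i ∈ Finset.range p.natDegree, C (r (p.coeff i)) * X ^ i from add_comm _ _]
      exact monic_X_pow_add hq1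
    exact h1.ne_zero
  have hqx : eval₂ fP (Ideal.Quotient.mk P x) q = 0 := by
    have h1 : Ideal.Quotient.mk P (eval₂ (algebraMap D B) x p) = 0 := by rw [hpx, map_zero]
    rw [eval₂_eq_sum_range, map_sum, Finset.sum_range_succ] at h1
    have h2 : p.coeff p.natDegree = 1 := hp
    rw [h2, map_one, one_mul, map_pow] at h1
    rw [eval₂_add, eval₂_finsetSum, eval₂_X_pow, ← h1]
    congr 1
    refine Finset.sum_congr rfl fun i _ => ?_
    rw [eval₂_mul, eval₂_C, eval₂_X_pow, map_mul, map_pow, hr']
  have hsp := (IsAlgClosed.splits q).eq_prod_roots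
  rw [hsp, eval₂_mul, eval₂_C, eval₂_multiset_prod, mul_eq_zero] at hqx
  rcases hqx with h | h
  · exfalso
    rw [map_eq_zero_iff _ hfP, leadingCoeff_eq_zero] at h
    exact hq0 h
  · have : IsDomain (B ⧸ P) := Ideal.Quotient.isDomain P
    rw [Multiset.prod_eq_zero_iff, Multiset.map_map, Multiset.mem_map] at h
    obtain ⟨a, _, ha⟩ := h
    refine ⟨a, ?_⟩
    rw [← Ideal.Quotient.eq]
    have h3 : eval₂ fP (Ideal.Quotient.mk P x) (X - C a) = 0 := ha
    rw [eval₂_sub, eval₂_X, eval₂_C, sub_eq_zero] at h3
    exact h3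

omit [Algebra (RatFunc F) L] [Algebra F L] [IsScalarTower F F[X] L]
  [IsScalarTower F[X] (RatFunc F) L] [FiniteDimensional (RatFunc F) L]
  [IsGalois (RatFunc F) L] in
private theorem DualK_resfin (c : F) (P : Ideal (AA F L)) (hP : P.IsPrime)
    (hc : algebraMap F[X] (AA F L) (X - C c) ∈ P) (x : AA F L) :
    ∃ a : F, x - algebraMap F[X] (AA F L) (C a) ∈ P := by
  refine DualK_const (D := F[X]) ((algebraMap F[X] (AA F L)).comp C) P hP ?_ x ?_
  · intro d
    refine ⟨d.eval c, ?_⟩
    have h1 : (X - C c) ∣ d - C (d.eval c) := X_sub_C_dvd_sub_C_eval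
    obtain ⟨e, he⟩ := h1
    have h2 : algebraMap F[X] (AA F L) d - ((algebraMap F[X] (AA F L)).comp C) (d.eval c) =
        algebraMap F[X] (AA F L) (X - C c) * algebraMap F[X] (AA F L) e := by
      rw [← map_mul, ← he, map_sub]
      rfl
    rw [h2]
    exact P.mul_mem_right _ hc
  · have h := x.2
    exact (isIntegral_algebraMap_iff (A := AA F L) (B := L) Subtype.val_injective).1 h
theorem dual_fin2 {H : Subgroup (L ≃ₐ[RatFunc F] L)} (hH : ((Nat.card H : ℕ) : F) ≠ 0) {δ : F[X]}
    (hδ : Cod F[X] (RatFunc F) H δ) (B : Finset F)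
    (hB : ∀ c, c ∉ B → UnramM L (X - C c)) (x₀ : L)
    (hx₀ : ∀ a : AA F L, ∃ p : F[X],
      Algebra.trace (RatFunc F) L (x₀ * (a : L)) = algebraMap F[X] (RatFunc F) p) :
    ∃ y : AA F L, (y : L) = algebraMap F[X] L ((∏ c ∈ B, (X - C c)) * δ) * x₀ := by
  classical
  have hHfin : Fintype H := Fintype.ofFinite H
  obtain ⟨x, hxdef⟩ : ∃ x : L, x = algebraMap F[X] L δ * x₀ := ⟨_, rfl⟩
  have hx : ∀ a : AA F L, ∃ p : F[X],
      Algebra.trace (RatFunc F) L (x * (a : L)) = algebraMap F[X] (RatFunc F) p := by
    intro a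
    obtain ⟨p, hp⟩ := hx₀ a
    refine ⟨δ * p, ?_⟩
    rw [hxdef, mul_assoc, ← Algebra.smul_def, ← IsScalarTower.algebraMap_smul (RatFunc F) δ, map_smul,
      hp, map_mul, smul_eq_mul]
  have hcomm : ∀ (h : L ≃ₐ[RatFunc F] L) (d : F[X]) (z : L),
      h (algebraMap F[X] L d * z) = algebraMap F[X] L d * h z := by
    intro h d z
    rw [map_mul, IsScalarTower.algebraMap_apply F[X] (RatFunc F) L, AlgEquiv.commutes]
  have hsumH : ∀ b : AA F L, IsIntegral F[X] (∑ h : H, (h : L ≃ₐ[RatFunc F] L) (x * b)) := by
    intro b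
    have h1 := cod_sum F[X] (RatFunc F) hδ x₀ (fun a ha => hx₀ ⟨a, ha⟩) b.2
    have h3 : algebraMap F[X] L δ * ∑ h : H, (h : L ≃ₐ[RatFunc F] L) (x₀ * b) =
        ∑ h : H, (h : L ≃ₐ[RatFunc F] L) (x * b) := by
      rw [Finset.mul_sum]
      refine Finset.sum_congr rfl fun h _ => ?_
      rw [hxdef, mul_assoc, hcomm]
    rwa [h3] at h1
  have hinjL : Function.Injective (algebraMap F[X] L) := by
    rw [IsScalarTower.algebraMap_eq F[X] (RatFunc F) L]
    exact (algebraMap (RatFunc F) L).injective.comp (IsFractionRing.injective F[X] (RatFunc F))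
  have hinj : Function.Injective (algebraMap F[X] (AA F L)) := by
    intro a b hab
    exact hinjL (congrArg Subtype.val hab)
  -- a denominator of minimal degree
  have hex : ∃ N : ℕ, ∃ d : F[X], d ≠ 0 ∧ d.natDegree = N ∧
      ∃ b : AA F L, (b : L) = algebraMap F[X] L d * x := by
    have halg : IsAlgebraic F[X] x := by
      have h1 : IsAlgebraic (RatFunc F) x := Algebra.IsAlgebraic.isAlgebraic x
      exact (IsFractionRing.isAlgebraic_iff F[X] (RatFunc F) L).2 h1
    obtain ⟨d, hd, hi⟩ := halg.exists_integral_multiple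
    exact ⟨_, d, hd, rfl, ⟨d • x, hi⟩, Algebra.smul_def d x⟩
  obtain ⟨d, hd0, hdN, b₁, hb₁⟩ := Nat.find_spec hex
  have hmin : ∀ c : F, ∀ e : F[X], d = (X - C c) * e →
      ¬ algebraMap F[X] (AA F L) (X - C c) ∣ b₁ := by
    rintro c e he ⟨b', hb'⟩
    have he0 : e ≠ 0 := by rintro rfl; exact hd0 (by rw [he, mul_zero])
    have hlt : e.natDegree < Nat.find hex := by
      rw [← hdN, he, natDegree_mul (X_sub_C_ne_zero c) he0, natDegree_X_sub_C]
      omega
    apply Nat.find_min hex hlt
    refine ⟨e, he0, rfl, b', ?_⟩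
    have h1 : algebraMap F[X] L (X - C c) ≠ 0 := by
      intro h
      exact X_sub_C_ne_zero c (hinjL (by rw [h, map_zero]))
    apply mul_left_cancel₀ h1
    rw [← mul_assoc, ← map_mul, ← he, ← hb₁, hb']
    rfl
  -- the traces of `b₁ b`
  have htr : ∀ b : AA F L, ∃ p : F[X],
      Algebra.trace (RatFunc F) L ((b₁ : L) * (b : L)) = algebraMap F[X] (RatFunc F) (d * p) := by
    intro b
    obtain ⟨p, hp⟩ := hx b
    refine ⟨p, ?_⟩
    rw [hb₁, mul_assoc, ← Algebra.smul_def, ← IsScalarTower.algebraMap_smul (RatFunc F) d, map_smul,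
      hp, map_mul, smul_eq_mul]
  -- outside `B`
  have hout : ∀ c, c ∉ B → ¬ (X - C c) ∣ d := by
    rintro c hc ⟨e, he⟩
    apply hmin c e he
    -- a prime above
    have hprime : Prime (X - C c : F[X]) := prime_X_sub_C c
    have hpr : (Ideal.span {(X - C c : F[X])}).IsPrime :=
      (Ideal.span_singleton_prime hprime.ne_zero).2 hprime
    obtain ⟨P, hP, hPc⟩ := Ideal.exists_ideal_over_prime_of_isIntegral_of_isDomain
      (S := AA F L) (Ideal.span {(X - C c : F[X])}) (by
        rw [(RingHom.injective_iff_ker_eq_bot _).1 hinj]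
        exact bot_le)
    have hcP : algebraMap F[X] (AA F L) (X - C c) ∈ P := by
      have h1 : (X - C c : F[X]) ∈ P.comap (algebraMap F[X] (AA F L)) := by
        rw [hPc]
        exact Ideal.mem_span_singleton_self _
      exact h1
    refine DualK_unr F[X] (RatFunc F) hprime P hP hcP ?_ b₁ ?_
    · intro g hg
      apply hB c hc P hP hPc g
      intro x y hxy
      obtain ⟨a, ha⟩ := DualK_resfin c P hP hcP x
      have h1 : y - algebraMap F[X] (AA F L) (C a) ∈ P := by
        rw [hg (x - algebraMap F[X] (AA F L) (C a)) _ ?_]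
        · exact ha
        · change (y : L) - algebraMap F[X] L (C a) = g ((x : L) - algebraMap F[X] L (C a))
          rw [map_sub, hxy, IsScalarTower.algebraMap_apply F[X] (RatFunc F) L, g.commutes]
      have h3 := P.sub_mem h1 ha
      have h4 : y - algebraMap F[X] (AA F L) (C a) - (x - algebraMap F[X] (AA F L) (C a)) = y - x := by
        ring
      rwa [h4] at h3
    · intro b
      obtain ⟨p, hp⟩ := htr b
      exact ⟨e * p, by rw [hp, he, mul_assoc]⟩
  -- in `B`
  have hin : ∀ c, ¬ (X - C c) ^ 2 ∣ d := by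
    rintro c ⟨e, he⟩
    apply hmin c ((X - C c) * e) (by rw [he]; ring)
    refine dualH_tame F[X] (RatFunc F) (H := H) ?_ (X_sub_C_ne_zero c) ?_ b₁ ?_
    · have h1 := (IsUnit.mk0 _ hH).map (C : F →+* F[X])
      rwa [map_natCast] at h1
    · intro P hP hcP x
      obtain ⟨a, ha⟩ := DualK_resfin c P hP hcP x
      exact ⟨C a, ha⟩
    · intro b
      refine ⟨⟨_, (isIntegral_algebraMap (R := F[X]) (A := L) (x := e)).mul (hsumH b)⟩, ?_⟩
      change _ = algebraMap F[X] L ((X - C c) ^ 2) * (algebraMap F[X] L e *
        ∑ h : H, (h : L ≃ₐ[RatFunc F] L) (x * b))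
      rw [← mul_assoc, ← map_mul, ← he, Finset.mul_sum]
      refine Finset.sum_congr rfl fun h _ => ?_
      rw [hb₁, mul_assoc, hcomm]
  -- `d` divides the product
  have hdvd : d ∣ ∏ c ∈ B, (X - C c) := by
    have hsp := (IsAlgClosed.splits d).eq_prod_roots
    have hlc : IsUnit (C d.leadingCoeff) :=
      (IsUnit.mk0 _ (leadingCoeff_ne_zero.2 hd0)).map C
    rw [hsp, hlc.mul_left_dvd]
    have hnd : d.roots.Nodup := by
      rw [Multiset.nodup_iff_count_le_one]
      intro c
      rw [count_roots]
      by_contra hcon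
      push Not at hcon
      exact hin c ((pow_dvd_pow _ hcon).trans (pow_rootMultiplicity_dvd d c))
    have hle : d.roots ≤ B.val := by
      rw [Multiset.le_iff_subset hnd]
      intro c hc
      by_contra h
      exact hout c h (dvd_iff_isRoot.2 (isRoot_of_mem_roots hc))
    exact Multiset.prod_dvd_prod_of_le (Multiset.map_le_map hle)
  obtain ⟨e, he⟩ := hdvd
  refine ⟨algebraMap F[X] (AA F L) e * b₁, ?_⟩
  rw [map_mul, mul_assoc, ← hxdef, he, map_mul]
  change algebraMap F[X] L e * (b₁ : L) = _
  rw [hb₁]
  ring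

end Pool.Agent.SmBU
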