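import Pool.Agent.Lib.SmB.P2cDual

/-!
SMITH-U, block B for general `K`: the trace dual in a Galois extension `L` of the fraction field `K`
of a PID `D`, relative to a subgroup `H` of `Gal(L/K)` of order invertible in `D`. The codifferent of
the fixed field of `H` is assumed to be killed by `δ`.
-/

set_option autoImplicit false

namespace Pool.Agent.SmBU

open Module Polynomial Pool.Agent.SmB

/-! ### A tame group action -/

section act

variable {B G : Type*} [CommRing B] [IsDedekindDomain B] [Group G] [Fintype G]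
  (ρ : G →* (B ≃+* B))

/-- The subring of invariants. -/
private def fixR : Subring B where
  carrier := {x | ∀ g, ρ g x = x}
  one_mem' := fun g => map_one (ρ g)
  zero_mem' := fun g => map_zero (ρ g)
  mul_mem' := fun {a b} ha hb g => by rw [map_mul, ha, hb]
  add_mem' := fun {a b} ha hb g => by rw [map_add, ha, hb]
  neg_mem' := fun {a} ha g => by rw [map_neg, ha]

private theorem Fix_sum_mem (b : B) : ∑ g, ρ g b ∈ fixR ρ := by
  intro h
  rw [map_sum]
  refine Fintype.sum_equiv (Equiv.mulLeft h) _ _ fun g => ?_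
  rw [Equiv.coe_mulLeft, map_mul, RingAut.mul_apply]

/-- If the traces of `b₁ b` under the tame group `G` are divisible by `π ^ 2` then `π ∣ b₁`. -/
theorem tame_fix (hcard : IsUnit ((Fintype.card G : ℕ) : B)) {π : B} (hπ0 : π ≠ 0)
    (hπ : ∀ g, ρ g π = π)
    (hres : ∀ P : Ideal B, P.IsPrime → π ∈ P → ∀ x, ∃ d : B, (∀ g, ρ g d = d) ∧ x - d ∈ P)
    (b₁ : B) (hb : ∀ b, ∃ z, ∑ g, ρ g (b₁ * b) = π ^ 2 * z) : π ∣ b₁ := by
  classical
  let ρ' : G →* (B ≃ₐ[fixR ρ] B) :=
    { toFun := fun g => AlgEquiv.ofRingEquiv (f := ρ g) (fun r => r.2 g)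
      map_one' := by
        ext x
        change ρ 1 x = x
        rw [map_one]
        rfl
      map_mul' := fun a b => by
        ext x
        change ρ (a * b) x = ρ a (ρ b x)
        rw [map_mul]
        rfl }
  have hρ' : ∀ g x, ρ' g x = ρ g x := fun g x => rfl
  let τ : B →ₗ[fixR ρ] fixR ρ :=
    { toFun := fun b => ⟨∑ g, ρ g b, Fix_sum_mem ρ b⟩
      map_add' := fun a b => by
        apply Subtype.ext
        change ∑ g, ρ g (a + b) = ∑ g, ρ g a + ∑ g, ρ g b
        rw [← Finset.sum_add_distrib]
        exact Finset.sum_congr rfl fun g _ => map_add _ _ _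
      map_smul' := fun c b => by
        apply Subtype.ext
        change ∑ g, ρ g ((c : B) * b) = (c : B) * ∑ g, ρ g b
        rw [Finset.mul_sum]
        refine Finset.sum_congr rfl fun g _ => ?_
        rw [map_mul, c.2 g] }
  have htr : ∀ b, algebraMap (fixR ρ) B (τ b) = ∑ g, ρ' g b := fun b => rfl
  let π' : fixR ρ := ⟨π, hπ⟩
  have h := tame_dual ρ' τ htr hcard (π := π') hπ0 ?_ b₁ 1 ?_
  · rwa [pow_one] at h
  · intro P hP hPπ x
    obtain ⟨d, hd, hx⟩ := hres P hP hPπ x
    exact ⟨⟨d, hd⟩, hx⟩
  · intro b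
    obtain ⟨z, hz⟩ := hb b
    have hπ2 : π ^ 2 ≠ 0 := pow_ne_zero _ hπ0
    have hzf : z ∈ fixR ρ := by
      intro g
      have h1 : ρ g (∑ g, ρ g (b₁ * b)) = ∑ g, ρ g (b₁ * b) := Fix_sum_mem ρ _ g
      rw [hz, map_mul, map_pow, hπ] at h1
      exact mul_left_cancel₀ hπ2 h1
    refine ⟨⟨z, hzf⟩, ?_⟩
    apply Subtype.ext
    exact hz

end act

/-! ### The trace dual -/

section general

variable (D K : Type*) {L : Type*} [CommRing D] [IsDomain D] [IsPrincipalIdealRing D] [Field K]
  [Algebra D K] [IsFractionRing D K] [Field L] [Algebra K L] [Algebra D L] [IsScalarTower D K L]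
  [FiniteDimensional K L] [IsGalois K L]

/-- `δ` kills the codifferent of the fixed field of `H`. -/
def Cod (H : Subgroup Gal(L/K)) (δ : D) : Prop :=
  ∀ y : L, (∀ h ∈ H, h y = y) → (∀ a : L, IsIntegral D a → (∀ h ∈ H, h a = a) →
    ∃ d : D, Algebra.trace K L (y * a) = algebraMap D K d) → IsIntegral D (algebraMap D L δ * y)

omit [IsDomain D] [IsPrincipalIdealRing D] [IsFractionRing D K] [IsGalois K L] in
/-- The sums over `H` of `x b` are killed by `δ` if the traces of `x b` are integral. -/
theorem cod_sum {H : Subgroup Gal(L/K)} {δ : D} (hδ : Cod D K H δ) (x : L)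
    (hx : ∀ a : L, IsIntegral D a → ∃ d : D, Algebra.trace K L (x * a) = algebraMap D K d)
    [Fintype H] {b : L} (hb : IsIntegral D b) :
    IsIntegral D (algebraMap D L δ * ∑ h : H, (h : Gal(L/K)) (x * b)) := by
  apply hδ
  · intro h hh
    rw [map_sum]
    refine Fintype.sum_equiv (Equiv.mulLeft (⟨h, hh⟩ : H)) _ _ fun g => ?_
    rfl
  · intro a ha haf
    have h1 : (∑ h : H, (h : Gal(L/K)) (x * b)) * a = ∑ h : H, (h : Gal(L/K)) (x * (b * a)) := by
      rw [Finset.sum_mul]
      refine Finset.sum_congr rfl fun h _ => ?_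
      conv_lhs => rw [← haf h.1 h.2]
      rw [← map_mul, mul_assoc]
    obtain ⟨d, hd⟩ := hx (b * a) (hb.mul ha)
    refine ⟨Fintype.card H • d, ?_⟩
    rw [h1, map_sum, map_nsmul, ← hd]
    have h2 : ∀ h : H, Algebra.trace K L ((h : Gal(L/K)) (x * (b * a))) =
        Algebra.trace K L (x * (b * a)) := fun h => Algebra.trace_eq_of_algEquiv (h : Gal(L/K)) _
    rw [Finset.sum_congr rfl fun h _ => h2 h, Finset.sum_const, Finset.card_univ]

/-- Tame places relative to `H`. -/
theorem dualH_tame {H : Subgroup Gal(L/K)} (hcard : IsUnit ((Nat.card H : ℕ) : D)) {π : D}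
    (hπ : π ≠ 0)
    (hres : ∀ P : Ideal (integralClosure D L), P.IsPrime →
      algebraMap D (integralClosure D L) π ∈ P → ∀ x, ∃ d : D,
        x - algebraMap D (integralClosure D L) d ∈ P)
    (b₁ : integralClosure D L) [Fintype H]
    (hb : ∀ b : integralClosure D L, ∃ z : integralClosure D L,
      ∑ h : H, (h : Gal(L/K)) ((b₁ : L) * b) = algebraMap D L (π ^ 2) * z) :
    algebraMap D (integralClosure D L) π ∣ b₁ := by
  have hB : IsDedekindDomain (integralClosure D L) := integralClosure.isDedekindDomain D K L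
  let ρ₀ : Gal(L/K) →* (integralClosure D L ≃ₐ[D] integralClosure D L) :=
    (galRestrict D K L (integralClosure D L)).toMonoidHom
  have hρ₀ : ∀ g b, ((ρ₀ g b : integralClosure D L) : L) = g (b : L) := fun g b =>
    algebraMap_galRestrict_apply D g b
  let ρ : H →* (integralClosure D L ≃+* integralClosure D L) :=
    { toFun := fun h => (ρ₀ h : integralClosure D L ≃+* integralClosure D L)
      map_one' := by
        ext x
        change ((ρ₀ (1 : Gal(L/K)) x : integralClosure D L) : L) = x
        rw [map_one]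
        rfl
      map_mul' := fun a b => by
        ext x
        change ((ρ₀ ((a : Gal(L/K)) * b) x : integralClosure D L) : L) = (ρ₀ a (ρ₀ b x) : _)
        rw [map_mul]
        rfl }
  have hρ : ∀ (h : H) b, ((ρ h b : integralClosure D L) : L) = (h : Gal(L/K)) (b : L) :=
    fun h b => hρ₀ h b
  have hinjL : Function.Injective (algebraMap D L) := by
    rw [IsScalarTower.algebraMap_eq D K L]
    exact (algebraMap K L).injective.comp (IsFractionRing.injective D K)
  have hinj : Function.Injective (algebraMap D (integralClosure D L)) := by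
    intro x y hxy
    exact hinjL (congrArg Subtype.val hxy)
  have hDfix : ∀ (h : H) (d : D), ρ h (algebraMap D (integralClosure D L) d) =
      algebraMap D (integralClosure D L) d := by
    intro h d
    exact (ρ₀ h).commutes d
  refine tame_fix ρ ?_ (fun h => hπ (hinj (by rw [h, map_zero]))) (fun g => hDfix g π) ?_ b₁ ?_
  · rw [← Nat.card_eq_fintype_card]
    have h1 := hcard.map (algebraMap D (integralClosure D L))
    rwa [map_natCast] at h1
  · intro P hP hPπ x
    obtain ⟨d, hd⟩ := hres P hP hPπ x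
    exact ⟨_, fun g => hDfix g d, hd⟩
  · intro b
    obtain ⟨z, hz⟩ := hb b
    refine ⟨z, ?_⟩
    apply Subtype.ext
    have h1 : (((∑ g, ρ g (b₁ * b) : integralClosure D L)) : L) =
        ∑ h : H, (h : Gal(L/K)) ((b₁ : L) * b) := by
      rw [AddSubmonoidClass.coe_finsetSum]
      exact Finset.sum_congr rfl fun h _ => hρ h _
    rw [h1, hz, map_pow]
    rfl

end general

end Pool.Agent.SmBU
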