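import Pool.Agent.Lib.SmBU.KDefs
import Pool.Agent.Lib.SmD.LiftInt

/-!
SMITH-U, block B for general `K`, bridge to the places of `Om`: Frobenius elements and inertia at a
finite level `L ⊆ Om`.

`w` is a place of `Om` which contains `k[X]`; `p` is the prime of `AA k K` cut out by `w`
(`p` is given with the hypothesis `hp`). `frobK_of_isFrob`: the restriction to `L` of a Frobenius
element at `w` is a Frobenius at `p`. `unramK_of_iner`: if the inertia group of `w` acts trivially on
`L` then `p` is unramified in `L`.
-/

set_option autoImplicit false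

namespace Pool.Agent.SmBU

open Pool.Agent.Lib.SmD Polynomial Pool.Agent.SmB IsDedekindDomain

section level

variable {k K : Type} [Field k] [Field K] [Algebra k[X] K] {Om : Type} [Field Om] [Algebra K Om]
  {w : ValuationSubring Om} (hX : ∀ f : k[X], algebraMap k[X] K f ∈ below K w)

include hX

/-- Elements of `K` integral over `k[X]` lie in the place. -/
theorem memK (x : AA k K) : (x : K) ∈ below K w := by
  have h1 : IsIntegral k[X] (x : K) := x.2
  have h2 : IsIntegral (below K w) (RingHom.id K (x : K)) :=
    h1.map_of_comp_eq ((algebraMap k[X] K).codRestrict (below K w).toSubring hX)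
      (RingHom.id K) rfl
  obtain ⟨y, hy⟩ := IsIntegrallyClosed.isIntegral_iff.1 h2
  have h3 : (y : K) = (x : K) := hy
  rw [← h3]
  exact y.2

variable {L : IntermediateField K Om} [Algebra k[X] L] [IsScalarTower k[X] K L]

/-- Elements of `L` integral over `k[X]` are integral over the ring of the place. -/
theorem integral_belowK {x : L} (hx : IsIntegral k[X] x) : IsIntegral (below K w) x :=
  (hx.map_of_comp_eq ((algebraMap k[X] K).codRestrict (below K w).toSubring hX)
      (RingHom.id L) (by
    refine RingHom.ext fun f => ?_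
    exact (IsScalarTower.algebraMap_apply k[X] K L f).symm))

theorem memWK (x : AA k L) : (((x : AA k L) : L) : Om) ∈ w :=
  mem_of_isIntegral_sub K L w _ (integral_belowK hX x.2)

/-- The prime of `AA k L` given by the place. -/
def primeWK (L : IntermediateField K Om) [Algebra k[X] L] [IsScalarTower k[X] K L] :
    Ideal (AA k L) where
  carrier := {x | w.valuation (((x : AA k L) : L) : Om) < 1}
  zero_mem' := by simp
  add_mem' {a b} ha hb := by
    have h1 : ((((a + b : AA k L)) : L) : Om) = ((a : L) : Om) + ((b : L) : Om) := rfl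
    rw [Set.mem_ofPred_eq, h1]
    exact lt_of_le_of_lt (Valuation.map_add _ _ _) (max_lt ha hb)
  smul_mem' c {b} hb := by
    have h1 : ((((c • b : AA k L)) : L) : Om) = ((c : L) : Om) * ((b : L) : Om) := rfl
    rw [Set.mem_ofPred_eq, h1, map_mul]
    refine lt_of_le_of_lt (mul_le_mul_left
      ((ValuationSubring.valuation_le_one_iff _ _).2 (memWK hX c)) _) ?_
    rw [one_mul]
    exact hb

theorem mem_primeWK (x : AA k L) :
    x ∈ primeWK hX L ↔ w.valuation (((x : AA k L) : L) : Om) < 1 := Iff.rfl

theorem primeWK_isPrime : (primeWK hX L).IsPrime := by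
  refine Ideal.isPrime_iff.2 ⟨?_, ?_⟩
  · intro h1
    have h2 : (1 : AA k L) ∈ primeWK hX L := by rw [h1]; trivial
    rw [mem_primeWK] at h2
    have h3 : (((1 : AA k L) : L) : Om) = 1 := rfl
    rw [h3, map_one] at h2
    exact lt_irrefl _ h2
  · intro x y hxy
    rw [mem_primeWK] at hxy
    have h1 : ((((x * y : AA k L)) : L) : Om) = ((x : L) : Om) * ((y : L) : Om) := rfl
    rw [h1, map_mul] at hxy
    by_contra hcon
    push Not at hcon
    rw [mem_primeWK, mem_primeWK, not_lt, not_lt] at hcon
    exact absurd hxy (not_lt.2 (one_le_mul hcon.1 hcon.2))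

variable {p : Ideal (AA k K)}
  (hp : ∀ x : AA k K, x ∈ p ↔ w.valuation (algebraMap K Om (x : K)) < 1)

include hp

theorem aboveK_primeWK : AboveK p (primeWK hX L) := by
  intro x y hxy
  rw [mem_primeWK, hp, hxy]
  rfl

/-- Frobenius elements of `Gal(Om/K)` give Frobenius elements at the finite level. -/
theorem frobK_of_isFrob {φ : Om ≃ₐ[K] Om} (hφ : IsFrob K w φ) {τ : L ≃ₐ[K] L}
    (hτ : ∀ x : L, (τ x : Om) = φ x) : FrobK p (resCard (below K w)) τ := by
  refine ⟨primeWK hX L, primeWK_isPrime hX, aboveK_primeWK hX hp, fun x y hxy => ?_⟩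
  rw [mem_primeWK]
  have h1 := hφ.frob _ (memWK hX x)
  have h2 : (((y - x ^ resCard (below K w) : AA k L) : L) : Om) =
      φ ((x : L) : Om) - ((x : L) : Om) ^ resCard (below K w) := by
    rw [← hτ, ← hxy]
    rfl
  rw [h2]
  exact h1

end level

end Pool.Agent.SmBU
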