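import Pool.Agent.Lib.SmBU.UnK
import Pool.Agent.Lib.SmBU.PlcK
import Pool.Agent.Lib.GBU.Plc

/-!
SMITH-U, block B for general `K`: the chosen Frobenius and inertia elements of the places of `K`, at
a finite level `L ⊆ Om`.
-/

set_option autoImplicit false

namespace Pool.Agent.SmBU

open Module Polynomial Pool.Agent.SmB Pool.Agent.BSDFF Pool.Agent.GBC Pool.Agent.GBU
  Pool.Agent.Lib.SmD

section top

theorem plc_ne_top {k K : Type} [Field k] [Field K] [Algebra k K] (v : Place k K) :
    v.ring ≠ ⊤ := by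
  intro h
  obtain ⟨ϖ, hϖ⟩ := IsDiscreteValuationRing.exists_irreducible v.ring
  have h0 : (ϖ : K) ≠ 0 := fun h0 => hϖ.ne_zero (Subtype.ext h0)
  have h1 : (ϖ : K)⁻¹ ∈ v.ring := (h.symm ▸ ValuationSubring.mem_top _ :)
  have h2 : ϖ * (⟨(ϖ : K)⁻¹, h1⟩ : v.ring) = 1 := Subtype.ext (mul_inv_cancel₀ h0)
  exact hϖ.not_isUnit (IsUnit.of_mul_eq_one _ h2)

end top

section main

variable {k K : Type} [Field k] [Finite k] [Field K] [Algebra k K] [Algebra (RatFunc k) K]
  [IsScalarTower k (RatFunc k) K] [FiniteDimensional (RatFunc k) K]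
  [Algebra.IsSeparable (RatFunc k) K] [Algebra k[X] K] [IsScalarTower k[X] (RatFunc k) K]
  {Om : Type} [Field Om] [Algebra K Om]

omit [Finite k] [FiniteDimensional (RatFunc k) K] [Algebra.IsSeparable (RatFunc k) K] in
theorem memX_of_finPl {v : Place k K} (hv : FinPl v) {w : ValuationSubring Om}
    (hw : below K w = v.ring) (f : k[X]) : algebraMap k[X] K f ∈ below K w := by
  rw [hw]
  exact mem_of_finPl hv isIntegral_algebraMap

omit [Finite k] [FiniteDimensional (RatFunc k) K] [Algebra.IsSeparable (RatFunc k) K] in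
theorem mem_pI_iff {v : Place k K} (hv : FinPl v) {w : ValuationSubring Om}
    (hw : below K w = v.ring) (x : AA k K) :
    x ∈ pI v ↔ w.valuation (algebraMap K Om (x : K)) < 1 := by
  rw [mem_pI hv, ← not_le, ← not_le, not_iff_not]
  rcases eq_or_ne (x : K) 0 with h0 | h0
  · rw [h0, map_zero, map_zero, map_zero]
    exact iff_of_false (not_le.2 zero_lt_one) (not_le.2 zero_lt_one)
  · have h1 : (1 ≤ v.ring.valuation (x : K)) ↔ (x : K)⁻¹ ∈ v.ring := by
      rw [← ValuationSubring.valuation_le_one_iff, map_inv₀]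
      exact (inv_le_one₀ (zero_lt_iff.2 ((Valuation.ne_zero_iff _).2 h0))).symm
    have h2 : (1 ≤ w.valuation (algebraMap K Om (x : K))) ↔ (x : K)⁻¹ ∈ below K w := by
      have h3 : (x : K)⁻¹ ∈ below K w ↔ algebraMap K Om (x : K)⁻¹ ∈ w := Iff.rfl
      rw [h3, ← ValuationSubring.valuation_le_one_iff, map_inv₀, map_inv₀]
      exact (inv_le_one₀ (zero_lt_iff.2 ((Valuation.ne_zero_iff _).2
        ((map_ne_zero_iff _ (algebraMap K Om).injective).2 h0)))).symm
    rw [h1, h2, hw]

omit [Algebra k[X] K] [IsScalarTower k[X] (RatFunc k) K] in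
theorem resCard_eq {v : Place k K} {w : ValuationSubring Om} (hw : below K w = v.ring) :
    resCard (below K w) = Nat.card k ^ v.degree := by
  obtain ⟨G, -⟩ := exists_geo k K
  rw [resCard_below hw, ← G.card_residue v]
  rfl

variable {L : IntermediateField K Om} [Algebra k[X] L] [IsScalarTower k[X] K L]

/-- Frobenius elements at a place above `v` give Frobenius elements at `pI v`. -/
theorem frobK_of_below {v : Place k K} (hv : FinPl v) {w : ValuationSubring Om}
    (hw : below K w = v.ring) {φ : Om ≃ₐ[K] Om} (hφ : IsFrob K w φ) {τ : L ≃ₐ[K] L}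
    (hτ : ∀ x : L, (τ x : Om) = φ x) : FrobK (pI v) (Nat.card k ^ v.degree) τ := by
  rw [← resCard_eq hw]
  exact frobK_of_isFrob (memX_of_finPl hv hw) (mem_pI_iff hv hw) hφ hτ

theorem frobK_res [IsGalois K Om] [Normal K L] {v : Place k K} (hv : FinPl v) :
    FrobK (pI v) (Nat.card k ^ v.degree)
      (AlgEquiv.restrictNormalHom L (phK Om v) : L ≃ₐ[K] L) :=
  frobK_of_below hv (below_abK Om v) (phK_frob v) fun x =>
    AlgEquiv.restrictNormal_commutes (phK Om v) L x

/-- A place whose tame generator acts trivially on `L` is unramified in `L`. -/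
theorem unramK_res [IsGalois K Om] [FiniteDimensional K L] [IsGalois K L] (h2 : (2 : k) ≠ 0)
    {v : Place k K} (hv : FinPl v) (hN : L.fixingSubgroup ∈ NP K Om)
    (hs : sgK Om v ∈ L.fixingSubgroup) : UnramK L (pI v) := by
  have hw := below_abK Om v
  refine unramK_of_iner (memX_of_finPl hv hw) ?_ (mem_pI_iff hv hw) (pI_isPrime hv) ?_
  · rw [hw]
    exact plc_ne_top v
  · intro σ hσ x
    have h1 := (sgK_tg h2 v).iner_le hN hs hσ
    exact (IntermediateField.mem_fixingSubgroup_iff L σ).1 h1 x x.2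

end main

end Pool.Agent.SmBU
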