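import Pool.Agent.Lib.SmBU.Cod
import Pool.Agent.Lib.SmBU.TS

/-!
SMITH-U, block B for general `K`: constants attached to an algebraic function `α`, which bound the
codifferent of the field generated by `α`, uniformly in all geometric models.
-/

set_option autoImplicit false

namespace Pool.Agent.SmBU

open Module Polynomial Pool.Agent.SmB

/-- The data bounding the codifferent of the field generated by `α`. -/
structure GenDat (k : Type*) {M : Type*} [Field k] [Field M] [Algebra k[X] M] [Algebra (RatFunc k) M]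
    (α : M) (δ : k[X]) (c e : ℕ) : Prop where
  int : IsIntegral k[X] α
  ne : δ ≠ 0
  fin : ∃ (f : k[X][X]) (β : M), aeval α f = 0 ∧ IsIntegral k[X] β ∧
    aeval α (derivative f) * β = algebraMap k[X] M δ
  intInf : IsIntegral (DInf k) (algebraMap (DInf k) M (uInf k ^ c) * α)
  inf : ∃ (f : (DInf k)[X]) (β : M), aeval (algebraMap (DInf k) M (uInf k ^ c) * α) f = 0 ∧
    IsIntegral (DInf k) β ∧
    aeval (algebraMap (DInf k) M (uInf k ^ c) * α) (derivative f) * β =
      algebraMap (DInf k) M (uInf k ^ e)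

section gen

variable (D K : Type*) {L : Type*} [CommRing D] [IsDomain D] [IsPrincipalIdealRing D] [Field K]
  [Algebra D K] [IsFractionRing D K] [Field L] [Algebra K L] [Algebra D L] [IsScalarTower D K L]
  [FiniteDimensional K L] [Algebra.IsSeparable K L]

include K in
omit [FiniteDimensional K L] in
/-- The constants exist. -/
theorem exists_der {α : L} (hα : IsIntegral D α) : ∃ (f : D[X]) (β : L) (δ : D), δ ≠ 0 ∧
    aeval α f = 0 ∧ IsIntegral D β ∧ aeval α (derivative f) * β = algebraMap D L δ := by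
  have hinjL : Function.Injective (algebraMap D L) := by
    rw [IsScalarTower.algebraMap_eq D K L]
    exact (algebraMap K L).injective.comp (IsFractionRing.injective D K)
  have hne : (aeval α (derivative (minpoly D α)) : L) ≠ 0 := by
    have h1 := (Algebra.IsSeparable.isSeparable K α).aeval_derivative_ne_zero (minpoly.aeval K α)
    rwa [minpoly.isIntegrallyClosed_eq_field_fractions' K hα, derivative_map,
      aeval_map_algebraMap] at h1
  let B := integralClosure D L
  have hγ : aeval α (derivative (minpoly D α)) ∈ B := by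
    have h1 : Algebra.adjoin D {α} ≤ integralClosure D L := by
      rw [Algebra.adjoin_le_iff, Set.singleton_subset_iff]
      exact hα
    refine h1 ?_
    rw [Algebra.adjoin_singleton_eq_range_aeval]
    exact ⟨_, rfl⟩
  let γ : B := ⟨_, hγ⟩
  have hγ0 : γ ≠ 0 := fun h => hne (congrArg Subtype.val h)
  have halg : IsAlgebraic D γ := (Algebra.IsIntegral.isIntegral (R := D) γ).isAlgebraic
  obtain ⟨δ, hδ, β, hβ⟩ := halg.exists_nonzero_dvd (mem_nonZeroDivisors_of_ne_zero hγ0)
  refine ⟨minpoly D α, (β : L), δ, hδ, minpoly.aeval _ _, β.2, ?_⟩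
  exact (congrArg Subtype.val hβ).symm

end gen

section ex

variable {k : Type*} [Field k] {M : Type*} [Field M] [Algebra k[X] M] [Algebra (RatFunc k) M]
  [IsScalarTower k[X] (RatFunc k) M]

theorem exists_genDat [FiniteDimensional (RatFunc k) M] [Algebra.IsSeparable (RatFunc k) M]
    {α : M} (hα : IsIntegral k[X] α) : ∃ (δ : k[X]) (c e : ℕ), GenDat k α δ c e := by
  classical
  obtain ⟨f, β, δ, h1, h2, h3, h4⟩ := exists_der k[X] (RatFunc k) hα
  -- a power of `1 / t`
  have hu : ∀ d : DInf k, d ≠ 0 → ∃ (j : ℕ) (v : (DInf k)ˣ), d = uInf k ^ j * v := by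
    intro d hd
    have hd0 : (d : RatFunc k) ≠ 0 := fun h => hd (Subtype.ext h)
    have hdd : (d : RatFunc k).intDegree ≤ 0 := ((mem_DInf _).1 d.2).resolve_left hd0
    obtain ⟨j, hj⟩ : ∃ j : ℕ, (d : RatFunc k).intDegree = -(j : ℤ) :=
      ⟨(-(d : RatFunc k).intDegree).toNat, by omega⟩
    have hXj : ∀ m : ℕ, ((RatFunc.X : RatFunc k) ^ m).intDegree = m := by
      intro m
      induction m with
      | zero => simp
      | succ m ih =>
        rw [pow_succ, RatFunc.intDegree_mul (pow_ne_zero _ RatFunc.X_ne_zero) RatFunc.X_ne_zero, ih,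
          RatFunc.intDegree_X]
        push_cast
        ring
    set v : RatFunc k := (d : RatFunc k) * RatFunc.X ^ j with hv
    have hXne : (RatFunc.X : RatFunc k) ^ j ≠ 0 := pow_ne_zero _ RatFunc.X_ne_zero
    have hv0 : v ≠ 0 := mul_ne_zero hd0 hXne
    have hvd : v.intDegree = 0 := by
      rw [hv, RatFunc.intDegree_mul hd0 hXne, hj, hXj]
      omega
    have hvm : v ∈ DInf k := (mem_DInf v).2 (Or.inr hvd.le)
    have hvm' : v⁻¹ ∈ DInf k := (mem_DInf _).2 (Or.inr (by rw [RatFunc.intDegree_inv, hvd]; simp))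
    refine ⟨j, ⟨⟨v, hvm⟩, ⟨v⁻¹, hvm'⟩, Subtype.ext (mul_inv_cancel₀ hv0),
      Subtype.ext (inv_mul_cancel₀ hv0)⟩, ?_⟩
    apply Subtype.ext
    change (d : RatFunc k) = (RatFunc.X)⁻¹ ^ j * v
    rw [hv, inv_pow, mul_comm ((RatFunc.X : RatFunc k) ^ j)⁻¹, mul_assoc, mul_inv_cancel₀ hXne,
      mul_one]
  have halg : IsAlgebraic (DInf k) α := by
    have h1 : IsAlgebraic (RatFunc k) α := Algebra.IsAlgebraic.isAlgebraic α
    exact (IsFractionRing.isAlgebraic_iff (DInf k) (RatFunc k) M).2 h1
  obtain ⟨d, hd, hi⟩ := halg.exists_integral_multiple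
  obtain ⟨c, v, hcv⟩ := hu d hd
  have hint : IsIntegral (DInf k) (algebraMap (DInf k) M (uInf k ^ c) * α) := by
    have h5 : algebraMap (DInf k) M (uInf k ^ c) * α =
        algebraMap (DInf k) M ((v⁻¹ : (DInf k)ˣ) : DInf k) * (d • α) := by
      rw [Algebra.smul_def, ← mul_assoc, ← map_mul]
      congr 2
      rw [hcv, mul_comm (uInf k ^ c), ← mul_assoc, Units.inv_mul, one_mul]
    rw [h5]
    exact isIntegral_algebraMap.mul hi
  obtain ⟨f', β', δ', g1, g2, g3, g4⟩ := exists_der (DInf k) (RatFunc k) hint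
  obtain ⟨e, v', hev⟩ := hu δ' g1
  refine ⟨δ, c, e, hα, h1, ⟨f, β, h2, h3, h4⟩, hint, f',
    β' * algebraMap (DInf k) M ((v'⁻¹ : (DInf k)ˣ) : DInf k), g2, g3.mul isIntegral_algebraMap, ?_⟩
  rw [← mul_assoc, g4, hev, map_mul, mul_assoc, ← map_mul, Units.mul_inv, map_one, mul_one]

/-- Transport of the data along an embedding. -/
theorem GenDat.map {M' : Type*} [Field M'] [Algebra k[X] M'] [Algebra (RatFunc k) M']
    [IsScalarTower k[X] (RatFunc k) M'] {α : M} {δ : k[X]} {c e : ℕ} (h : GenDat k α δ c e)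
    (ι : M →ₐ[RatFunc k] M') : GenDat k (ι α) δ c e := by
  have hX : ∀ p : k[X], ι (algebraMap k[X] M p) = algebraMap k[X] M' p := by
    intro p
    rw [IsScalarTower.algebraMap_apply k[X] (RatFunc k) M, ι.commutes,
      ← IsScalarTower.algebraMap_apply]
  have hI : ∀ p : DInf k, ι (algebraMap (DInf k) M p) = algebraMap (DInf k) M' p := by
    intro p
    rw [IsScalarTower.algebraMap_apply (DInf k) (RatFunc k) M, ι.commutes,
      ← IsScalarTower.algebraMap_apply]
  let ιX : M →ₐ[k[X]] M' := { toRingHom := ι, commutes' := hX }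
  let ιI : M →ₐ[DInf k] M' := { toRingHom := ι, commutes' := hI }
  have hα' : algebraMap (DInf k) M' (uInf k ^ c) * ι α =
      ιI (algebraMap (DInf k) M (uInf k ^ c) * α) := by
    change _ = ι (algebraMap (DInf k) M (uInf k ^ c) * α)
    rw [map_mul, hI]
  obtain ⟨f, β, h2, h3, h4⟩ := h.fin
  obtain ⟨f', β', g2, g3, g4⟩ := h.inf
  refine ⟨h.int.map ιX, h.ne, ⟨f, ιX β, ?_, h3.map ιX, ?_⟩, ?_, ⟨f', ιI β', ?_, g3.map ιI, ?_⟩⟩
  · change aeval (ιX α) f = 0
    rw [aeval_algHom_apply, h2, map_zero]
  · change aeval (ιX α) (derivative f) * ιX β = _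
    rw [aeval_algHom_apply, ← map_mul, h4]
    exact hX δ
  · rw [hα']
    exact h.intInf.map ιI
  · rw [hα', aeval_algHom_apply, g2, map_zero]
  · rw [hα', aeval_algHom_apply, ← map_mul, g4]
    exact hI _

end ex

section model

variable {k : Type*} [Field k] {M : Type*} [Field M] [Algebra k[X] M] [Algebra (RatFunc k) M]
  [IsScalarTower k[X] (RatFunc k) M]
  {F : Type*} [Field F] [Algebra k F] [IsAlgClosed F] {L : Type*} [Field L] [Algebra (RatFunc F) L]
  [Algebra F[X] L] [Algebra F L] [IsScalarTower F F[X] L] [IsScalarTower F[X] (RatFunc F) L]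
  [FiniteDimensional (RatFunc F) L] [IsGalois (RatFunc F) L]

omit [IsAlgClosed F] [Algebra F L] [IsScalarTower F F[X] L]
  [FiniteDimensional (RatFunc F) L] [IsGalois (RatFunc F) L] in
theorem j_rat {j : M →+* L}
    (hj : ∀ h : k[X], j (algebraMap k[X] M h) = algebraMap F[X] L (h.map (algebraMap k F)))
    (a : RatFunc k) : j (algebraMap (RatFunc k) M a) = algebraMap (RatFunc F) L (ratMap k F a) := by
  have h1 : j.comp (algebraMap (RatFunc k) M) = (algebraMap (RatFunc F) L).comp (ratMap k F) := by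
    apply IsFractionRing.injective_comp_algebraMap (A := k[X])
    refine RingHom.ext fun h => ?_
    change j (algebraMap (RatFunc k) M (algebraMap k[X] (RatFunc k) h)) =
      algebraMap (RatFunc F) L (ratMap k F (algebraMap k[X] (RatFunc k) h))
    rw [← IsScalarTower.algebraMap_apply, hj, ratMap_alg, ← IsScalarTower.algebraMap_apply]
  exact congrArg (fun φ : RatFunc k →+* L => φ a) h1

omit [IsAlgClosed F] [Algebra F L] [IsScalarTower F F[X] L] in
/-- The data give the tameness data of every geometric model. -/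
theorem GenDat.model {α : M} {δ : k[X]} {c e : ℕ} (h : GenDat k α δ c e) {j : M →+* L}
    (hj : ∀ h : k[X], j (algebraMap k[X] M h) = algebraMap F[X] L (h.map (algebraMap k F)))
    (hcard : ((Nat.card (stabE (RatFunc F) (j α)) : ℕ) : F) ≠ 0) :
    TameDat (stabE (RatFunc F) (j α)) (δ.map (algebraMap k F)) e := by
  have hI : ∀ d : DInf k, j (algebraMap (DInf k) M d) = algebraMap (DInf F) L (infMap k F d) := by
    intro d
    rw [IsScalarTower.algebraMap_apply (DInf k) (RatFunc k) M, j_rat hj]
    rfl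
  have hjX : j.comp (algebraMap k[X] M) =
      (algebraMap F[X] L).comp (Polynomial.mapRingHom (algebraMap k F)) := RingHom.ext hj
  have hjI : j.comp (algebraMap (DInf k) M) = (algebraMap (DInf F) L).comp (infMap k F) :=
    RingHom.ext hI
  have hintX : ∀ x : M, IsIntegral k[X] x → IsIntegral F[X] (j x) := by
    rintro x ⟨p, hp, hpx⟩
    refine ⟨p.map (Polynomial.mapRingHom (algebraMap k F)), hp.map _, ?_⟩
    rw [eval₂_map, ← hjX, ← hom_eval₂, hpx, map_zero]
  have hintI : ∀ x : M, IsIntegral (DInf k) x → IsIntegral (DInf F) (j x) := by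
    rintro x ⟨p, hp, hpx⟩
    refine ⟨p.map (infMap k F), hp.map _, ?_⟩
    rw [eval₂_map, ← hjI, ← hom_eval₂, hpx, map_zero]
  have haX : ∀ (x : M) (p : k[X][X]),
      aeval (j x) (p.map (Polynomial.mapRingHom (algebraMap k F))) = j (aeval x p) := by
    intro x p
    rw [aeval_def, aeval_def, eval₂_map, ← hjX, hom_eval₂]
  have haI : ∀ (x : M) (p : (DInf k)[X]),
      aeval (j x) (p.map (infMap k F)) = j (aeval x p) := by
    intro x p
    rw [aeval_def, aeval_def, eval₂_map, ← hjI, hom_eval₂]
  obtain ⟨f, β, h2, h3, h4⟩ := h.fin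
  obtain ⟨f', β', g2, g3, g4⟩ := h.inf
  refine ⟨hcard, (Polynomial.map_ne_zero_iff (algebraMap k F).injective).2 h.ne, ?_, ?_⟩
  · refine cod_of F[X] (RatFunc F) (hintX α h.int) ?_
      (f := f.map (Polynomial.mapRingHom (algebraMap k F))) ?_ (hintX β h3) ?_
    · have h5 := (IsUnit.mk0 _ hcard).map (C : F →+* F[X])
      rwa [map_natCast] at h5
    · rw [haX, h2, map_zero]
    · rw [derivative_map, haX, ← map_mul, h4, hj]
  · -- the field generated by `α / t ^ c` is the same
    have hst : stabE (RatFunc F) (j (algebraMap (DInf k) M (uInf k ^ c) * α)) =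
        stabE (RatFunc F) (j α) := by
      ext g
      rw [mem_stabE, mem_stabE, map_mul j, hI, map_mul g]
      have h5 : g (algebraMap (DInf F) L (infMap k F (uInf k ^ c))) =
          algebraMap (DInf F) L (infMap k F (uInf k ^ c)) := g.commutes _
      have h6 : algebraMap (DInf F) L (infMap k F (uInf k ^ c)) ≠ 0 := by
        rw [map_pow, infMap_uInf, IsScalarTower.algebraMap_apply (DInf F) (RatFunc F) L,
          Ne, map_eq_zero]
        change ¬ (((uInf F : DInf F) ^ c : DInf F) : RatFunc F) = 0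
        rw [SubmonoidClass.coe_pow, coe_uInf]
        exact pow_ne_zero _ (inv_ne_zero RatFunc.X_ne_zero)
      rw [h5]
      exact ⟨fun h => mul_left_cancel₀ h6 h, fun h => by rw [h]⟩
    rw [← hst]
    rw [← hst] at hcard
    refine cod_of (DInf F) (RatFunc F) (hintI _ h.intInf) ?_
      (f := f'.map (infMap k F)) ?_ (hintI β' g3) ?_
    · have hC : ∀ a : F, (RatFunc.C a : RatFunc F) ∈ DInf F := by
        intro a
        rw [mem_DInf, RatFunc.intDegree_C]
        right; exact le_rfl
      have h5 := (IsUnit.mk0 _ hcard).map (RatFunc.C.codRestrict (DInf F).toSubring hC)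
      rwa [map_natCast] at h5
    · rw [haI, g2, map_zero]
    · rw [derivative_map, haI, ← map_mul, g4, hI, map_pow, infMap_uInf]

end model

end Pool.Agent.SmBU
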