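import Pool.Agent.Lib.SmBU.B1g

/-!
SMITH-U, block B for general `K`: definitions of the arithmetic half.

`k` a finite field with `q` elements, `K / k(t)` finite separable, `AA k K` the integral closure of
`k[t]` in `K`, `M / K` finite Galois, `Mt / k(t)` finite Galois with an embedding `ι : M → Mt` over
`k(t)`.
-/

set_option autoImplicit false

namespace Pool.Agent.SmBU

open Module Polynomial Pool.Agent.SmB

section defs

variable (k : Type*) [Field k] {K : Type*} [Field K] [Algebra k[X] K]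
  {M : Type*} [Field M] [Algebra k[X] M] [Algebra K M]

/-- The nonzero primes of `AA k K` with `q ^ N` residue classes (`q = #k`). -/
def PrK (K : Type*) [Field K] [Algebra k[X] K] (N : ℕ) : Set (Ideal (AA k K)) :=
  {v | v.IsPrime ∧ v ≠ ⊥ ∧ Nat.card (AA k K ⧸ v) = (Nat.card k) ^ N}

/-- The degree over `k` of a prime of `AA k K`. -/
noncomputable def dgK (v : Ideal (AA k K)) : ℕ := Nat.log (Nat.card k) (Nat.card (AA k K ⧸ v))

variable {k}

/-- The ideal `I` of `AA k M` lies above the ideal `v` of `AA k K`. -/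
def AboveK (v : Ideal (AA k K)) (I : Ideal (AA k M)) : Prop :=
  ∀ (x : AA k K) (y : AA k M), (y : M) = algebraMap K M x → (y ∈ I ↔ x ∈ v)

/-- `τ` is a Frobenius at the prime `v` of `AA k K` (`Q` = number of residue classes). -/
def FrobK (v : Ideal (AA k K)) (Q : ℕ) (τ : M → M) : Prop :=
  ∃ I : Ideal (AA k M), I.IsPrime ∧ AboveK v I ∧
    ∀ x y : AA k M, (y : M) = τ x → y - x ^ Q ∈ I

/-- `v` is unramified in the Galois extension `M/K`: all inertia groups above `v` are trivial. -/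
def UnramK (M : Type*) [Field M] [Algebra k[X] M] [Algebra K M] (v : Ideal (AA k K)) : Prop :=
  ∀ I : Ideal (AA k M), I.IsPrime → AboveK v I →
    ∀ σ : M ≃ₐ[K] M, (∀ x y : AA k M, (y : M) = σ x → y - x ∈ I) → σ = 1

/-- The automorphisms of `M/K` acting on the constants as the `N`-th power of the Frobenius of
`k`. -/
def CompK (k : Type*) [Field k] {K M : Type*} [Field K] [Field M] [Algebra K M] [Algebra k M]
    (N : ℕ) (σ : M ≃ₐ[K] M) : Prop :=
  ∀ x : M, IsIntegral k x → σ x = x ^ (Nat.card k) ^ N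

end defs

section closure

variable {k : Type*} [Field k] {K : Type*} [Field K]
  {M : Type*} [Field M] [Algebra K M] [Algebra (RatFunc k) M]
  {Mt : Type*} [Field Mt] [Algebra (RatFunc k) Mt]

/-- The automorphisms of `Mt/k(t)` trivial on (the image of) `K`. -/
def UK (K : Type*) [Field K] [Algebra K M] (ι : M →ₐ[RatFunc k] Mt) :
    Subgroup (Mt ≃ₐ[RatFunc k] Mt) where
  carrier := {g | ∀ y : K, g (ι (algebraMap K M y)) = ι (algebraMap K M y)}
  one_mem' := fun _ => rfl
  mul_mem' := fun {a b} ha hb y => by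
    change a (b _) = _
    rw [hb y, ha y]
  inv_mem' := fun {a} ha y => by
    conv_lhs => rw [← ha y]
    rw [← AlgEquiv.mul_apply, inv_mul_cancel, AlgEquiv.one_apply]

theorem mem_UK {ι : M →ₐ[RatFunc k] Mt} {g : Mt ≃ₐ[RatFunc k] Mt} :
    g ∈ UK K ι ↔ ∀ y : K, g (ι (algebraMap K M y)) = ι (algebraMap K M y) := Iff.rfl

/-- The prime of `AA k K` below a prime of `AA k Mt`. -/
def belowK [Algebra k[X] K] [Algebra k[X] Mt] (ι : M →ₐ[RatFunc k] Mt)
    (hι : ∀ x : AA k K, IsIntegral k[X] (ι (algebraMap K M x)))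
    (I : Ideal (AA k Mt)) : Ideal (AA k K) where
  carrier := {x | (⟨ι (algebraMap K M x), hι x⟩ : AA k Mt) ∈ I}
  zero_mem' := by
    have h : (⟨ι (algebraMap K M ((0 : AA k K) : K)), hι 0⟩ : AA k Mt) = 0 := by
      apply Subtype.ext
      change ι (algebraMap K M 0) = 0
      rw [map_zero, map_zero]
    rw [Set.mem_ofPred_eq, h]
    exact I.zero_mem
  add_mem' := fun {a b} ha hb => by
    have h : (⟨ι (algebraMap K M ((a + b : AA k K) : K)), hι (a + b)⟩ : AA k Mt) =
        ⟨ι (algebraMap K M a), hι a⟩ + ⟨ι (algebraMap K M b), hι b⟩ := by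
      apply Subtype.ext
      change ι (algebraMap K M ((a : K) + b)) = _
      rw [map_add, map_add]
      rfl
    rw [Set.mem_ofPred_eq, h]
    exact I.add_mem ha hb
  smul_mem' := fun a b hb => by
    have h : (⟨ι (algebraMap K M ((a • b : AA k K) : K)), hι (a • b)⟩ : AA k Mt) =
        ⟨ι (algebraMap K M a), hι a⟩ * ⟨ι (algebraMap K M b), hι b⟩ := by
      apply Subtype.ext
      change ι (algebraMap K M ((a : K) * b)) = _
      rw [map_mul, map_mul]
      rfl
    rw [Set.mem_ofPred_eq, h]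
    exact I.mul_mem_left _ hb

theorem mem_belowK [Algebra k[X] K] [Algebra k[X] Mt] {ι : M →ₐ[RatFunc k] Mt}
    {hι : ∀ x : AA k K, IsIntegral k[X] (ι (algebraMap K M x))} {I : Ideal (AA k Mt)}
    {x : AA k K} : x ∈ belowK ι hι I ↔ (⟨ι (algebraMap K M x), hι x⟩ : AA k Mt) ∈ I := Iff.rfl

open Classical in
/-- The (unnormalised) induced function. -/
noncomputable def indF [Fintype (Mt ≃ₐ[RatFunc k] Mt)] {ι : M →ₐ[RatFunc k] Mt}
    (res : UK K ι →* (M ≃ₐ[K] M)) (f : (M ≃ₐ[K] M) → ℝ) (τ : Mt ≃ₐ[RatFunc k] Mt) : ℝ :=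
  ∑ g : Mt ≃ₐ[RatFunc k] Mt,
    if h : g * τ * g⁻¹ ∈ UK K ι then f (res ⟨g * τ * g⁻¹, h⟩) else 0

/-- `α` controls `K`: what fixes `α` fixes all conjugates of `K`. -/
def CtrK (K : Type*) [Field K] [Algebra K M] (ι : M →ₐ[RatFunc k] Mt) (α : Mt) : Prop :=
  ∀ g : Mt ≃ₐ[RatFunc k] Mt, g α = α → ∀ (h : Mt ≃ₐ[RatFunc k] Mt) (y : K),
    g (h (ι (algebraMap K M y))) = h (ι (algebraMap K M y))

/-- `Mt` is generated by the conjugates of `M`. -/
def GenM (ι : M →ₐ[RatFunc k] Mt) : Prop :=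
  ∀ g : Mt ≃ₐ[RatFunc k] Mt, (∀ (h : Mt ≃ₐ[RatFunc k] Mt) (x : M), g (h (ι x)) = h (ι x)) → g = 1

end closure

end Pool.Agent.SmBU
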