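import Pool.Agent.Lib.SmBU.Cd

/-!
SMITH-U, block B for general `K`: if `P` does not divide `δ` and the primes of `K` above `P` are
unramified in `M`, then `P` is unramified in the normal closure `Mt`.
-/

set_option autoImplicit false

namespace Pool.Agent.SmBU

open Module Polynomial Pool.Agent.SmB

section setting

variable {k : Type*} [Field k]
  {K : Type*} [Field K] [Algebra (RatFunc k) K] [Algebra k[X] K] [IsScalarTower k[X] (RatFunc k) K]
  {M : Type*} [Field M] [Algebra K M] [Algebra (RatFunc k) M] [IsScalarTower (RatFunc k) K M]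
  [Algebra k[X] M] [IsScalarTower k[X] (RatFunc k) M]
  {Mt : Type*} [Field Mt] [Algebra (RatFunc k) Mt] [Algebra k[X] Mt]
  [IsScalarTower k[X] (RatFunc k) Mt]
  {ι : M →ₐ[RatFunc k] Mt}

omit [Algebra k[X] M] [IsScalarTower k[X] (RatFunc k) M] [IsScalarTower (RatFunc k) K M]
  [IsScalarTower k[X] (RatFunc k) K] [Algebra k[X] K] [Algebra (RatFunc k) K] [Algebra K M]
  [Field K] [Field M] [Algebra (RatFunc k) M] in
/-- An element of the ring of integers stays there under automorphisms. -/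
theorem gal_mem (g : Mt ≃ₐ[RatFunc k] Mt) {x : Mt} (hx : IsIntegral k[X] x) :
    IsIntegral k[X] (g x) :=
  hx.map ((g : Mt →ₐ[RatFunc k] Mt).restrictScalars k[X])

/-- The prime `h⁻¹ I`. -/
def pullI (h : Mt ≃ₐ[RatFunc k] Mt) (I : Ideal (AA k Mt)) : Ideal (AA k Mt) where
  carrier := {x | (⟨h x, gal_mem h x.2⟩ : AA k Mt) ∈ I}
  zero_mem' := by
    have h1 : (⟨h ((0 : AA k Mt) : Mt), gal_mem h (0 : AA k Mt).2⟩ : AA k Mt) = 0 :=
      Subtype.ext (map_zero h)
    rw [Set.mem_ofPred_eq, h1]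
    exact I.zero_mem
  add_mem' := fun {a b} ha hb => by
    have h1 : (⟨h ((a + b : AA k Mt) : Mt), gal_mem h (a + b).2⟩ : AA k Mt) =
        ⟨h a, gal_mem h a.2⟩ + ⟨h b, gal_mem h b.2⟩ := Subtype.ext (map_add h (a : Mt) (b : Mt))
    rw [Set.mem_ofPred_eq, h1]
    exact I.add_mem ha hb
  smul_mem' := fun a b hb => by
    have h1 : (⟨h ((a • b : AA k Mt) : Mt), gal_mem h (a • b).2⟩ : AA k Mt) =
        ⟨h a, gal_mem h a.2⟩ * ⟨h b, gal_mem h b.2⟩ := Subtype.ext (map_mul h (a : Mt) (b : Mt))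
    rw [Set.mem_ofPred_eq, h1]
    exact I.mul_mem_left _ hb

theorem mem_pullI {h : Mt ≃ₐ[RatFunc k] Mt} {I : Ideal (AA k Mt)} {x : AA k Mt} :
    x ∈ pullI h I ↔ (⟨h x, gal_mem h x.2⟩ : AA k Mt) ∈ I := Iff.rfl

theorem pullI_isPrime (h : Mt ≃ₐ[RatFunc k] Mt) {I : Ideal (AA k Mt)} (hI : I.IsPrime) :
    (pullI h I).IsPrime := by
  refine Ideal.isPrime_iff.2 ⟨?_, ?_⟩
  · intro h1
    have h2 : (1 : AA k Mt) ∈ pullI h I := by rw [h1]; trivial
    rw [mem_pullI] at h2
    have h3 : (⟨h ((1 : AA k Mt) : Mt), gal_mem h (1 : AA k Mt).2⟩ : AA k Mt) = 1 :=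
      Subtype.ext (map_one h)
    rw [h3] at h2
    exact hI.ne_top ((Ideal.eq_top_iff_one I).2 h2)
  · intro x y hxy
    rw [mem_pullI] at hxy
    have h1 : (⟨h ((x * y : AA k Mt) : Mt), gal_mem h (x * y).2⟩ : AA k Mt) =
        ⟨h x, gal_mem h x.2⟩ * ⟨h y, gal_mem h y.2⟩ := Subtype.ext (map_mul h (x : Mt) (y : Mt))
    rw [h1] at hxy
    exact hI.mem_or_mem hxy

theorem pullI_comap (h : Mt ≃ₐ[RatFunc k] Mt) (I : Ideal (AA k Mt)) :
    (pullI h I).comap (algebraMap k[X] (AA k Mt)) = I.comap (algebraMap k[X] (AA k Mt)) := by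
  ext p
  rw [Ideal.mem_comap, Ideal.mem_comap, mem_pullI]
  have h1 : (⟨h ((algebraMap k[X] (AA k Mt) p : AA k Mt) : Mt),
      gal_mem h (algebraMap k[X] (AA k Mt) p).2⟩ : AA k Mt) = algebraMap k[X] (AA k Mt) p := by
    apply Subtype.ext
    change h (algebraMap k[X] Mt p) = algebraMap k[X] Mt p
    rw [IsScalarTower.algebraMap_apply k[X] (RatFunc k) Mt, h.commutes]
  rw [h1]

omit [Algebra k[X] M] [IsScalarTower k[X] (RatFunc k) M] in
theorem belowK_isPrime {I : Ideal (AA k Mt)} (hI : I.IsPrime) :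
    (belowK (K := K) ι int_ι I).IsPrime := by
  refine Ideal.isPrime_iff.2 ⟨?_, ?_⟩
  · intro h1
    have h2 : (1 : AA k K) ∈ belowK (K := K) ι int_ι I := by rw [h1]; trivial
    rw [mem_belowK] at h2
    have h3 : (⟨ι (algebraMap K M ((1 : AA k K) : K)), int_ι 1⟩ : AA k Mt) = 1 := by
      apply Subtype.ext
      change ι (algebraMap K M 1) = 1
      rw [map_one, map_one]
    rw [h3] at h2
    exact hI.ne_top ((Ideal.eq_top_iff_one I).2 h2)
  · intro x y hxy
    rw [mem_belowK] at hxy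
    have h1 : (⟨ι (algebraMap K M ((x * y : AA k K) : K)), int_ι (x * y)⟩ : AA k Mt) =
        ⟨ι (algebraMap K M x), int_ι x⟩ * ⟨ι (algebraMap K M y), int_ι y⟩ := by
      apply Subtype.ext
      change ι (algebraMap K M ((x : K) * y)) = _
      rw [map_mul, map_mul]
      rfl
    rw [h1] at hxy
    exact hI.mem_or_mem hxy

omit [Algebra k[X] M] [IsScalarTower k[X] (RatFunc k) M] in
theorem belowK_comap (I : Ideal (AA k Mt)) :
    (belowK (K := K) ι int_ι I).comap (algebraMap k[X] (AA k K)) =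
      I.comap (algebraMap k[X] (AA k Mt)) := by
  ext p
  rw [Ideal.mem_comap, Ideal.mem_comap, mem_belowK]
  have h1 : (⟨ι (algebraMap K M ((algebraMap k[X] (AA k K) p : AA k K) : K)),
      int_ι (algebraMap k[X] (AA k K) p)⟩ : AA k Mt) = algebraMap k[X] (AA k Mt) p :=
    Subtype.ext (ι_poly p)
  rw [h1]

/-- The prime of `AA k M` below a prime of `AA k Mt`. -/
noncomputable def belowM (ι : M →ₐ[RatFunc k] Mt) (I : Ideal (AA k Mt)) : Ideal (AA k M) :=
  I.comap ((((ι.restrictScalars k[X]).comp (AA k M).val).codRestrict (AA k Mt)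
    (fun x => x.2.map (ι.restrictScalars k[X]))) : AA k M →ₐ[k[X]] AA k Mt)

omit [Algebra k[X] K] [IsScalarTower k[X] (RatFunc k) K] [Algebra (RatFunc k) K] [Algebra K M]
  [IsScalarTower (RatFunc k) K M] [Field K] in
theorem mem_belowM {I : Ideal (AA k Mt)} {x : AA k M} :
    x ∈ belowM ι I ↔ ∀ y : AA k Mt, (y : Mt) = ι x → y ∈ I := by
  constructor
  · intro h y hy
    have h1 : (((ι.restrictScalars k[X]).comp (AA k M).val).codRestrict (AA k Mt)
      (fun x => x.2.map (ι.restrictScalars k[X]))) x = y := Subtype.ext hy.symm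
    have h2 : (((ι.restrictScalars k[X]).comp (AA k M).val).codRestrict (AA k Mt)
      (fun x => x.2.map (ι.restrictScalars k[X]))) x ∈ I := h
    rwa [h1] at h2
  · intro h
    exact h _ rfl

omit [Algebra k[X] K] [IsScalarTower k[X] (RatFunc k) K] [Algebra (RatFunc k) K] [Algebra K M]
  [IsScalarTower (RatFunc k) K M] [Field K] in
theorem belowM_isPrime {I : Ideal (AA k Mt)} (hI : I.IsPrime) : (belowM ι I).IsPrime :=
  Ideal.IsPrime.comap _

theorem aboveK_below (I : Ideal (AA k Mt)) :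
    AboveK (belowK (K := K) ι int_ι I) (belowM ι I) := by
  intro x y hxy
  rw [mem_belowM, mem_belowK]
  constructor
  · intro h
    exact h _ (by rw [hxy])
  · intro h z hz
    have h1 : z = ⟨ι (algebraMap K M x), int_ι x⟩ := Subtype.ext (by rw [hz, hxy])
    rw [h1]
    exact h

/-- The inertia group is contained in the stabiliser of `α` outside `δ`. -/
theorem inertia_fix {α : Mt} {δ : k[X]} {c e : ℕ} (hg : GenDat k α δ c e) {P : k[X]}
    (hPδ : ¬ P ∣ δ) {I : Ideal (AA k Mt)}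
    (hIP : I.comap (algebraMap k[X] (AA k Mt)) = Ideal.span {P}) {σ : Mt ≃ₐ[RatFunc k] Mt}
    (hσ : ∀ x y : AA k Mt, (y : Mt) = σ x → y - x ∈ I) : σ α = α := by
  by_contra hne
  obtain ⟨f, β, hf, hβ, hd⟩ := hg.fin
  let a : AA k Mt := ⟨α, hg.int⟩
  let a' : AA k Mt := ⟨σ α, gal_mem σ hg.int⟩
  let b : AA k Mt := ⟨β, hβ⟩
  have haa : a' ≠ a := fun h => hne (congrArg Subtype.val h)
  have hval : ∀ (x : AA k Mt) (p : k[X][X]), ((aeval x p : AA k Mt) : Mt) = aeval (x : Mt) p :=
    fun x p => (aeval_algebraMap_apply Mt x p).symm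
  have hfa : aeval a f = 0 := Subtype.ext ((hval a f).trans hf)
  have hfa' : aeval a' f = 0 := by
    apply Subtype.ext
    rw [hval]
    change aeval (σ α) f = 0
    have h1 : aeval (((σ : Mt →ₐ[RatFunc k] Mt).restrictScalars k[X]) α) f =
        ((σ : Mt →ₐ[RatFunc k] Mt).restrictScalars k[X]) (aeval α f) := aeval_algHom_apply _ _ _
    rw [hf, map_zero] at h1
    exact h1
  set F : (AA k Mt)[X] := f.map (algebraMap k[X] (AA k Mt)) with hF
  have hroot : F.IsRoot a := by
    rw [IsRoot.def, hF, eval_map_algebraMap]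
    exact hfa
  obtain ⟨g, hg'⟩ := dvd_iff_isRoot.2 hroot
  have hFa' : F.eval a' = 0 := by
    rw [hF, eval_map_algebraMap]
    exact hfa'
  have hga' : g.eval a' = 0 := by
    rw [hg', eval_mul, eval_sub, eval_X, eval_C] at hFa'
    exact (mul_eq_zero.1 hFa').resolve_left (sub_ne_zero.2 haa)
  have hder : aeval a (derivative f) = g.eval a := by
    have h1 : aeval a (derivative f) = (derivative F).eval a := by
      rw [hF, derivative_map, eval_map_algebraMap]
    rw [h1, hg', derivative_mul, derivative_sub, derivative_X, derivative_C, sub_zero, one_mul,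
      eval_add, eval_mul, eval_sub, eval_X, eval_C, sub_self, zero_mul, add_zero]
  have hdvd : a' - a ∣ g.eval a' - g.eval a := sub_dvd_eval_sub _ _ _
  have hmem : aeval a (derivative f) ∈ I := by
    obtain ⟨w, hw⟩ := hdvd
    have h2 : g.eval a = (a' - a) * (-w) := by linear_combination hga' - hw
    rw [hder, h2]
    exact I.mul_mem_right _ (hσ a a' rfl)
  apply hPδ
  have hδ : δ ∈ I.comap (algebraMap k[X] (AA k Mt)) := by
    rw [Ideal.mem_comap]
    have h1 : algebraMap k[X] (AA k Mt) δ = aeval a (derivative f) * b := by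
      apply Subtype.ext
      change algebraMap k[X] Mt δ = ((aeval a (derivative f) : AA k Mt) : Mt) * β
      rw [hval]
      exact hd.symm
    rw [h1]
    exact I.mul_mem_right _ hmem
  rw [hIP, Ideal.mem_span_singleton] at hδ
  exact hδ

/-- Unramifiedness of the normal closure. -/
theorem unramM_of [FiniteDimensional K M] [IsGalois K M]
    [FiniteDimensional (RatFunc k) Mt] [IsGalois (RatFunc k) Mt]
    {α : Mt} {δ : k[X]} {c e : ℕ} (hg : GenDat k α δ c e) (hc : CtrK K ι α)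
    (hgen : GenM ι) {P : k[X]} (hPδ : ¬ P ∣ δ)
    (hv : ∀ v : Ideal (AA k K), v.IsPrime → v.comap (algebraMap k[X] (AA k K)) = Ideal.span {P} →
      UnramK M v) : UnramM Mt P := by
  intro I hI hIP σ hσ
  obtain ⟨res, hres, -⟩ := exists_res (k := k) (K := K) (M := M) (Mt := Mt) (ι := ι)
  have hα := inertia_fix hg hPδ hIP hσ
  apply hgen
  intro h x
  have hu := conj_mem_UK hc hα h
  have hJ : (pullI h I).IsPrime := pullI_isPrime h hI
  have hvp : (belowK (K := K) ι int_ι (pullI h I)).IsPrime := belowK_isPrime hJ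
  have hvc : (belowK (K := K) ι int_ι (pullI h I)).comap (algebraMap k[X] (AA k K)) =
      Ideal.span {P} := by
    rw [belowK_comap, pullI_comap, hIP]
  have h1 : res ⟨_, hu⟩ = 1 := by
    refine hv _ hvp hvc (belowM ι (pullI h I)) (belowM_isPrime hJ) (aboveK_below _) _ ?_
    intro y z hz
    rw [mem_belowM]
    intro w hw
    rw [mem_pullI]
    have hy : IsIntegral k[X] (h (ι y)) :=
      gal_mem h (y.2.map (ι.restrictScalars k[X]))
    have h2 := hσ ⟨h (ι y), hy⟩ ⟨σ (h (ι y)), gal_mem σ hy⟩ rfl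
    convert h2 using 1
    apply Subtype.ext
    change h (w : Mt) = σ (h (ι y)) - h (ι y)
    rw [hw]
    change h (ι ((z : M) - (y : M))) = _
    rw [map_sub, map_sub, hz, hres]
    congr 1
    change h (h⁻¹ (σ (h (ι y)))) = _
    rw [← AlgEquiv.mul_apply h h⁻¹, mul_inv_cancel, AlgEquiv.one_apply]
  have h2 := hres ⟨_, hu⟩ x
  rw [h1] at h2
  change ι x = h⁻¹ (σ (h (ι x))) at h2
  have h3 := congrArg h h2
  rw [← AlgEquiv.mul_apply h h⁻¹, mul_inv_cancel, AlgEquiv.one_apply] at h3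
  exact h3.symm

end setting

end Pool.Agent.SmBU
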