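import Pool.Agent.Lib.SmBU.KDefs

/-!
SMITH-U, block B for general `K`: the restriction map `Gal(Mt/K) → Gal(M/K)` and elementary
properties of the induced function.
-/

set_option autoImplicit false

namespace Pool.Agent.SmBU

open Module Polynomial Pool.Agent.SmB

section setting

variable {k : Type*} [Field k]
  {K : Type*} [Field K] [Algebra (RatFunc k) K] [Algebra k[X] K] [IsScalarTower k[X] (RatFunc k) K]
  {M : Type*} [Field M] [Algebra K M] [Algebra (RatFunc k) M] [IsScalarTower (RatFunc k) K M]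
  {Mt : Type*} [Field Mt] [Algebra (RatFunc k) Mt] [Algebra k[X] Mt]
  [IsScalarTower k[X] (RatFunc k) Mt]
  {ι : M →ₐ[RatFunc k] Mt}

theorem ι_poly (p : k[X]) : ι (algebraMap K M (algebraMap k[X] K p)) = algebraMap k[X] Mt p := by
  rw [IsScalarTower.algebraMap_apply k[X] (RatFunc k) K,
    ← IsScalarTower.algebraMap_apply (RatFunc k) K M, ι.commutes,
    ← IsScalarTower.algebraMap_apply]

theorem int_ι (x : AA k K) : IsIntegral k[X] (ι (algebraMap K M x)) := by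
  obtain ⟨p, hp, hpx⟩ := x.2
  refine ⟨p, hp, ?_⟩
  have h1 : ((ι : M →+* Mt).comp (algebraMap K M)).comp (algebraMap k[X] K) =
      algebraMap k[X] Mt := RingHom.ext fun p => ι_poly p
  have h2 : ((ι : M →+* Mt).comp (algebraMap K M)) (eval₂ (algebraMap k[X] K) (x : K) p) = 0 := by
    rw [hpx, map_zero]
  rw [hom_eval₂, h1] at h2
  exact h2

omit [Algebra k[X] K] [IsScalarTower k[X] (RatFunc k) K] [Algebra k[X] Mt]
  [IsScalarTower k[X] (RatFunc k) Mt] in
theorem exists_res [FiniteDimensional K M] [IsGalois K M] [FiniteDimensional (RatFunc k) Mt]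
    [IsGalois (RatFunc k) Mt] : ∃ res : UK K ι →* (M ≃ₐ[K] M),
    (∀ (u : UK K ι) (x : M), ι (res u x) = (u : Mt ≃ₐ[RatFunc k] Mt) (ι x)) ∧
      Function.Surjective res := by
  let a1 : Algebra M Mt := (ι : M →+* Mt).toAlgebra
  let a2 : Algebra K Mt := ((ι : M →+* Mt).comp (algebraMap K M)).toAlgebra
  have t1 : IsScalarTower K M Mt := IsScalarTower.of_algebraMap_eq fun _ => rfl
  have t2 : IsScalarTower (RatFunc k) K Mt := by
    refine IsScalarTower.of_algebraMap_eq fun a => ?_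
    change _ = ι (algebraMap K M (algebraMap (RatFunc k) K a))
    rw [← IsScalarTower.algebraMap_apply (RatFunc k) K M, ι.commutes]
  have hfin : FiniteDimensional K Mt := FiniteDimensional.right (RatFunc k) K Mt
  have hnor : Normal K Mt := Normal.tower_top_of_normal (RatFunc k) K Mt
  let to' : UK K ι →* (Mt ≃ₐ[K] Mt) :=
    { toFun := fun u => AlgEquiv.ofRingEquiv (f := ((u : Mt ≃ₐ[RatFunc k] Mt) : Mt ≃+* Mt))
        (fun y => u.2 y)
      map_one' := rfl
      map_mul' := fun _ _ => rfl }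
  have hto : ∀ (u : UK K ι) (x : Mt), to' u x = (u : Mt ≃ₐ[RatFunc k] Mt) x := fun _ _ => rfl
  refine ⟨(AlgEquiv.restrictNormalHom M).comp to', ?_, ?_⟩
  · intro u x
    exact AlgEquiv.restrictNormal_commutes (to' u) M x
  · intro τ
    obtain ⟨g, hg⟩ := AlgEquiv.restrictNormalHom_surjective (F := K) (K₁ := M) Mt τ
    refine ⟨⟨g.restrictScalars (RatFunc k), fun y => g.commutes y⟩, ?_⟩
    rw [MonoidHom.comp_apply, ← hg]
    congr 1

end setting

section ind

variable {k : Type*} [Field k]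
  {K : Type*} [Field K] {M : Type*} [Field M] [Algebra K M] [Algebra (RatFunc k) M]
  {Mt : Type*} [Field Mt] [Algebra (RatFunc k) Mt] [FiniteDimensional (RatFunc k) Mt]
  {ι : M →ₐ[RatFunc k] Mt}

open Classical in
/-- The extension by zero. -/
noncomputable def val0 (res : UK K ι →* (M ≃ₐ[K] M)) (f : (M ≃ₐ[K] M) → ℝ)
    (σ : Mt ≃ₐ[RatFunc k] Mt) : ℝ := if h : σ ∈ UK K ι then f (res ⟨σ, h⟩) else 0

omit [FiniteDimensional (RatFunc k) Mt] in
theorem val0_of_mem {res : UK K ι →* (M ≃ₐ[K] M)} (f : (M ≃ₐ[K] M) → ℝ) (u : UK K ι) :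
    val0 res f u = f (res u) := by
  unfold val0
  rw [dif_pos u.2]

omit [FiniteDimensional (RatFunc k) Mt] in
theorem val0_of_not_mem {res : UK K ι →* (M ≃ₐ[K] M)} (f : (M ≃ₐ[K] M) → ℝ)
    {σ : Mt ≃ₐ[RatFunc k] Mt} (h : σ ∉ UK K ι) : val0 res f σ = 0 := by
  unfold val0
  rw [dif_neg h]

theorem indF_eq (res : UK K ι →* (M ≃ₐ[K] M)) (f : (M ≃ₐ[K] M) → ℝ)
    (τ : Mt ≃ₐ[RatFunc k] Mt) : indF res f τ = ∑ g, val0 res f (g * τ * g⁻¹) := rfl

theorem indF_conj {res : UK K ι →* (M ≃ₐ[K] M)} (f : (M ≃ₐ[K] M) → ℝ)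
    (g τ : Mt ≃ₐ[RatFunc k] Mt) : indF res f (g * τ * g⁻¹) = indF res f τ := by
  rw [indF_eq, indF_eq]
  refine Fintype.sum_equiv (Equiv.mulRight g) _ _ fun h => ?_
  have h1 : h * (g * τ * g⁻¹) * h⁻¹ = h * g * τ * (h * g)⁻¹ := by group
  rw [h1]
  rfl

theorem abs_indF_le [IsGalois (RatFunc k) Mt] {res : UK K ι →* (M ≃ₐ[K] M)}
    {f : (M ≃ₐ[K] M) → ℝ} (hf : ∀ τ, |f τ| ≤ 1)
    (τ : Mt ≃ₐ[RatFunc k] Mt) : |indF res f τ| ≤ finrank (RatFunc k) Mt := by
  rw [indF_eq]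
  refine (Finset.abs_sum_le_sum_abs _ _).trans ?_
  have h1 : ∀ g ∈ (Finset.univ : Finset (Mt ≃ₐ[RatFunc k] Mt)),
      |val0 res f (g * τ * g⁻¹)| ≤ 1 := by
    intro g _
    by_cases h : g * τ * g⁻¹ ∈ UK K ι
    · have h2 := val0_of_mem (res := res) f ⟨_, h⟩
      change val0 res f (g * τ * g⁻¹) = _ at h2
      rw [h2]
      exact hf _
    · rw [val0_of_not_mem f h, abs_zero]
      exact zero_le_one
  refine (Finset.sum_le_sum h1).trans ?_
  rw [Finset.sum_const, nsmul_eq_mul, mul_one, Finset.card_univ, ← Nat.card_eq_fintype_card,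
    IsGalois.card_aut_eq_finrank]

open Classical in
theorem sum_indF {res : UK K ι →* (M ≃ₐ[K] M)} [Algebra k Mt] [Algebra k[X] Mt]
    [IsScalarTower k k[X] Mt] [IsScalarTower k[X] (RatFunc k) Mt] (N : ℕ) {f : (M ≃ₐ[K] M) → ℝ}
    (h0 : ∑ u ∈ Finset.univ.filter
      (fun u : UK K ι => CompN k N (u : Mt ≃ₐ[RatFunc k] Mt)), f (res u) = 0) :
    ∑ τ ∈ Finset.univ.filter (fun τ : Mt ≃ₐ[RatFunc k] Mt => CompN k N τ), indF res f τ = 0 := by
  have hint : ∀ (σ : Mt ≃ₐ[RatFunc k] Mt) {z : Mt}, IsIntegral k z → IsIntegral k (σ z) := by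
    intro σ z hz
    have : IsScalarTower k (RatFunc k) Mt := by
      refine IsScalarTower.of_algebraMap_eq fun a => ?_
      rw [IsScalarTower.algebraMap_apply k k[X] Mt,
        IsScalarTower.algebraMap_apply k[X] (RatFunc k) Mt,
        IsScalarTower.algebraMap_apply k k[X] (RatFunc k)]
    exact hz.map (σ.restrictScalars k)
  have hconj : ∀ g τ : Mt ≃ₐ[RatFunc k] Mt, CompN k N τ → CompN k N (g * τ * g⁻¹) := by
    intro g τ hτ x hx
    have h1 : (g * τ * g⁻¹) x = g (τ (g⁻¹ x)) := rfl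
    rw [h1, hτ _ (hint g⁻¹ hx), map_pow]
    congr 1
    rw [← AlgEquiv.mul_apply, mul_inv_cancel, AlgEquiv.one_apply]
  simp_rw [indF_eq]
  rw [Finset.sum_comm]
  refine Finset.sum_eq_zero fun g _ => ?_
  rw [← h0]
  -- substitute `τ = g⁻¹ u g`
  symm
  refine Finset.sum_bij_ne_zero (fun u _ _ => g⁻¹ * (u : Mt ≃ₐ[RatFunc k] Mt) * g) ?_ ?_ ?_ ?_
  · intro u hu _
    rw [Finset.mem_filter] at hu ⊢
    refine ⟨Finset.mem_univ _, ?_⟩
    have h1 := hconj g⁻¹ _ hu.2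
    rwa [inv_inv] at h1
  · intro u _ _ u' _ _ h
    apply Subtype.ext
    exact mul_left_cancel (mul_right_cancel h)
  · intro τ hτ hne
    rw [Finset.mem_filter] at hτ
    by_cases h : g * τ * g⁻¹ ∈ UK K ι
    · have h2 := val0_of_mem (res := res) f ⟨_, h⟩
      change val0 res f (g * τ * g⁻¹) = _ at h2
      rw [h2] at hne
      refine ⟨⟨g * τ * g⁻¹, h⟩, ?_, hne, ?_⟩
      · rw [Finset.mem_filter]
        exact ⟨Finset.mem_univ _, hconj g τ hτ.2⟩
      · change g⁻¹ * (g * τ * g⁻¹) * g = τ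
        group
    · exact absurd (val0_of_not_mem f h) hne
  · intro u _ _
    have h1 : g * (g⁻¹ * (u : Mt ≃ₐ[RatFunc k] Mt) * g) * g⁻¹ = u := by group
    rw [h1, val0_of_mem]

end ind

end Pool.Agent.SmBU
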