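import Pool.Agent.Lib.SmBU.FrK
import Pool.Agent.Lib.SmB.P4Frob
import Pool.Agent.Lib.GBU.PlA

/-!
SMITH-U, block B for general `K`, bridge to the places of `Om`: `unramK_of_iner`: if the inertia group
of `w` acts trivially on `L` then `p` is unramified in `L`.
-/

set_option autoImplicit false

namespace Pool.Agent.SmBU

open Pool.Agent.Lib.SmD Polynomial Pool.Agent.SmB IsDedekindDomain

section trans

variable {k K : Type} [Field k] [Field K] [Algebra k[X] K] {L : Type} [Field L] [Algebra K L]
  [Algebra k[X] L] [IsScalarTower k[X] K L]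

theorem gal_memK (g : L ≃ₐ[K] L) {x : L} (hx : x ∈ AA k L) : g x ∈ AA k L := by
  have h1 : IsIntegral k[X] x := hx
  exact h1.map ((g : L →ₐ[K] L).restrictScalars k[X])

/-- The inclusion of the rings of integers. -/
def inclK : AA k K →+* AA k L where
  toFun x := ⟨algebraMap K L x, by
    have h1 : IsIntegral k[X] (x : K) := x.2
    exact h1.map (IsScalarTower.toAlgHom k[X] K L)⟩
  map_one' := Subtype.ext (map_one _)
  map_zero' := Subtype.ext (map_zero _)
  map_mul' x y := Subtype.ext (map_mul (algebraMap K L) (x : K) (y : K))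
  map_add' x y := Subtype.ext (map_add (algebraMap K L) (x : K) (y : K))

theorem inclK_coe (x : AA k K) : ((inclK x : AA k L) : L) = algebraMap K L (x : K) := rfl

/-- Transitivity of the Galois group on the primes above a prime. -/
theorem trans_primesK [FiniteDimensional K L] [IsGalois K L] {p : Ideal (AA k K)}
    {I I' : Ideal (AA k L)} [I.IsPrime] [I'.IsPrime] (h : AboveK p I) (h' : AboveK p I') :
    ∃ g : L ≃ₐ[K] L, ∀ x y : AA k L, (y : L) = g x → (y ∈ I ↔ x ∈ I') := by
  let : Algebra (AA k K) (AA k L) := (inclK (k := k) (K := K) (L := L)).toAlgebra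
  let act : (L ≃ₐ[K] L) → (AA k L →+* AA k L) := fun g =>
    { toFun := fun x => ⟨g x, gal_memK g x.2⟩
      map_one' := Subtype.ext (map_one g)
      map_zero' := Subtype.ext (map_zero g)
      map_mul' := fun a b => Subtype.ext (map_mul g (a : L) (b : L))
      map_add' := fun a b => Subtype.ext (map_add g (a : L) (b : L)) }
  let : MulSemiringAction (L ≃ₐ[K] L) (AA k L) :=
    { smul := fun g x => act g x
      one_smul := fun _ => rfl
      mul_smul := fun _ _ _ => rfl
      smul_zero := fun g => map_zero (act g)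
      smul_add := fun g => map_add (act g)
      smul_one := fun g => map_one (act g)
      smul_mul := fun g => map_mul (act g) }
  have hsm : ∀ (g : L ≃ₐ[K] L) (x : AA k L), ((g • x : AA k L) : L) = g (x : L) := fun _ _ => rfl
  have hinv : Algebra.IsInvariant (AA k K) (AA k L) (L ≃ₐ[K] L) := by
    refine ⟨fun b hb => ?_⟩
    have h1 : ∀ g : L ≃ₐ[K] L, g (b : L) = b := fun g => by
      rw [← hsm, hb g]
    obtain ⟨a, ha⟩ := (IsGalois.mem_range_algebraMap_iff_fixed (b : L)).2 h1
    have h2 : IsIntegral k[X] a := by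
      have h3 : IsIntegral k[X] (algebraMap K L a) := by
        rw [ha]
        exact b.2
      exact (isIntegral_algHom_iff (IsScalarTower.toAlgHom k[X] K L)
        (algebraMap K L).injective).1 h3
    exact ⟨⟨a, h2⟩, Subtype.ext ha⟩
  have hcomm : SMulCommClass (L ≃ₐ[K] L) (AA k K) (AA k L) := by
    refine ⟨fun g r x => Subtype.ext ?_⟩
    rw [hsm, Algebra.smul_def, Algebra.smul_def]
    change g (algebraMap K L (r : K) * (x : L)) = algebraMap K L (r : K) * g (x : L)
    rw [map_mul, g.commutes]
  have hu : I.under (AA k K) = I'.under (AA k K) := by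
    ext x
    change inclK x ∈ I ↔ inclK x ∈ I'
    rw [h x (inclK x) rfl, h' x (inclK x) rfl]
  obtain ⟨g, hg⟩ := Algebra.IsInvariant.exists_smul_of_under_eq (AA k K) (AA k L)
    (L ≃ₐ[K] L) I I' hu
  refine ⟨g⁻¹, fun x y hxy => ?_⟩
  rw [hg, Ideal.mem_pointwise_smul_iff_inv_smul_mem]
  have h1 : g⁻¹ • x = y := Subtype.ext hxy.symm
  rw [h1]

end trans

section level

variable {k K : Type} [Field k] [Field K] [Algebra (RatFunc k) K] [Algebra k[X] K]
  [IsScalarTower k[X] (RatFunc k) K] [FiniteDimensional (RatFunc k) K]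
  [Algebra.IsSeparable (RatFunc k) K] {Om : Type} [Field Om] [Algebra K Om]
  {w : ValuationSubring Om} (hX : ∀ f : k[X], algebraMap k[X] K f ∈ below K w)
  (hne : below K w ≠ ⊤) {p : Ideal (AA k K)}
  (hp : ∀ x : AA k K, x ∈ p ↔ w.valuation (algebraMap K Om (x : K)) < 1)

include hX hne hp

/-- Denominators prime to `p`. -/
theorem exists_denK (y : K) (hy : y ∈ below K w) :
    ∃ s : AA k K, s ∉ p ∧ ∃ t : AA k K, (s : K) * y = t := by
  have hfr : IsFractionRing (AA k K) K :=
    integralClosure.isFractionRing_of_finite_extension (RatFunc k) K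
  have hded : IsDedekindDomain (AA k K) := integralClosure.isDedekindDomain k[X] (RatFunc k) K
  have hmem : ∀ r : AA k K, algebraMap (AA k K) K r ∈ below K w := fun r => memK hX r
  obtain ⟨P, hP⟩ := GBU.dvr_of_dedekind (R := AA k K) (below K w) hne hmem
  obtain ⟨n, d, hnd⟩ := P.exists_primeCompl_mul_eq_of_integer y
    ((Valuation.mem_valuationSubring_iff _ _).1 (by rw [hP]; exact hy))
  refine ⟨d, ?_, n, by rw [mul_comm]; exact hnd⟩
  have h1 : P.valuation K (algebraMap (AA k K) K d) = 1 := by
    refine le_antisymm (P.valuation_le_one _) ?_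
    rw [← not_lt, P.valuation_lt_one_iff_mem]
    exact d.2
  have h2 : (algebraMap (AA k K) K d)⁻¹ ∈ below K w := by
    rw [← hP, Valuation.mem_valuationSubring_iff, map_inv₀, h1, inv_one]
  have h3 : w.valuation (algebraMap K Om (algebraMap (AA k K) K d)⁻¹) ≤ 1 :=
    (ValuationSubring.valuation_le_one_iff _ _).2 h2
  intro h4
  rw [hp] at h4
  have h5 : algebraMap (AA k K) K d ≠ 0 := by
    intro h6
    rw [h6, map_zero] at h1
    exact zero_ne_one h1
  have h7 : algebraMap K Om (algebraMap (AA k K) K d) ≠ 0 :=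
    (map_ne_zero_iff _ (algebraMap K Om).injective).2 h5
  have h8 : w.valuation (algebraMap K Om (algebraMap (AA k K) K d)) *
      w.valuation (algebraMap K Om (algebraMap (AA k K) K d)⁻¹) = 1 := by
    rw [← map_mul, map_inv₀, mul_inv_cancel₀ h7, map_one]
  have h9 : w.valuation (algebraMap K Om (algebraMap (AA k K) K d)) *
      w.valuation (algebraMap K Om (algebraMap (AA k K) K d)⁻¹) < 1 :=
    lt_of_le_of_lt (mul_le_of_le_one_right' h3) h4
  rw [h8] at h9
  exact lt_irrefl _ h9

variable {L : IntermediateField K Om} [Algebra k[X] L] [IsScalarTower k[X] K L]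

/-- An element of `L` integral over the ring of the place becomes integral over `k[X]` after
multiplication with a denominator prime to `p`. -/
theorem integral_mulK (hpr : p.IsPrime) {x : L} (hx : IsIntegral (below K w) x) :
    ∃ s : AA k K, s ∉ p ∧ IsIntegral k[X] (algebraMap K L (s : K) * x) := by
  choose! den hden1 num hnum using fun (y : K) hy => exists_denK hX hne hp y hy
  obtain ⟨q, hq, hqx⟩ := hx
  set n := q.natDegree with hn
  set F : AA k K := ∏ i ∈ Finset.range n, den (q.coeff i : K) with hF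
  have hF1 : F ∉ p := by
    rw [hF, Ideal.IsPrime.prod_mem_iff]
    rintro ⟨i, -, hi⟩
    exact hden1 _ (q.coeff i).2 hi
  refine ⟨F, hF1, ?_⟩
  have hg : ∀ i ∈ Finset.range n, ∃ g : AA k K, (F : K) * (q.coeff i : K) = g := by
    intro i hi
    obtain ⟨c, hc⟩ : den (q.coeff i : K) ∣ F := Finset.dvd_prod_of_mem _ hi
    refine ⟨c * num (q.coeff i : K), ?_⟩
    rw [hc]
    push_cast
    rw [← hnum _ (q.coeff i).2]
    ring
  choose! g hg using hg
  have hsum : x ^ n + ∑ i ∈ Finset.range n, algebraMap K L (q.coeff i : K) * x ^ i = 0 := by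
    rw [eval₂_eq_sum_range, Finset.sum_range_succ] at hqx
    have h2 : q.coeff q.natDegree = 1 := hq
    rw [h2, map_one, one_mul, add_comm] at hqx
    exact hqx
  set y := algebraMap K L (F : K) * x with hy
  have hy2 : y ^ n + ∑ i ∈ Finset.range n,
      algebraMap K L ((g i * F ^ (n - 1 - i) : AA k K) : K) * y ^ i = 0 := by
    have h3 : ∀ i ∈ Finset.range n, algebraMap K L ((g i * F ^ (n - 1 - i) : AA k K) : K) * y ^ i =
        algebraMap K L (F : K) ^ n * (algebraMap K L (q.coeff i : K) * x ^ i) := by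
      intro i hi
      have hin := Finset.mem_range.1 hi
      have h4 : ((g i * F ^ (n - 1 - i) : AA k K) : K) = (g i : K) * (F : K) ^ (n - 1 - i) := rfl
      rw [h4, ← hg i hi, map_mul, map_mul, map_pow, hy, mul_pow]
      have h5 : algebraMap K L (F : K) ^ n = algebraMap K L (F : K) *
          algebraMap K L (F : K) ^ (n - 1 - i) * algebraMap K L (F : K) ^ i := by
        rw [← pow_succ', ← pow_add]
        congr 1
        omega
      rw [h5]
      ring
    rw [Finset.sum_congr rfl h3, ← Finset.mul_sum, hy, mul_pow, ← mul_add, hsum, mul_zero]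
  -- integral over `AA k K`, hence over `k[X]`
  have h7 : IsScalarTower k[X] (AA k K) L := by
    refine IsScalarTower.of_algebraMap_eq fun f => ?_
    exact IsScalarTower.algebraMap_apply k[X] K L f
  have h6 : IsIntegral (AA k K) y := by
    refine ⟨X ^ n + ∑ i ∈ Finset.range n, C (g i * F ^ (n - 1 - i)) * X ^ i, ?_, ?_⟩
    · apply monic_X_pow_add
      refine (degree_sum_le _ _).trans_lt ?_
      rw [Finset.sup_lt_iff (by exact WithBot.bot_lt_coe n)]
      intro i hi
      refine (degree_C_mul_X_pow_le _ _).trans_lt ?_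
      exact_mod_cast Finset.mem_range.1 hi
    · rw [eval₂_add, eval₂_finsetSum, eval₂_X_pow]
      rw [← hy2]
      congr 1
      refine Finset.sum_congr rfl fun i _ => ?_
      rw [eval₂_mul, eval₂_C, eval₂_X_pow]
      rfl
  have h8 : Algebra.IsIntegral k[X] (AA k K) := inferInstance
  exact isIntegral_trans y h6

/-- If the inertia group acts trivially on `L` then `L` is unramified at `p`. -/
theorem unramK_of_iner [IsGalois K Om] [FiniteDimensional K L] [IsGalois K L] (hpr : p.IsPrime)
    (hin : ∀ σ ∈ iner K w, ∀ x : L, σ (x : Om) = x) : UnramK L p := by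
  intro I hI hIP σ hσ
  have hW := primeWK_isPrime (L := L) hX
  obtain ⟨g, hg⟩ := trans_primesK hIP (aboveK_primeWK (L := L) hX hp)
  -- the conjugate automorphism
  set τ : L ≃ₐ[K] L := g⁻¹ * σ * g with hτ
  have h1 : ∀ x y : AA k L, (y : L) = τ x → y - x ∈ primeWK hX L := by
    intro x y hxy
    let gx : AA k L := ⟨g x, gal_memK g x.2⟩
    let sgx : AA k L := ⟨σ (g x), gal_memK σ (gal_memK g x.2)⟩
    have h2 : sgx - gx ∈ I := hσ gx sgx rfl
    refine (hg (y - x) (sgx - gx) ?_).1 h2
    change σ (g x) - g x = g ((y : L) - (x : L))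
    rw [map_sub, hxy, hτ]
    congr 1
    change σ (g x) = g (g⁻¹ (σ (g x)))
    rw [← AlgEquiv.mul_apply g g⁻¹, mul_inv_cancel, AlgEquiv.one_apply]
  have h3 : ∀ b : L, IsIntegral (below K w) b → w.valuation ((τ b : Om) - (b : Om)) < 1 := by
    intro b hb
    obtain ⟨f, hf, hfb⟩ := integral_mulK hX hne hp hpr hb
    have h4 := h1 ⟨_, hfb⟩ ⟨τ (algebraMap K L (f : K) * b), gal_memK τ hfb⟩ rfl
    rw [mem_primeWK] at h4
    have h7 : ((τ (algebraMap K L (f : K) * b) : L) : Om) -
        ((algebraMap K L (f : K) * b : L) : Om) =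
        algebraMap K Om (f : K) * ((τ b : Om) - (b : Om)) := by
      rw [map_mul, τ.commutes]
      have h6 : ∀ c : L, ((algebraMap K L (f : K) * c : L) : Om) =
        algebraMap K Om (f : K) * (c : Om) := fun _ => rfl
      rw [h6, h6]
      ring
    have h8 : w.valuation (algebraMap K Om (f : K) * ((τ b : Om) - (b : Om))) < 1 := by
      rw [← h7]
      exact h4
    have h9 : w.valuation (algebraMap K Om (f : K)) = 1 := by
      refine le_antisymm ((ValuationSubring.valuation_le_one_iff _ _).2 (memK hX f)) ?_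
      rw [← not_lt, ← hp]
      exact hf
    rwa [map_mul, h9, one_mul] at h8
  obtain ⟨s, hs, hsx⟩ := lift_inertia K L h3
  have h10 : τ = 1 := by
    ext1 x
    apply Subtype.ext
    rw [hsx x, hin s hs x]
    rfl
  have h11 : σ = g * τ * g⁻¹ := by
    rw [hτ]
    group
  rw [h11, h10, mul_one, mul_inv_cancel]

end level

end Pool.Agent.SmBU
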